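import Pool.Agent.H3Z.Defs

/-! The bounded-ideal game and generic measurability without a well-foundedness demand. -/

namespace Pool.Agent.H3Z

open ZFSet

/-- `δ` is `ω₁`-strongly compact: on every set, every proper `δ`-complete filter extends to a
countably complete ultrafilter. (Every strongly compact cardinal has this property.) -/
def OmegaOneStronglyCompact (δ : Cardinal.{0}) : Prop :=
  ∀ (X : Type) (F : Filter X), CardinalInterFilter F δ → F.NeBot →
    ∃ U : Ultrafilter X, (U : Filter X) ≤ F ∧ CountableInterFilter (U : Filter X)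

/-- In `M`, Choose has a winning strategy in `U(κ, bd, <γ)`: every chosen piece is unbounded
in `κ`. -/
def WinsBd (M : Set ZFSet.{0}) (κ γ : ZFSet.{0}) : Prop :=
  ∃ S ∈ M, ∀ a ∈ M, IsRun κ γ S a → ∀ η ∈ γ, ∀ β ∈ κ, ¬ Cur κ S a (insert η η) ⊆ β

/-- In `M`, some name `U` (a set of pairs `(A, q)`) has as value under every filter on `(P, R)`
generic over `M` a uniform `M`-normal `M`-ultrafilter on `κ`. -/
def NamesNormalUF (M : Set ZFSet.{0}) (κ P R : ZFSet.{0}) : Prop :=
  ∃ U ∈ M, ∀ H, IsGeneric M {p | p ∈ P} (fun p q => pair p q ∈ R) H →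
    IsNormalUF M κ {A | ∃ q ∈ H, pair A q ∈ U}

end Pool.Agent.H3Z
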