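import Pool.Agent.H3Z.RModel
import Pool.Agent.H3Z.Defs2

/-! Choose wins the bounded-ideal game at a cardinal that is not generically measurable. -/

set_option linter.unusedSectionVars false
set_option linter.unusedVariables false

namespace Pool.Agent.H3Z

open CohenE ZFSet Pool.Agent.H30Z.Forc Cardinal

theorem exists_generic_ctm {M : Set ZFSet.{0}} (hM : M.Countable) (hne : M.Nonempty)
    {P R : ZFSet.{0}} (hr : ∀ p ∈ P, pair p p ∈ R)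
    (ht : ∀ p q r, pair p q ∈ R → pair q r ∈ R → pair p r ∈ R) {p : ZFSet.{0}} (hp : p ∈ P) :
    ∃ H, IsGeneric M {p | p ∈ P} (fun p q => pair p q ∈ R) H ∧ p ∈ H := by
  obtain ⟨D, rfl⟩ := hM.exists_eq_range hne
  have h1 : ∀ n (a : {a // a ∈ P}), ∃ b : {a // a ∈ P}, pair b.1 a.1 ∈ R ∧
      ((∃ q ∈ D n, q ∈ P ∧ pair q a.1 ∈ R) → b.1 ∈ D n) := by
    intro n a
    by_cases h : ∃ q ∈ D n, q ∈ P ∧ pair q a.1 ∈ R
    · obtain ⟨q, h1, h2, h3⟩ := h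
      exact ⟨⟨q, h2⟩, h3, fun _ => h1⟩
    · exact ⟨a, hr _ a.2, fun h' => absurd h' h⟩
  choose f h2 h3 using h1
  let s : ℕ → {a // a ∈ P} := fun n => Nat.rec ⟨p, hp⟩ f n
  have hs : ∀ m n, m ≤ n → pair (s n).1 (s m).1 ∈ R := by
    intro m n h
    induction h with
    | refl => exact hr _ (s m).2
    | step _ ih => exact ht _ _ _ (h2 _ _) ih
  refine ⟨{q | q ∈ P ∧ ∃ n, pair (s n).1 q ∈ R}, ⟨fun q hq => hq.1, ⟨p, hp, 0, hr p hp⟩,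
    fun a ⟨_, n, h⟩ b hb hab => ⟨hb, n, ht _ _ _ h hab⟩, fun a ⟨_, n, h⟩ b ⟨_, m, h'⟩ =>
      ⟨(s (max n m)).1, ⟨(s _).2, _, hr _ (s _).2⟩, ht _ _ _ (hs _ _ (le_max_left _ _)) h,
        ht _ _ _ (hs _ _ (le_max_right _ _)) h'⟩, ?_⟩, hp, 0, hr p hp⟩
  rintro _ ⟨n, rfl⟩ hd
  exact ⟨(s (n + 1)).1, h3 n (s n) (hd _ (s n).2), (s (n + 1)).2, n + 1, hr _ (s (n + 1)).2⟩

variable {X : Type} [LinearOrder X] [WellFoundedLT X] {U : Ultrafilter X}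

/-- a regular cardinal with a uniform countably complete ultrafilter that embeds into the
countable power of a smaller ordinal -/
structure Uni (X : Type) [LinearOrder X] [WellFoundedLT X] (U : Ultrafilter X) : Prop where
  big : ℵ_ 1 < #X
  iio : ∀ x : X, #(Set.Iio x) < #X
  bdd : ∀ s : Set X, #s < #X → ∃ b, ∀ x ∈ s, x < b
  comp : CountableInterFilter (U : Filter X)
  unif : ∀ x, Set.Iio x ∉ U
  emb : ∃ b : X, ∃ e : X → ℕ → X, (∀ x n, e x n < b) ∧ Function.Injective e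

theorem exists_uni {δ : Cardinal.{0}} (h : OmegaOneStronglyCompact δ) :
    ∃ μ : Cardinal.{0}, ∃ U, Uni μ.ord.ToType U := by
  let c : ℕ → Cardinal.{0} := fun n => (Order.succ)^[n] (max δ (ℵ_ 1))
  have hc : ∀ n, c n < c (n + 1) := fun n => by
    simp only [c, Function.iterate_succ_apply']
    exact Order.lt_succ _
  let l := Cardinal.sum c
  have h0 : max δ (ℵ_ 1) ≤ l := le_sum c 0
  have h1 : ℵ_ 1 ≤ l := (le_max_right _ _).trans h0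
  have h2 : Order.succ l ≤ l ^ ℵ₀ := by
    refine Order.succ_le_of_lt ((sum_lt_prod c (fun n => c (n + 1)) hc).trans_le ?_)
    refine (prod_le_prod _ (fun _ => l) fun n => le_sum c (n + 1)).trans ?_
    simp
  have hreg : (Order.succ l).IsRegular := isRegular_succ (aleph0_lt_aleph_one.le.trans h1)
  have hX : #(Order.succ l).ord.ToType = Order.succ l := by simp
  have hio : ∀ x : (Order.succ l).ord.ToType, #(Set.Iio x) < Order.succ l :=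
    fun x => mk_Iio_toType_ord_lt x
  have hb : ∀ s : Set (Order.succ l).ord.ToType, #s < Order.succ l → ∃ b, ∀ x ∈ s, x < b := by
    intro s hs
    by_contra hcon
    push Not at hcon
    have h1 := Order.cof_le (s := s) fun σ => by
      obtain ⟨j, hj⟩ := hcon σ
      exact ⟨j, hj⟩
    rw [Ordinal.cof_toType, hreg.cof_ord] at h1
    exact absurd hs (not_lt.2 h1)
  let F : Filter (Order.succ l).ord.ToType := Filter.cocardinal _ hreg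
  have hF : CardinalInterFilter F δ :=
    CardinalInterFilter.of_cardinalInterFilter_of_le F
      (((le_max_left _ _).trans h0).trans (Order.le_succ l))
  have hF' : F.NeBot := by
    rw [← Filter.forall_mem_nonempty_iff_neBot]
    intro s hs
    by_contra hcon
    rw [Set.not_nonempty_iff_eq_empty] at hcon
    rw [hcon, Filter.mem_cocardinal, Set.compl_empty, mk_univ, hX] at hs
    exact lt_irrefl _ hs
  obtain ⟨U, hU1, hU2⟩ := h _ F hF hF'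
  refine ⟨Order.succ l, U, by rw [hX]; exact h1.trans_lt (Order.lt_succ l),
    fun x => (hio x).trans_eq hX.symm, fun s hs => hb s (hs.trans_eq hX), hU2, fun x => ?_, ?_⟩
  · rw [← Ultrafilter.compl_mem_iff_notMem]
    exact hU1 (Filter.mem_cocardinal.2 (by rw [compl_compl]; exact hio x))
  · obtain ⟨i⟩ := (Cardinal.le_def l.out (Order.succ l).ord.ToType).1
      (by rw [Cardinal.mk_out, hX]; exact Order.le_succ l)
    obtain ⟨b, hb'⟩ := hb (Set.range i)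
      (mk_range_le.trans_lt (by rw [Cardinal.mk_out]; exact Order.lt_succ l))
    obtain ⟨e⟩ := (Cardinal.le_def (Order.succ l).ord.ToType (ℕ → l.out)).1
      (by rw [hX]; simpa using h2)
    exact ⟨b, fun x n => i (e x n), fun x n => hb' _ ⟨_, rfl⟩,
      fun x y hxy => e.injective (funext fun n => i.injective (congrFun hxy n))⟩

namespace Uni
variable (h : Uni X U)
include h

theorem unc : ℵ₀ < #X := aleph0_lt_aleph_one.trans h.big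

theorem regUnc : RegUnc Set.univ (KZ X) := by
  refine ⟨trivial, KZ_ord, omega_mem_KZ h.unc, fun α hα f _ hf => ?_⟩
  obtain ⟨a, rfl⟩ := mem_KZ.1 hα
  have h1 : ∀ x : Set.Iio a, ∃ y : X, pair (oz x.1) (oz y) ∈ f := by
    intro x
    obtain ⟨w, hw, -⟩ := hf.2 _ (oz_mem_iff.2 x.2)
    obtain ⟨y, rfl⟩ := mem_KZ.1 (pair_mem_prod.1 (hf.1 hw)).2
    exact ⟨y, hw⟩
  choose g hg using h1
  obtain ⟨b, hb⟩ := h.bdd (Set.range g) (mk_range_le.trans_lt (h.iio a))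
  refine ⟨oz b, oz_mem b, fun ξ hξ y hy => ?_⟩
  obtain ⟨x, hx, rfl⟩ := mem_oz.1 hξ
  rw [(hf.2 _ hξ).unique hy (hg ⟨x, hx⟩)]
  exact oz_mem_iff.2 (hb _ ⟨_, rfl⟩)

theorem exists_w1 : ∃ w : X, ¬ (Set.Iio w).Countable ∧ ∀ x < w, (Set.Iio x).Countable := by
  have hne : {x : X | ¬ (Set.Iio x).Countable}.Nonempty := by
    obtain ⟨e⟩ := (Cardinal.le_def (ℵ_ 1).out X).1 (by rw [Cardinal.mk_out]; exact h.big.le)
    obtain ⟨b, hb⟩ := h.bdd (Set.range e)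
      (mk_range_le.trans_lt (by rw [Cardinal.mk_out]; exact h.big))
    refine ⟨b, fun hc => ?_⟩
    have h1 := (hc.mono hb).le_aleph0
    rw [mk_range_eq _ e.injective, Cardinal.mk_out] at h1
    exact absurd h1 (not_le.2 aleph0_lt_aleph_one)
  exact ⟨_, (wellFounded_lt (α := X)).min_mem _ hne, fun x hx => by_contra fun hc =>
    (wellFounded_lt (α := X)).not_lt_min _ (show x ∈ {x : X | ¬ (Set.Iio x).Countable} from hc) hx⟩

theorem wins {w : X} (hw : ∀ x < w, (Set.Iio x).Countable) :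
    ∃ S ∈ Set.univ, ∀ a ∈ Set.univ, IsRun (KZ X) (oz w) S a → ∀ η ∈ oz w, ∀ β ∈ KZ X,
      ∃ ξ ∈ KZ X, ξ ∉ β ∧ ∀ ζ ∈ oz w, (ζ ∈ η ∨ ζ = η) →
        ((∃ A, pair ζ A ∈ a ∧ ξ ∈ A) ↔ Restr a ζ ∈ S) := by
  have := h.comp
  refine ⟨ZFSet.sep (fun r => ∃ η A, pair η A ∈ r ∧ (∀ ζ A', pair ζ A' ∈ r → ζ ∈ η ∨ ζ = η) ∧
    dec X A ∈ U) (powerset (prod (oz w) (powerset (KZ X)))), trivial, fun a _ hr η hη β hβ => ?_⟩
  obtain ⟨y, hy, rfl⟩ := mem_oz.1 hη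
  obtain ⟨b, rfl⟩ := mem_KZ.1 hβ
  have h1 : ∀ z ∈ Set.Iic y, {x | ∀ A, pair (oz z) A ∈ a → (oz x ∈ A ↔ dec X A ∈ U)} ∈ U := by
    intro z hz
    obtain ⟨A, hA, hA'⟩ := hr.1.2 _ (oz_mem_iff.2 (lt_of_le_of_lt hz hy))
    by_cases hk : dec X A ∈ U
    · refine Filter.mem_of_superset hk fun x hx A' h2 => ?_
      rw [hA' A' h2]; exact iff_of_true hx hk
    · refine Filter.mem_of_superset (Ultrafilter.compl_mem_iff_notMem.2 hk) fun x hx A' h2 => ?_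
      rw [hA' A' h2]; exact iff_of_false hx hk
  have h2 := (countable_bInter_mem (l := (U : Filter X))
    (Set.Iio_insert (a := y) ▸ (hw y hy).insert y)).2 h1
  obtain ⟨x, hx1, hx2⟩ := Ultrafilter.nonempty_of_mem
    (Filter.inter_mem h2 (Ultrafilter.compl_mem_iff_notMem.2 (h.unif b)))
  refine ⟨oz x, oz_mem x, fun h3 => hx2 (oz_mem_iff.1 h3), fun ζ hζ h3 => ?_⟩
  obtain ⟨z, hz, rfl⟩ := mem_oz.1 hζ
  have hzy : z ≤ y := h3.elim (fun h => (oz_mem_iff.1 h).le) (fun h => (oz_inj h).le)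
  obtain ⟨A, hA, hA'⟩ := hr.1.2 _ hζ
  have h4 := Set.mem_iInter₂.1 hx1 z hzy A hA
  have h5 : ∀ ζ' A', pair ζ' A' ∈ Restr a (oz z) → ζ' ∈ oz z ∨ ζ' = oz z := by
    intro ζ' A' h5
    rcases (mem_Restr.1 h5).2 with ⟨_, h6⟩ | ⟨_, h6, _, h7⟩
    · exact Or.inr (pair_inj.1 h6).1
    · exact Or.inl ((pair_inj.1 h7).1 ▸ h6)
  have h6 : pair (oz z) A ∈ Restr a (oz z) := mem_Restr.2 ⟨hA, Or.inl ⟨A, rfl⟩⟩
  rw [ZFSet.mem_sep]
  constructor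
  · rintro ⟨A', h7, h8⟩
    rw [hA' A' h7] at h8
    exact ⟨mem_powerset.2 fun u hu => hr.1.1 (mem_Restr.1 hu).1, _, A, h6, h5, h4.1 h8⟩
  · rintro ⟨-, η, A', h7, h8, h9⟩
    have : η = oz z := by
      rcases h5 _ _ h7 with h10 | h10
      · rcases h8 _ _ h6 with h11 | h11
        · exact absurd h11 (ZFSet.mem_asymm h10)
        · exact h11.symm
      · exact h10
    rw [this] at h7
    rw [hA' A' (mem_Restr.1 h7).1] at h9
    exact ⟨A, hA, h4.2 h9⟩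

/-- the combinatorial core -/
theorem no_name {b : X} {e : X → ℕ → X} (he : ∀ x n, e x n < b) (he' : Function.Injective e)
    (hb : ZFSet.omega ∈ oz b) {P R : ZFSet.{0}} (In : ZFSet.{0} → ZFSet.{0} → Prop)
    (hne : ∃ p, p ∈ P) (ht : ∀ p q r, pair p q ∈ R → pair q r ∈ R → pair p r ∈ R)
    (hIn : ∀ p ∈ P, ∀ q B, pair p q ∈ R → In q B → In p B)
    (hcl : ∀ s, IsFunc omega P s → (∀ ξ ∈ ZFSet.omega, ∀ η ∈ ξ, ∀ p q, pair ξ p ∈ s →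
      pair η q ∈ s → pair p q ∈ R) → ∃ r ∈ P, ∀ ξ ∈ ZFSet.omega, ∀ p, pair ξ p ∈ s → pair r p ∈ R)
    (h1 : ∀ p ∈ P, ∀ f, IsFunc (KZ X) (oz b) f → ∃ q ∈ P, pair q p ∈ R ∧ ∃ B, In q B ∧
      ∃ β, ∀ ξ ∈ B, pair ξ β ∈ f)
    (h2 : ∀ q ∈ P, ∀ B B', In q B → In q B' → ∃ ξ ∈ B, ∃ ξ' ∈ B, ξ ∈ B' ∧ ξ ≠ ξ') : False := by
  classical
  have : Nonempty X := ⟨b⟩
  obtain ⟨p, hp⟩ := hne
  choose f f1 f2 using fun n => exists_graph (KZ X) (oz b)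
    (fun z => oz (e (Function.invFun oz z) n)) fun _ _ => oz_mem_iff.2 (he _ _)
  have h3 : ∀ n (a : {a // a ∈ P}), ∃ c : {a // a ∈ P}, pair c.1 a.1 ∈ R ∧ ∃ B, In c.1 B ∧
      ∃ β, ∀ ξ ∈ B, pair ξ β ∈ f n := fun n a => by
    obtain ⟨q, a1, a2⟩ := h1 a.1 a.2 (f n) (f1 n)
    exact ⟨⟨q, a1⟩, a2⟩
  choose c c1 B c2 β c3 using h3
  let s : ℕ → {a // a ∈ P} := fun n => Nat.rec ⟨p, hp⟩ c n
  have hs : ∀ m n, m < n → pair (s n).1 (s m).1 ∈ R := by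
    intro m n h
    induction h with
    | refl => exact c1 _ _
    | step _ ih => exact ht _ _ _ (c1 _ _) ih
  obtain ⟨r, hr, h4⟩ := hcl (seqZ fun n => (s n).1) (isFunc_seqZ fun n => (s n).2) (by
    intro ξ hξ η hη p q a1 a2
    obtain ⟨n, rfl⟩ := mem_omega.1 hξ
    obtain ⟨m, hm, rfl⟩ := mem_nat.1 hη
    rw [pair_mem_seqZ.1 a1, pair_mem_seqZ.1 a2]
    exact hs m n hm)
  have h5 : ∀ n, In r (B n (s n)) := fun n =>
    hIn r hr _ _ (h4 _ (nat_mem_omega (n + 1)) _ (pair_mem_seqZ.2 rfl)) (c2 n (s n))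
  obtain ⟨g, g1, g2⟩ := exists_graph (KZ X) (oz b)
    (fun z => if hz : ∃ n, z ∉ B n (s n) then nat hz.choose else omega) fun z _ => by
      split_ifs
      · exact (KZ_ord.mem (oz_mem b)).mem_trans (nat_mem_omega _) hb
      · exact hb
  obtain ⟨q, hq, a1, C, a2, v, a3⟩ := h1 r hr g g1
  obtain ⟨ξ, a4, ξ', a5, -, a6⟩ := h2 q hq C C a2 a2
  by_cases hz : ∃ ζ ∈ C, ∃ n, ζ ∉ B n (s n)
  · obtain ⟨ζ, a7, hz⟩ := hz
    obtain ⟨ζ', a8, -, -, a9, -⟩ := h2 q hq C _ a2 (hIn q hq _ _ a1 (h5 hz.choose))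
    have b1 := ((g2 _ _).1 (a3 ζ a7)).2
    have b2 := ((g2 _ _).1 (a3 ζ' a8)).2
    rw [dif_pos hz] at b1
    by_cases hz' : ∃ n, ζ' ∉ B n (s n)
    · rw [dif_pos hz'] at b2
      exact hz'.choose_spec (nat_inj (b1.symm.trans b2) ▸ a9)
    · rw [dif_neg hz'] at b2
      exact ZFSet.mem_irrefl _ ((b1.symm.trans b2) ▸ nat_mem_omega hz.choose)
  · push Not at hz
    obtain ⟨x, rfl⟩ := mem_KZ.1 ((g2 _ _).1 (a3 ξ a4)).1
    obtain ⟨x', rfl⟩ := mem_KZ.1 ((g2 _ _).1 (a3 ξ' a5)).1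
    refine a6 (congrArg oz (he' (funext fun n => oz_inj ?_)))
    have b1 := ((f2 _ _ _).1 (c3 n (s n) _ (hz _ a4 n))).2
    have b2 := ((f2 _ _ _).1 (c3 n (s n) _ (hz _ a5 n))).2
    rw [Function.leftInverse_invFun oz_inj] at b1 b2
    exact b1.symm.trans b2

end Uni

theorem bd_model (h : ∃ δ, OmegaOneStronglyCompact δ) :
    ∃ W, CTM W ∧ ∃ κ γ, RegUnc W κ ∧ IsSuccIn W omega γ ∧ γ ∈ κ ∧ WinsBd W κ γ ∧
      ∀ P R, ClosedForcing W γ P R → ¬ NamesNormalUF W κ P R := by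
  obtain ⟨δ, hδ⟩ := h
  obtain ⟨μ, U, hU⟩ := exists_uni hδ
  set X := μ.ord.ToType
  obtain ⟨w, hw1, hw2⟩ := hU.exists_w1
  have : Nonempty X := ⟨w⟩
  obtain ⟨b0, e, he, he'⟩ := hU.emb
  have how : ZFSet.omega ∈ oz w := by
    obtain ⟨o, ho⟩ := mem_KZ.1 (omega_mem_KZ hU.unc)
    rw [ho, oz_mem_iff]
    by_contra hcon
    refine hw1 (Set.Countable.mono (Set.Iio_subset_Iio (not_lt.1 hcon)) ((leIn_univ_iff o).1 ?_))
    rw [← ho]
    exact ⟨seqZ nat, trivial, isFunc_pfun (isFunc_seqZ nat_mem_omega), fun y hy => by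
      obtain ⟨n, rfl⟩ := mem_omega.1 hy
      exact ⟨_, hy, pair_mem_seqZ.2 rfl⟩⟩
  have hob : ZFSet.omega ∈ oz (max b0 w) := by
    rcases (le_max_right b0 w).lt_or_eq with h | h
    · exact (KZ_ord.mem (oz_mem _)).mem_trans how (oz_mem_iff.2 h)
    · exact h ▸ how
  obtain ⟨N, G, h, hm⟩ := exists_setup_list (P := Unit)
    [clos fun _ => ck _ (KZ X), clos fun _ => ck _ (oz w), clos fun _ => ck _ (oz (max b0 w))] (by
      simp only [List.forall_mem_cons, List.not_mem_nil, false_imp_iff, implies_true, and_true]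
      exact ⟨clos_dense _, clos_dense _, clos_dense _⟩)
  simp only [List.forall_mem_cons, List.not_mem_nil, false_imp_iff, implies_true, and_true] at hm
  have hK : KZ X ∈ Hl N := hm.1.clos [] (by simp)
  have hw : oz w ∈ Hl N := hm.2.1.clos [] (by simp)
  have hb : oz (max b0 w) ∈ Hl N := hm.2.2.clos [] (by simp)
  have hr := h.regUnc_gnd hK hU.regUnc
  have hwK := (h.pz_mem_iff hw hK).2 (oz_mem w)
  have hbK := (h.pz_mem_iff hb hK).2 (oz_mem _)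
  refine ⟨Gnd N, h.ctmV, pz N (KZ X), pz N (oz w), hr,
    ⟨h.pz_memV hw, h.pz_ord hw (isOrdinal_toZFSet _), fun h1 => ?_, fun ξ hξ => ?_⟩, hwK, ?_, ?_⟩
  · rw [← h.pz_omega] at h1
    exact hw1 ((leIn_univ_iff w).1 ((h.tr2 (fun M a b => LeIn M a b) hw h.omega_hl).1 h1))
  · obtain ⟨y, h1, h2, rfl⟩ := h.mem_pz hw hξ
    obtain ⟨x, hx, rfl⟩ := mem_oz.1 h2
    rw [← h.pz_omega]
    exact (h.tr2 (fun M a b => LeIn M a b) h1 h.omega_hl).2 ((leIn_univ_iff x).2 (hw2 x hx))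
  · obtain ⟨S, hS, h1⟩ := (h.tr2 (fun M k g => ∃ S ∈ M, ∀ a ∈ M, IsRun k g S a → ∀ η ∈ g, ∀ β ∈ k,
      ∃ ξ ∈ k, ξ ∉ β ∧ ∀ ζ ∈ g, (ζ ∈ η ∨ ζ = η) →
        ((∃ A, pair ζ A ∈ a ∧ ξ ∈ A) ↔ Restr a ζ ∈ S)) hK hw).2 (hU.wins hw2)
    refine ⟨S, hS, fun a ha hrun η hη β hβ hsub => ?_⟩
    obtain ⟨ξ, h2, h3, h4⟩ := h1 a ha hrun η hη β hβ
    refine h3 (hsub (mem_Cur.2 ⟨h2, fun ζ hζ => h4 ζ ?_ (ZFSet.mem_insert_iff.1 hζ).symm⟩))
    rcases ZFSet.mem_insert_iff.1 hζ with rfl | h5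
    · exact hη
    · exact (hr.2.1.mem hwK).mem_trans h5 hη
  · rintro P R ⟨c1, c2, c3, c4, c5, c6⟩ ⟨Un, hUn, hgen⟩
    have hg := fun p hp => exists_generic_ctm h.ctmV.countable ⟨_, c1⟩ c4 c5 (p := p) hp
    have hsucc : ∀ β ∈ pz N (KZ X), ∃ β' ∈ pz N (KZ X), β ∈ β' :=
      (h.tr1 (fun _ k => ∀ β ∈ k, ∃ β' ∈ k, β ∈ β') hK).2 fun β hβ => by
        obtain ⟨x, rfl⟩ := mem_KZ.1 hβ
        obtain ⟨y, hy⟩ := hU.bdd {x} (by simpa using one_lt_aleph0.trans hU.unc)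
        exact ⟨oz y, oz_mem y, oz_mem_iff.2 (hy x rfl)⟩
    have k1 : ∀ p ∈ P, ∀ f ∈ Gnd N, IsFunc (pz N (KZ X)) (pz N (oz (max b0 w))) f →
        ∃ q ∈ P, pair q p ∈ R ∧ ∃ B ∈ Gnd N, (∃ q' ∈ P, pair q q' ∈ R ∧ pair B q' ∈ Un) ∧
        ∃ β ∈ Gnd N, ∀ ξ ∈ B, pair ξ β ∈ f := by
      intro p hp f hf hfun
      obtain ⟨H, hH, hpH⟩ := hg p hp
      obtain ⟨u1, -, -, -, u5, u6, u7⟩ := hgen H hH
      obtain ⟨β, B, hB, h1⟩ := u7 f hf ⟨fun z hz => by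
          obtain ⟨x, hx, y, hy, rfl⟩ := mem_prod.1 (hfun.1 hz)
          exact pair_mem_prod.2 ⟨hx, hr.2.1.mem_trans hy hbK⟩, hfun.2⟩ _
        ((u5 _ (h.pz_memV hb) (hr.2.1.subset_of_mem hbK)).resolve_left (u6 _ hbK))
        fun ξ hξ y hy => by
          have a1 := (pair_mem_prod.1 (hfun.1 hy)).2
          obtain ⟨a2, a3⟩ := mem_sdiff.1 hξ
          rcases (hr.2.1.mem a2).mem_trichotomous (hr.2.1.mem hbK) with a4 | a4 | a4
          · exact absurd a4 a3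
          · exact a4 ▸ a1
          · exact (hr.2.1.mem a2).mem_trans a1 a4
      obtain ⟨q', a1, a2⟩ := id hB
      obtain ⟨q, a3, a4, a5⟩ := hH.2.2.2.1 p hpH q' a1
      refine ⟨q, hH.1 a3, a4, B, (u1 B hB).1, ⟨q', hH.1 a1, a5, a2⟩, ?_⟩
      by_cases hB0 : ∃ ξ, ξ ∈ B
      · obtain ⟨ξ, hξ⟩ := hB0
        exact ⟨β, pair_right_mem h.trV (h.trV _ hf _ (h1 ξ hξ)), h1⟩
      · exact ⟨f, hf, fun ξ hξ => absurd ⟨ξ, hξ⟩ hB0⟩
    have k2 : ∀ q ∈ P, ∀ B ∈ Gnd N, ∀ B' ∈ Gnd N, (∃ q' ∈ P, pair q q' ∈ R ∧ pair B q' ∈ Un) →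
        (∃ q' ∈ P, pair q q' ∈ R ∧ pair B' q' ∈ Un) → ∃ ξ ∈ B, ∃ ξ' ∈ B, ξ ∈ B' ∧ ξ ≠ ξ' := by
      rintro q hq B - B' - ⟨q1, a1, a2, a3⟩ ⟨q2, b1, b2, b3⟩
      obtain ⟨H, hH, hqH⟩ := hg q hq
      obtain ⟨u1, -, u3, u4, -, u6, -⟩ := hgen H hH
      have h1 := u3 B ⟨q1, hH.2.2.1 q hqH q1 a1 a2, a3⟩ B' ⟨q2, hH.2.2.1 q hqH q2 b1 b2, b3⟩
      have h2 : ∀ β ∈ pz N (KZ X), ∃ ξ ∈ B ∩ B', ξ ∉ β := fun β hβ => by
        by_contra hcon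
        push Not at hcon
        exact u6 β hβ (u4 _ h1 β (h.trV _ hr.1 _ hβ) hcon (hr.2.1.subset_of_mem hβ))
      obtain ⟨ξ, h3, -⟩ := h2 _ hwK
      obtain ⟨β, h4, h5⟩ := hsucc ξ ((u1 _ h1).2 h3)
      obtain ⟨ξ', h6, h7⟩ := h2 β h4
      exact ⟨ξ, (mem_inter.1 h3).1, ξ', (mem_inter.1 h6).1, (mem_inter.1 h3).2,
        fun e => h7 (e ▸ h5)⟩
    have k3 := c6 omega (by
      rw [← h.pz_omega]; exact (h.pz_mem_iff h.omega_hl hw).2 how)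
    obtain ⟨P0, hP0, rfl⟩ := h.exists_hl c1
    obtain ⟨R0, hR0, rfl⟩ := h.exists_hl c2
    obtain ⟨U0, hU0, rfl⟩ := h.exists_hl hUn
    rw [← h.pz_omega] at k3
    have l0 := (h.tr1 (fun _ P => P ≠ ∅) hP0).1 c3
    have l1 := (h.tr5 (fun M k b P R Un => ∀ p ∈ P, ∀ f ∈ M, IsFunc k b f →
        ∃ q ∈ P, pair q p ∈ R ∧ ∃ B ∈ M, (∃ q' ∈ P, pair q q' ∈ R ∧ pair B q' ∈ Un) ∧
        ∃ β ∈ M, ∀ ξ ∈ B, pair ξ β ∈ f) hK hb hP0 hR0 hU0).1 k1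
    have l2 := (h.tr3 (fun M P R Un => ∀ q ∈ P, ∀ B ∈ M, ∀ B' ∈ M,
        (∃ q' ∈ P, pair q q' ∈ R ∧ pair B q' ∈ Un) →
        (∃ q' ∈ P, pair q q' ∈ R ∧ pair B' q' ∈ Un) → ∃ ξ ∈ B, ∃ ξ' ∈ B, ξ ∈ B' ∧ ξ ≠ ξ')
        hP0 hR0 hU0).1 k2
    have l3 := (h.tr3 (fun M P R α => ∀ s ∈ M, IsFunc α P s →
      (∀ ξ ∈ α, ∀ η ∈ ξ, ∀ p, pair ξ p ∈ s → ∀ q, pair η q ∈ s → pair p q ∈ R) →
      ∃ r ∈ P, ∀ ξ ∈ α, ∀ p, pair ξ p ∈ s → pair r p ∈ R) hP0 hR0 h.omega_hl).1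
      fun s hs a1 a2 => k3 s hs a1 fun ξ hξ η hη p q a3 a4 => a2 ξ hξ η hη p a3 q a4
    have l4 := (h.tr1 (fun M R => ∀ p ∈ M, ∀ q, pair p q ∈ R → ∀ r, pair q r ∈ R → pair p r ∈ R)
      hR0).1 fun p _ q a r b => c5 p q r a b
    refine hU.no_name (b := max b0 w) (P := P0) (R := R0)
      (fun x n => (he x n).trans_le (le_max_left _ _)) he' hob
      (fun q B => ∃ q' ∈ P0, pair q q' ∈ R0 ∧ pair B q' ∈ U0) ?_
      (fun p q r a b => l4 p trivial q a r b)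
      (fun p _ q B a ⟨q', b1, b2, b3⟩ => ⟨q', b1, l4 p trivial q a q' b2, b3⟩)
      (fun s a1 a2 => l3 s trivial a1 fun ξ hξ η hη p a3 q a4 => a2 ξ hξ η hη p q a3 a4)
      (fun p hp f hf => ?_) fun q hq B B' => l2 q hq B trivial B' trivial
    · by_contra hcon
      exact l0 ((ZFSet.eq_empty _).2 fun p hp => hcon ⟨p, hp⟩)
    · obtain ⟨q, a1, a2, B, -, a3, β, -, a4⟩ := l1 p hp f trivial hf
      exact ⟨q, a1, a2, B, a3, β, a4⟩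

end Pool.Agent.H3Z
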