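import Pool.Agent.Helper212.CohenE.Defs

/-!
Measurable cardinals, and cut and choose games, ideals and generic ultrapowers evaluated inside a
transitive set `M`.
-/

namespace Pool.Agent.H3Z

open ZFSet Cardinal

/-- `μ` is a measurable cardinal: uncountable, and some set of cardinality `μ` carries a
`μ`-complete nonprincipal ultrafilter. -/
def IsMeasurableCardinal (μ : Cardinal.{0}) : Prop :=
  ℵ₀ < μ ∧ ∃ X : Type, #X = μ ∧ ∃ U : Ultrafilter X,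
    (∀ x : X, ({x} : Set X) ∉ U) ∧
    ∀ S : Set (Set X), #S < μ → (∀ s ∈ S, s ∈ U) → ⋂₀ S ∈ U

/-- `κ` is an uncountable regular cardinal in `M`: an ordinal above `ω` such that every function
in `M` from a smaller ordinal into `κ` is bounded. -/
def RegUnc (M : Set ZFSet.{0}) (κ : ZFSet.{0}) : Prop :=
  κ ∈ M ∧ κ.IsOrdinal ∧ omega ∈ κ ∧
    ∀ α ∈ κ, ∀ f ∈ M, IsFunc α κ f → ∃ β ∈ κ, ∀ ξ ∈ α, ∀ y, pair ξ y ∈ f → y ∈ β

/-- `I` is, in `M`, a proper `κ`-complete ideal on `κ` containing all bounded subsets of `κ`: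
it is closed under subsets, contains every ordinal below `κ`, and contains every set that is
covered by fewer than `κ` of its members. -/
def IsIdeal (M : Set ZFSet.{0}) (κ I : ZFSet.{0}) : Prop :=
  I ∈ M ∧ (∀ A ∈ I, A ⊆ κ) ∧ κ ∉ I ∧ (∀ A ∈ I, ∀ B ∈ M, B ⊆ A → B ∈ I) ∧ (∀ β ∈ κ, β ∈ I) ∧
    ∀ α ∈ κ, ∀ f ∈ M, IsFunc α I f → ∀ B ∈ M,
      (∀ x ∈ B, ∃ ξ ∈ α, ∃ A, pair ξ A ∈ f ∧ x ∈ A) → B ∈ I

/-- The restriction of the sequence `a` to the rounds up to and including `η`. -/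
noncomputable def Restr (a η : ZFSet.{0}) : ZFSet.{0} :=
  ZFSet.sep (fun z => (∃ A, z = pair η A) ∨ ∃ ζ ∈ η, ∃ A, z = pair ζ A) a

/-- The current set at the start of round `ξ`. In round `η` Cut splits the current set `D` into
`a η` and `D \ a η`. A strategy for Choose is the set `S` of those positions (sequences of moves
of Cut) at which Choose takes the first piece `a η`; at the other positions Choose takes the
second piece. So the current set consists of the points of `κ` in all pieces chosen before `ξ`. -/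
noncomputable def Cur (κ S a ξ : ZFSet.{0}) : ZFSet.{0} :=
  ZFSet.sep (fun x => ∀ η ∈ ξ, ((∃ A, pair η A ∈ a ∧ x ∈ A) ↔ Restr a η ∈ S)) κ

/-- `a` lists the moves of Cut in a run of length `γ` on `κ` in which Choose follows `S`. -/
def IsRun (κ γ S a : ZFSet.{0}) : Prop :=
  IsFunc γ (powerset κ) a ∧ ∀ η ∈ γ, ∀ A, pair η A ∈ a → A ⊆ Cur κ S a η

/-- In `M`, Choose has a winning strategy in `U(κ, I, γ)`: the final intersection is not in
`I`. -/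
def WinsIdeal (M : Set ZFSet.{0}) (κ I γ : ZFSet.{0}) : Prop :=
  ∃ S ∈ M, ∀ a ∈ M, IsRun κ γ S a → Cur κ S a γ ∉ I

/-- In `M`, Choose has a winning strategy in `U(κ, γ)`: the final intersection has two distinct
points. -/
def WinsTwo (M : Set ZFSet.{0}) (κ γ : ZFSet.{0}) : Prop :=
  ∃ S ∈ M, ∀ a ∈ M, IsRun κ γ S a → ∃ x ∈ Cur κ S a γ, ∃ y ∈ Cur κ S a γ, x ≠ y

/-- In `M`, Choose has a winning strategy in `U(κ, ≤γ)`: no chosen piece is a singleton and the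
final intersection is nonempty. -/
def WinsWeak (M : Set ZFSet.{0}) (κ γ : ZFSet.{0}) : Prop :=
  ∃ S ∈ M, ∀ a ∈ M, IsRun κ γ S a →
    (∀ η ∈ γ, ∀ x, Cur κ S a (insert η η) ≠ {x}) ∧ Cur κ S a γ ≠ ∅

/-- `H` is a filter on the preorder `(Q, le)` that meets every dense set lying in `M`. -/
def IsGeneric (M Q : Set ZFSet.{0}) (le : ZFSet.{0} → ZFSet.{0} → Prop) (H : Set ZFSet.{0}) :
    Prop :=
  H ⊆ Q ∧ H.Nonempty ∧ (∀ p ∈ H, ∀ q ∈ Q, le p q → q ∈ H) ∧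
    (∀ p ∈ H, ∀ q ∈ H, ∃ r ∈ H, le r p ∧ le r q) ∧
    ∀ D ∈ M, (∀ p ∈ Q, ∃ q ∈ D, q ∈ Q ∧ le q p) → ∃ q ∈ D, q ∈ H

/-- The ultrapower of `M` by `U` is well-founded: the relation `f ξ ∈ g ξ` for all `ξ` in a member
of `U` is well-founded on the functions in `M` with domain `κ`. -/
def UltWF (M : Set ZFSet.{0}) (κ : ZFSet.{0}) (U : Set ZFSet.{0}) : Prop :=
  WellFounded fun f g : {f : ZFSet.{0} // f ∈ M ∧ ∃ b, IsFunc κ b f} =>
    ∃ A ∈ U, ∀ ξ ∈ A, ∃ u v, pair ξ u ∈ f.1 ∧ pair ξ v ∈ g.1 ∧ u ∈ v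

/-- `I` is precipitous in `M`: for every filter `H` on the `I`-positive subsets of `κ` in `M`,
ordered by inclusion modulo `I`, that is generic over `M`, the ultrapower of `M` by `H` is
well-founded. -/
def Precipitous (M : Set ZFSet.{0}) (κ I : ZFSet.{0}) : Prop :=
  ∀ H, IsGeneric M {A | A ∈ M ∧ A ⊆ κ ∧ A ∉ I} (fun A B => A \ B ∈ I) H → UltWF M κ H

/-- `U` is a uniform `M`-normal `M`-ultrafilter on `κ`. -/
def IsNormalUF (M : Set ZFSet.{0}) (κ : ZFSet.{0}) (U : Set ZFSet.{0}) : Prop :=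
  (∀ A ∈ U, A ∈ M ∧ A ⊆ κ) ∧ κ ∈ U ∧ (∀ A ∈ U, ∀ B ∈ U, A ∩ B ∈ U) ∧
    (∀ A ∈ U, ∀ B ∈ M, A ⊆ B → B ⊆ κ → B ∈ U) ∧ (∀ A ∈ M, A ⊆ κ → A ∈ U ∨ κ \ A ∈ U) ∧
    (∀ β ∈ κ, β ∉ U) ∧
    ∀ f ∈ M, IsFunc κ κ f → ∀ A ∈ U, (∀ ξ ∈ A, ∀ y, pair ξ y ∈ f → y ∈ ξ) →
      ∃ β, ∃ B ∈ U, ∀ ξ ∈ B, pair ξ β ∈ f

/-- `(P, R)` is a notion of forcing in `M` (a nonempty preorder; `pair p q ∈ R` means `p ≤ q`)
in which every decreasing sequence in `M` of length less than `γ` has a lower bound. -/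
def ClosedForcing (M : Set ZFSet.{0}) (γ P R : ZFSet.{0}) : Prop :=
  P ∈ M ∧ R ∈ M ∧ P ≠ ∅ ∧ (∀ p ∈ P, pair p p ∈ R) ∧
    (∀ p q r, pair p q ∈ R → pair q r ∈ R → pair p r ∈ R) ∧
    ∀ α ∈ γ, ∀ s ∈ M, IsFunc α P s →
      (∀ ξ ∈ α, ∀ η ∈ ξ, ∀ p q, pair ξ p ∈ s → pair η q ∈ s → pair p q ∈ R) →
      ∃ r ∈ P, ∀ ξ ∈ α, ∀ p, pair ξ p ∈ s → pair r p ∈ R

/-- In `M`, `κ` is generically measurable as witnessed by `(P, R)`: there is a name `U ∈ M` for a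
set of elements of `M` whose value under every filter generic over `M` is a uniform `M`-normal
`M`-ultrafilter on `κ` with a well-founded ultrapower. -/
def GenMeasurable (M : Set ZFSet.{0}) (κ P R : ZFSet.{0}) : Prop :=
  ∃ U ∈ M, ∀ H, IsGeneric M {p | p ∈ P} (fun p q => pair p q ∈ R) H →
    IsNormalUF M κ {A | ∃ q ∈ H, pair A q ∈ U} ∧ UltWF M κ {A | ∃ q ∈ H, pair A q ∈ U}

/-- `f` is a partial function. -/
def IsPFun (f : ZFSet.{0}) : Prop := ∀ x y y', pair x y ∈ f → pair x y' ∈ f → y = y'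

/-- `|a| ≤ |b|` in `M`: a partial function in `M` maps elements of `b` onto `a`. -/
def LeIn (M : Set ZFSet.{0}) (a b : ZFSet.{0}) : Prop :=
  ∃ f ∈ M, IsPFun f ∧ ∀ y ∈ a, ∃ x ∈ b, pair x y ∈ f

/-- `k` is the successor cardinal of `w` in `M`: the least ordinal of larger size. -/
def IsSuccIn (M : Set ZFSet.{0}) (w k : ZFSet.{0}) : Prop :=
  k ∈ M ∧ k.IsOrdinal ∧ ¬ LeIn M k w ∧ ∀ x ∈ k, LeIn M x w

/-- A partial function in `M` maps elements of `w` onto the subsets of `ω` in `M`; for the `ω₁`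
of `M` this is the continuum hypothesis in `M`. -/
def CHIn (M : Set ZFSet.{0}) (w : ZFSet.{0}) : Prop :=
  ∃ f ∈ M, IsPFun f ∧ ∀ y ∈ M, y ⊆ omega → ∃ x ∈ w, pair x y ∈ f

end Pool.Agent.H3Z
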