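import Pool.Agent.H3Z.Defs
import Pool.Agent.H30Z.Forc.Truth

/-! Normal measures, and the coding of well-orders as von Neumann ordinals. -/

set_option linter.unusedSectionVars false

namespace Pool.Agent.H3Z

open Cardinal Set

/-- a complete nonprincipal ultrafilter on a well-order whose initial segments are small -/
structure Cpl (X : Type) [LinearOrder X] [WellFoundedLT X] (U : Ultrafilter X) : Prop where
  unc : ℵ₀ < #X
  iio : ∀ x : X, #(Iio x) < #X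
  comp : ∀ {ι : Type} (s : ι → Set X), #ι < #X → (∀ i, s i ∈ U) → (⋂ i, s i) ∈ U
  nonp : ∀ x : X, ({x} : Set X) ∉ U

/-- a normal measure -/
structure Nrm (X : Type) [LinearOrder X] [WellFoundedLT X] (U : Ultrafilter X) : Prop
    extends Cpl X U where
  norm : ∀ f : X → X, {x | f x < x} ∈ U → ∃ y, {x | f x = y} ∈ U

variable {X : Type} [LinearOrder X] [WellFoundedLT X] {U : Ultrafilter X}

namespace Cpl
variable (h : Cpl X U)
include h

theorem nat (s : ℕ → Set X) (hs : ∀ n, s n ∈ U) : (⋂ n, s n) ∈ U :=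
  h.comp s (by rw [mk_nat]; exact h.unc) hs

theorem bcomp {Y : Type} {C : Set Y} (hC : #C < #X) (s : Y → Set X) (hs : ∀ y ∈ C, s y ∈ U) :
    {x | ∀ y ∈ C, x ∈ s y} ∈ U := by
  have := h.comp (fun y : C => s y) hC (fun y => hs y y.2)
  refine Filter.mem_of_superset this fun x hx y hy => ?_
  exact mem_iInter.1 hx ⟨y, hy⟩

theorem const {Y : Type} {C : Set Y} (hC : #C < #X) (f : X → Y) (hf : {x | f x ∈ C} ∈ U) :
    ∃ y ∈ C, {x | f x = y} ∈ U := by
  by_contra hcon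
  push Not at hcon
  have h1 := h.bcomp hC (fun y => {x | f x = y}ᶜ)
    (fun y hy => Ultrafilter.compl_mem_iff_notMem.2 (hcon y hy))
  obtain ⟨x, hx1, hx2⟩ := Ultrafilter.nonempty_of_mem (Filter.inter_mem hf h1)
  exact hx2 _ hx1 rfl

theorem const' {Y : Type} (hY : #Y < #X) (f : X → Y) : ∃ y, {x | f x = y} ∈ U := by
  obtain ⟨y, -, hy⟩ := h.const (C := univ) (by simpa using hY) f
    (Filter.mem_of_superset Filter.univ_mem fun _ _ => mem_univ _)
  exact ⟨y, hy⟩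

theorem small_notMem {s : Set X} (hs : #s < #X) : s ∉ U := by
  intro hU
  obtain ⟨y, -, hy⟩ := h.const hs id hU
  exact h.nonp y hy

theorem iic (x : X) : #(Iic x) < #X := by
  rw [← Iio_insert]
  refine mk_insert_le.trans_lt ?_
  exact Cardinal.add_lt_of_lt h.unc.le (h.iio x) (one_lt_aleph0.trans h.unc)

theorem ioi (x : X) : Ioi x ∈ U := by
  have := Ultrafilter.compl_mem_iff_notMem.2 (h.small_notMem (h.iic x))
  rwa [compl_Iic] at this

theorem bdd {s : Set X} (hs : #s < #X) : ∃ b, ∀ x ∈ s, x < b := by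
  obtain ⟨b, hb⟩ := Ultrafilter.nonempty_of_mem (h.bcomp hs Ioi fun y _ => h.ioi y)
  exact ⟨b, hb⟩

theorem bdd_ctble {s : Set X} (hs : s.Countable) : ∃ b, ∀ x ∈ s, x < b :=
  h.bdd (hs.le_aleph0.trans_lt h.unc)

theorem exists_gt {A : Set X} (hA : A ∈ U) (x : X) : ∃ y ∈ A, x < y := by
  obtain ⟨y, hy⟩ := Ultrafilter.nonempty_of_mem (Filter.inter_mem hA (h.ioi x))
  exact ⟨y, hy.1, hy.2⟩

theorem slim {Y : Type} (hY : #Y < #X) : #(Set Y) < #X := by
  by_contra hcon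
  obtain ⟨e⟩ := (Cardinal.le_def _ _).1 (not_lt.1 hcon)
  have h1 : ∀ y : Y, ∃ p : Prop, {x | (y ∈ e x) = p} ∈ U := fun y =>
    h.const' (by rw [mk_Prop]; exact (natCast_lt_aleph0 (n := 2)).trans h.unc) (fun x => y ∈ e x)
  choose p hp using h1
  have h2 := h.comp _ hY hp
  obtain ⟨x, hx⟩ := Ultrafilter.nonempty_of_mem h2
  refine h.nonp x (Filter.mem_of_superset h2 fun z hz => ?_)
  apply e.injective
  ext y
  have a := mem_iInter.1 hx y
  have b := mem_iInter.1 hz y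
  exact Iff.of_eq (Eq.trans b (Eq.symm a))

theorem aleph_one_lt : ℵ_ 1 < #X := by
  have h1 := h.slim (Y := ℕ) (by rw [mk_nat]; exact h.unc)
  rw [mk_set, mk_nat] at h1
  exact (aleph_one_le_continuum.trans two_power_aleph0.symm.le).trans_lt h1

theorem no_desc {Y : Type*} (r : Y → Y → Prop) (hr : WellFounded r) (f : ℕ → X → Y)
    (hf : ∀ n, {x | r (f (n + 1) x) (f n x)} ∈ U) : False := by
  obtain ⟨x, hx⟩ := Ultrafilter.nonempty_of_mem (h.nat _ hf)
  exact (wellFounded_iff_isEmpty_descending_chain.1 hr).elim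
    ⟨fun n => f n x, fun n => mem_iInter.1 hx n⟩

theorem exists_nrm : ∃ U' : Ultrafilter X, Nrm X U' := by
  have wf : WellFounded fun f g : X → X => {x | f x < g x} ∈ U := by
    rw [wellFounded_iff_isEmpty_descending_chain]
    exact ⟨fun ⟨f, hf⟩ => h.no_desc (· < ·) wellFounded_lt f hf⟩
  let S : Set (X → X) := {g | ∀ y, {x | g x = y} ∉ U}
  have hS : S.Nonempty := ⟨id, h.nonp⟩
  let g := wf.min S hS
  have hg : g ∈ S := wf.min_mem S hS
  refine ⟨U.map g, ⟨h.unc, h.iio, fun s hι hs => ?_, fun y => hg y⟩, fun f hf => ?_⟩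
  · rw [Ultrafilter.mem_map, preimage_iInter]
    exact h.comp _ hι hs
  · by_contra hcon
    push Not at hcon
    exact wf.not_lt_min S (show (fun x => f (g x)) ∈ S from hcon) hf

end Cpl

theorem Nrm.diag (h : Nrm X U) (Y : X → Set X) (hY : ∀ b, Y b ∈ U) :
    {x | ∀ b < x, x ∈ Y b} ∈ U := by
  classical
  by_contra hcon
  have h1 := Ultrafilter.compl_mem_iff_notMem.2 hcon
  have h2 : ∀ x, ∃ b, x ∈ {x | ∀ b < x, x ∈ Y b}ᶜ → b < x ∧ x ∉ Y b := by
    intro x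
    by_cases hx : x ∈ {x | ∀ b < x, x ∈ Y b}ᶜ
    · have := hx
      simp only [mem_compl_iff, mem_ofPred_eq, not_forall] at this
      obtain ⟨b, hb, hb'⟩ := this
      exact ⟨b, fun _ => ⟨hb, hb'⟩⟩
    · exact ⟨x, fun h' => absurd h' hx⟩
  choose f hf using h2
  obtain ⟨y, hy⟩ := h.norm f (Filter.mem_of_superset h1 fun x hx => (hf x hx).1)
  obtain ⟨x, hx1, hx2, hx3⟩ := Ultrafilter.nonempty_of_mem
    (Filter.inter_mem h1 (Filter.inter_mem hy (hY y)))
  have : f x = y := hx2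
  exact (hf x hx1).2 (this ▸ hx3)

theorem IsMeasurableCardinal.exists_nrm {μ : Cardinal.{0}} (h : IsMeasurableCardinal μ) :
    ∃ U : Ultrafilter μ.ord.ToType, Nrm μ.ord.ToType U := by
  obtain ⟨h0, Y, hY, V, h1, h2⟩ := h
  have hX : #μ.ord.ToType = μ := by simp
  obtain ⟨e⟩ : Nonempty (Y ≃ μ.ord.ToType) := Cardinal.eq.1 (hY.trans hX.symm)
  have : Cpl μ.ord.ToType (V.map e) := by
    refine ⟨hX.symm ▸ h0, fun x => ?_, fun s hι hs => ?_, fun x hx => ?_⟩
    · rw [hX]; exact mk_Iio_toType_ord_lt x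
    · rw [Ultrafilter.mem_map, preimage_iInter, ← sInter_range]
      refine h2 _ (mk_range_le.trans_lt (hX ▸ hι)) ?_
      rintro _ ⟨i, rfl⟩
      exact hs i
    · rw [Ultrafilter.mem_map] at hx
      refine h1 (e.symm x) (Filter.mem_of_superset hx fun y hy => ?_)
      have : e y = x := hy
      rw [← this]
      simp
  exact this.exists_nrm

/-! ### Coding -/

open ZFSet CohenE

/-- the von Neumann ordinal of a point -/
noncomputable def oz (x : X) : ZFSet.{0} := (Ordinal.typein (α := X) (· < ·) x).toZFSet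

/-- the von Neumann ordinal of the well-order -/
noncomputable def KZ (X : Type) [LinearOrder X] [WellFoundedLT X] : ZFSet.{0} :=
  (Ordinal.type (α := X) (· < ·)).toZFSet

theorem oz_mem_iff {x y : X} : oz x ∈ oz y ↔ x < y := by
  simp [oz, Ordinal.toZFSet_mem_toZFSet_iff]

theorem oz_inj : Function.Injective (oz : X → ZFSet.{0}) := fun _ _ h =>
  (Ordinal.typein (α := X) (· < ·)).injective (Ordinal.toZFSet_injective h)

theorem oz_mem (x : X) : oz x ∈ KZ X := by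
  simp only [oz, KZ, Ordinal.toZFSet_mem_toZFSet_iff]
  exact Ordinal.typein_lt_type _ x

theorem mem_KZ {z : ZFSet.{0}} : z ∈ KZ X ↔ ∃ x : X, z = oz x := by
  constructor
  · intro h
    obtain ⟨a, ha, rfl⟩ := Ordinal.mem_toZFSet_iff.1 h
    obtain ⟨x, rfl⟩ := Ordinal.typein_surj _ ha
    exact ⟨x, rfl⟩
  · rintro ⟨x, rfl⟩
    exact oz_mem x

theorem KZ_ord : (KZ X).IsOrdinal := isOrdinal_toZFSet _

theorem mem_oz {z : ZFSet.{0}} {y : X} : z ∈ oz y ↔ ∃ x < y, z = oz x := by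
  constructor
  · intro h
    obtain ⟨x, rfl⟩ := mem_KZ.1 (KZ_ord.mem_trans h (oz_mem y))
    exact ⟨x, oz_mem_iff.1 h, rfl⟩
  · rintro ⟨x, hx, rfl⟩
    exact oz_mem_iff.2 hx

/-- the code of a set of points -/
noncomputable def enc (A : Set X) : ZFSet.{0} := ZFSet.sep (fun z => ∃ x ∈ A, z = oz x) (KZ X)

/-- the set of points in a set -/
def dec (X : Type) [LinearOrder X] [WellFoundedLT X] (B : ZFSet.{0}) : Set X := {x | oz x ∈ B}

theorem mem_enc {A : Set X} {z : ZFSet.{0}} : z ∈ enc A ↔ ∃ x ∈ A, z = oz x := by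
  rw [enc, ZFSet.mem_sep]
  exact ⟨fun h => h.2, fun h => ⟨by obtain ⟨x, -, rfl⟩ := h; exact oz_mem x, h⟩⟩

theorem oz_mem_enc {A : Set X} {x : X} : oz x ∈ enc A ↔ x ∈ A := by
  rw [mem_enc]
  exact ⟨fun ⟨y, hy, e⟩ => oz_inj e ▸ hy, fun h => ⟨x, h, rfl⟩⟩

theorem enc_subset (A : Set X) : enc A ⊆ KZ X := fun _ hz => (ZFSet.mem_sep.1 hz).1

@[simp] theorem dec_enc (A : Set X) : dec X (enc A) = A := by
  ext x; exact oz_mem_enc

theorem enc_dec {B : ZFSet.{0}} (hB : B ⊆ KZ X) : enc (dec X B) = B := by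
  ext z
  rw [mem_enc]
  constructor
  · rintro ⟨x, hx, rfl⟩; exact hx
  · intro hz
    obtain ⟨x, rfl⟩ := mem_KZ.1 (hB hz)
    exact ⟨x, hz, rfl⟩

theorem dec_oz (y : X) : dec X (oz y) = Iio y := by
  ext x; exact oz_mem_iff

theorem nat_eq (n : ℕ) : CohenE.nat n = (n : Ordinal.{0}).toZFSet := by
  induction n with
  | zero => simp [CohenE.nat]
  | succ n ih => rw [CohenE.nat, ih, Nat.cast_succ, Ordinal.toZFSet_add_one]

theorem omega_eq : ZFSet.omega = Ordinal.omega0.{0}.toZFSet := by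
  ext z
  rw [Pool.Agent.H30Z.Forc.mem_omega, Ordinal.mem_toZFSet_iff]
  constructor
  · rintro ⟨n, rfl⟩
    exact ⟨n, Ordinal.natCast_lt_omega0 n, (nat_eq n).symm⟩
  · rintro ⟨a, ha, rfl⟩
    obtain ⟨n, rfl⟩ := Ordinal.lt_omega0.1 ha
    exact ⟨n, (nat_eq n).symm⟩

theorem nat_mem_nat {m n : ℕ} : CohenE.nat m ∈ CohenE.nat n ↔ m < n := by
  simp [nat_eq, Ordinal.toZFSet_mem_toZFSet_iff]

theorem nat_inj : Function.Injective CohenE.nat := fun m n h => by
  rw [nat_eq, nat_eq] at h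
  exact_mod_cast Ordinal.toZFSet_injective h

theorem nat_mem_omega (n : ℕ) : CohenE.nat n ∈ ZFSet.omega :=
  Pool.Agent.H30Z.Forc.mem_omega.2 ⟨n, rfl⟩

theorem mem_nat {z : ZFSet.{0}} {n : ℕ} : z ∈ CohenE.nat n ↔ ∃ m < n, z = CohenE.nat m := by
  constructor
  · intro h
    have h1 : ZFSet.omega.IsOrdinal := by rw [omega_eq]; exact isOrdinal_toZFSet _
    obtain ⟨m, rfl⟩ := Pool.Agent.H30Z.Forc.mem_omega.1 (h1.mem_trans h (nat_mem_omega n))
    exact ⟨m, nat_mem_nat.1 h, rfl⟩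
  · rintro ⟨m, hm, rfl⟩
    exact nat_mem_nat.2 hm

theorem omega_mem_KZ (h : ℵ₀ < #X) : ZFSet.omega ∈ KZ X := by
  rw [omega_eq, KZ, Ordinal.toZFSet_mem_toZFSet_iff]
  by_contra hcon
  have := Ordinal.card_le_card (not_lt.1 hcon)
  rw [Ordinal.card_type, Ordinal.card_omega0] at this
  exact absurd h (not_lt.2 this)

/-- the graph of a function on a set -/
theorem exists_graph (a b : ZFSet.{0}) (G : ZFSet.{0} → ZFSet.{0}) (h : ∀ x ∈ a, G x ∈ b) :
    ∃ f, IsFunc a b f ∧ ∀ x y, pair x y ∈ f ↔ x ∈ a ∧ y = G x := by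
  have key : ∀ x y, pair x y ∈ ZFSet.sep (fun z => ∃ x, z = pair x (G x)) (prod a b) ↔
      x ∈ a ∧ y = G x := by
    intro x y
    rw [ZFSet.mem_sep, pair_mem_prod]
    constructor
    · rintro ⟨⟨h1, -⟩, x', h2⟩
      rw [pair_inj] at h2
      exact ⟨h1, by rw [h2.2, h2.1]⟩
    · rintro ⟨h1, rfl⟩
      exact ⟨⟨h1, h x h1⟩, x, rfl⟩
  refine ⟨_, ⟨fun z hz => (ZFSet.mem_sep.1 hz).1, fun x hx => ⟨G x, (key _ _).2 ⟨hx, rfl⟩,
    fun y hy => ((key _ _).1 hy).2⟩⟩, key⟩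

theorem regUnc_univ (h : Cpl X U) : RegUnc univ (KZ X) := by
  refine ⟨trivial, KZ_ord, omega_mem_KZ h.unc, fun α hα f _ hf => ?_⟩
  obtain ⟨a, rfl⟩ := mem_KZ.1 hα
  have h1 : ∀ x : Iio a, ∃ y : X, pair (oz x.1) (oz y) ∈ f := by
    intro x
    obtain ⟨w, hw, -⟩ := hf.2 _ (oz_mem_iff.2 x.2)
    obtain ⟨y, rfl⟩ := mem_KZ.1 (pair_mem_prod.1 (hf.1 hw)).2
    exact ⟨y, hw⟩
  choose g hg using h1
  obtain ⟨b, hb⟩ := h.bdd (s := range g) (mk_range_le.trans_lt (h.iio a))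
  refine ⟨oz b, oz_mem b, fun ξ hξ y hy => ?_⟩
  obtain ⟨x, hx, rfl⟩ := mem_oz.1 hξ
  rw [(hf.2 _ hξ).unique hy (hg ⟨x, hx⟩)]
  exact oz_mem_iff.2 (hb _ ⟨_, rfl⟩)

end Pool.Agent.H3Z
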