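import Pool.Agent.H3Z.Hull
import Pool.Agent.H3Z.Meas

/-! Definability of the game notions, distributive forcing, and transfer. -/

set_option linter.unusedSectionVars false
set_option linter.unusedVariables false

namespace Pool.Agent.H3Z

open CohenE ZFSet Pool.Agent.H30Z.Forc

theorem mem_Restr {a η z : ZFSet.{0}} : z ∈ Restr a η ↔
    z ∈ a ∧ ((∃ A, z = pair η A) ∨ ∃ ζ ∈ η, ∃ A, z = pair ζ A) := ZFSet.mem_sep

theorem mem_Cur {κ S a ξ x : ZFSet.{0}} : x ∈ Cur κ S a ξ ↔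
    x ∈ κ ∧ ∀ η ∈ ξ, ((∃ A, pair η A ∈ a ∧ x ∈ A) ↔ Restr a η ∈ S) := ZFSet.mem_sep

theorem Cur_subset (κ S a ξ : ZFSet.{0}) : Cur κ S a ξ ⊆ κ := fun _ h => (mem_Cur.1 h).1

instance RDc.memRestr (k i j : ℕ) : RDc fun _ v => v k ∈ Restr (v i) (v j) :=
  RDc.of (Q := fun _ v => v k ∈ v i ∧ ((∃ A, v k = pair (v j) A) ∨
    ∃ ζ ∈ v j, ∃ A, v k = pair ζ A)) fun _ _ _ _ => mem_Restr.symm

instance RDc.eqRestr (k i j : ℕ) : RDc fun _ v => v k = Restr (v i) (v j) :=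
  RDc.of (Q := fun _ v => (∀ z ∈ v k, z ∈ Restr (v i) (v j)) ∧
    ∀ z ∈ v i, z ∈ Restr (v i) (v j) → z ∈ v k) fun _ _ v _ => by
    constructor
    · rintro ⟨h1, h2⟩
      ext z
      exact ⟨h1 z, fun h => h2 z (mem_Restr.1 h).1 h⟩
    · intro h
      rw [h]
      exact ⟨fun _ h => h, fun _ _ h => h⟩

instance RDc.restrMem (i j k : ℕ) : RDc fun _ v => Restr (v i) (v j) ∈ v k :=
  RDc.of (Q := fun _ v => ∃ r ∈ v k, r = Restr (v i) (v j)) fun _ _ v _ =>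
    ⟨fun ⟨_, h1, h2⟩ => h2 ▸ h1, fun h => ⟨_, h, rfl⟩⟩

instance RDc.memCur (x k s a e : ℕ) : RDc fun _ v => v x ∈ Cur (v k) (v s) (v a) (v e) :=
  RDc.of (Q := fun _ v => v x ∈ v k ∧ ∀ η ∈ v e,
    ((∃ A, pair η A ∈ v a ∧ v x ∈ A) ↔ Restr (v a) η ∈ v s)) fun _ _ _ _ => mem_Cur.symm

instance RDc.subCur (x k s a e : ℕ) : RDc fun _ v => v x ⊆ Cur (v k) (v s) (v a) (v e) :=
  RDc.of (Q := fun _ v => ∀ z ∈ v x, z ∈ Cur (v k) (v s) (v a) (v e)) fun _ _ _ _ => Iff.rfl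

instance RDc.eqCur (x k s a e : ℕ) : RDc fun _ v => v x = Cur (v k) (v s) (v a) (v e) :=
  RDc.of (Q := fun _ v => v x ⊆ Cur (v k) (v s) (v a) (v e) ∧
    ∀ z ∈ v k, z ∈ Cur (v k) (v s) (v a) (v e) → z ∈ v x) fun _ _ v _ => by
    constructor
    · rintro ⟨h1, h2⟩
      ext z
      exact ⟨fun h => h1 h, fun h => h2 z (mem_Cur.1 h).1 h⟩
    · intro h
      rw [h]
      exact ⟨fun _ h => h, fun _ _ h => h⟩

instance RDc.curMem (k s a e i : ℕ) : RDc fun _ v => Cur (v k) (v s) (v a) (v e) ∈ v i :=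
  RDc.of (Q := fun _ v => ∃ r ∈ v i, r = Cur (v k) (v s) (v a) (v e)) fun _ _ v _ =>
    ⟨fun ⟨_, h1, h2⟩ => h2 ▸ h1, fun h => ⟨_, h, rfl⟩⟩

instance RDc.curNotMem (k s a e i : ℕ) : RDc fun _ v => Cur (v k) (v s) (v a) (v e) ∉ v i :=
  ⟨(RDc.curMem k s a e i).out.not⟩

instance RDc.isFuncPow (i j k : ℕ) : RDc fun _ v => IsFunc (v i) (powerset (v j)) (v k) :=
  RDc.of (Q := fun M v => (∀ z ∈ v k, ∃ a ∈ v i, ∃ b ∈ M, b ⊆ v j ∧ z = pair a b) ∧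
      ∀ a ∈ v i, ∃ y, pair a y ∈ v k ∧ ∀ y', pair a y' ∈ v k → y' = y) fun M hM v hv => by
    unfold IsFunc
    refine and_congr ?_ Iff.rfl
    constructor
    · intro h z hz
      obtain ⟨a, ha, b, -, hb, rfl⟩ := h z hz
      exact pair_mem_prod.2 ⟨ha, mem_powerset.2 hb⟩
    · intro h z hz
      obtain ⟨a, ha, b, hb, rfl⟩ := mem_prod.1 (h hz)
      exact ⟨a, ha, b, pair_right_mem hM (hM _ (hv k) _ hz), mem_powerset.1 hb, rfl⟩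

instance RDc.isRun (k g s a : ℕ) : RDc fun _ v => IsRun (v k) (v g) (v s) (v a) := by
  unfold IsRun
  infer_instance

instance RDc.isPFun (k : ℕ) : RDc fun _ v => IsPFun (v k) :=
  RDc.of (Q := fun M v => ∀ x ∈ M, ∀ y, pair x y ∈ v k → ∀ y', pair x y' ∈ v k → y = y')
    fun M hM v hv => ⟨fun h x y y' h1 h2 => h x (pair_left_mem hM (hM _ (hv k) _ h1)) y h1 y' h2,
      fun h x _ y h1 y' h2 => h x y y' h1 h2⟩

theorem isFunc_pfun {a b f : ZFSet.{0}} (h : IsFunc a b f) : IsPFun f := fun x y y' h1 h2 =>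
  (h.2 x (pair_mem_prod.1 (h.1 h1)).1).unique h1 h2

theorem restr_mem {M : Set ZFSet.{0}} (hM : CTM M) {a η : ZFSet.{0}} (ha : a ∈ M) (hη : η ∈ M) :
    Restr a η ∈ M := by
  obtain ⟨c, hc, h⟩ := sep2 hM (fun _ z a η => z ∈ Restr a η) ha ha hη
  have : c = Restr a η := by
    ext z; rw [h]; exact ⟨fun h => h.2, fun h => ⟨(mem_Restr.1 h).1, h⟩⟩
  exact this ▸ hc

theorem cur_mem {M : Set ZFSet.{0}} (hM : CTM M) {κ S a ξ : ZFSet.{0}} (hκ : κ ∈ M) (hS : S ∈ M)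
    (ha : a ∈ M) (hξ : ξ ∈ M) : Cur κ S a ξ ∈ M := by
  obtain ⟨c, hc, h⟩ := sep4 hM (fun _ z κ S a ξ => z ∈ Cur κ S a ξ) hκ hκ hS ha hξ
  have : c = Cur κ S a ξ := by
    ext z; rw [h]; exact ⟨fun h => h.2, fun h => ⟨(mem_Cur.1 h).1, h⟩⟩
  exact this ▸ hc

theorem Cur_congr {κ S S' a ξ : ZFSet.{0}} (h : ∀ η ∈ ξ, Restr a η ∈ S ↔ Restr a η ∈ S') :
    Cur κ S a ξ = Cur κ S' a ξ := by
  ext x
  simp only [mem_Cur]
  exact and_congr Iff.rfl (forall₂_congr fun η hη => by rw [h η hη])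

theorem IsRun.congr {κ γ S S' a : ZFSet.{0}} (hγ : γ.IsOrdinal)
    (h : ∀ η ∈ γ, Restr a η ∈ S ↔ Restr a η ∈ S') (hr : IsRun κ γ S a) : IsRun κ γ S' a :=
  ⟨hr.1, fun η hη A hA => by
    rw [← Cur_congr (S := S) fun ζ hζ => h ζ (hγ.mem_trans hζ hη)]
    exact hr.2 η hη A hA⟩

theorem omega_ord : ZFSet.omega.{0}.IsOrdinal := by
  rw [omega_eq]; exact isOrdinal_toZFSet _

variable {P : Type} [Preorder P] [OrderTop P] {N : Set (Nm P)} {G : Set P}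

/-- as many dense open sets as there are elements of `K` have dense intersection -/
def Distr (P : Type) [Preorder P] (K : ZFSet.{0}) : Prop :=
  ∀ D : ZFSet.{0} → Set P, (∀ x p q, p ∈ D x → q ≤ p → q ∈ D x) →
    (∀ x ∈ K, ∀ p, ∃ q, q ≤ p ∧ q ∈ D x) → ∀ p, ∃ q, q ≤ p ∧ ∀ x ∈ K, q ∈ D x

/-- no new partial functions on `K` -/
def NoNew (N : Set (Nm P)) (G : Set P) (K : ZFSet.{0}) : Prop :=
  ∀ c ∈ Gnd N, ∀ a ∈ Ext N G, a ⊆ prod K c → IsPFun a → a ∈ Gnd N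

def rNew (K : ZFSet.{0}) (l : List (Nm P)) (y : ZFSet.{0}) (q : P) : Prop :=
  y = ZFSet.sep (fun z => FMem (ck P z) (lv l 0) q) (uck (lv l 1)) ∧
  ∀ x ∈ K, (∃ w, pair x w ∈ y) ∨
    ∀ r, r ≤ q → ∀ w, pair x w ∈ uck (lv l 1) → ¬ FMem (ck P (pair x w)) (lv l 0) r

theorem Setup.noNew (h : Setup N G) {K : ZFSet.{0}} (hK : K ∈ Hl N) (hd : Distr P K)
    (hm : Meets N G (ReqW (rNew K))) : NoNew N G (pz N K) := by
  rintro c hc _ ⟨τ, hτ, rfl⟩ hsub hpf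
  obtain ⟨c0, hc0, hc1⟩ := h.exists_hl (prod_mem h.ctmV (h.pz_memV hK) hc)
  obtain ⟨q, hq, y, hy, rfl, h2⟩ := meets_dense hm (fun l p => by
    obtain ⟨q, hq, h1⟩ := hd (fun x => {q | (∃ w, pair x w ∈ uck (lv l 1) ∧
        FMem (ck P (pair x w)) (lv l 0) q) ∨
      ∀ r, r ≤ q → ∀ w, pair x w ∈ uck (lv l 1) → ¬ FMem (ck P (pair x w)) (lv l 0) r})
      (by
        rintro x p q (⟨w, h1, h2⟩ | h1) hq
        · exact Or.inl ⟨w, h1, h2.mono hq⟩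
        · exact Or.inr fun r hr => h1 r (hr.trans hq))
      (fun x _ p => by
        by_cases hh : ∀ r, r ≤ p → ∀ w, pair x w ∈ uck (lv l 1) →
            ¬ FMem (ck P (pair x w)) (lv l 0) r
        · exact ⟨p, le_rfl, Or.inr hh⟩
        · simp only [not_forall, not_not] at hh
          obtain ⟨r, hr, w, h1, h2⟩ := hh
          exact ⟨r, hr, Or.inl ⟨w, h1, h2⟩⟩) p
    refine ⟨q, hq, _, rfl, fun x hx => (h1 x hx).imp ?_ id⟩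
    rintro ⟨w, h2, h3⟩
    exact ⟨w, ZFSet.mem_sep.2 ⟨h2, h3⟩⟩) [τ, ck P c0] (by simp [hτ]; exact hc0)
  simp only [lv, List.getD_cons_zero, List.getD_cons_succ, uck_ck] at hy h2
  have hin : ∀ z ∈ Hl N, z ∈ ZFSet.sep (fun z => FMem (ck P z) τ q) c0 → pz N z ∈ val N G τ :=
    fun z hz hz' => (h.mem_val_iff hz hτ).2 ⟨q, hq, (ZFSet.mem_sep.1 hz').2⟩
  have : val N G τ = pz N (ZFSet.sep (fun z => FMem (ck P z) τ q) c0) := by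
    ext u
    constructor
    · intro hu
      obtain ⟨x, hx, w, hw, rfl⟩ := mem_prod.1 (hsub hu)
      obtain ⟨x0, hx0, hx1, rfl⟩ := h.mem_pz hK hx
      obtain ⟨w0, hw0, rfl⟩ := h.exists_hl (h.trV _ hc _ hw)
      have hp := h.pair_hl hx0 hw0
      have hc2 : pair x0 w0 ∈ c0 := by
        rw [← h.pz_app hx0 hw0 hc0, ← hc1]; exact hsub hu
      rw [← h.pz_pair hx0 hw0] at hu
      obtain ⟨p, hp', hf⟩ := (h.mem_val_iff hp hτ).1 hu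
      rcases h2 x0 hx1 with h3 | h3
      · obtain ⟨w1, hw1, h4⟩ := h.tv2 (fun _ x y w => pair x w ∈ y) hx0 hy h3
        have h5 := hin _ (h.pair_hl hx0 hw1) h4
        rw [h.pz_pair hx0 hw1] at h5
        rw [h.pz_pair hx0 hw0] at hu
        rw [hpf _ _ _ hu h5]
        exact (h.pz_app hx0 hw1 hy).2 h4
      · obtain ⟨r, -, a, b⟩ := h.filt.dir p hp' q hq
        exact absurd (hf.mono a) (h3 r b w0 hc2)
    · intro hu
      obtain ⟨z, hz, hz', rfl⟩ := h.mem_pz hy hu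
      exact hin z hz hz'
  rw [this]
  exact h.pz_memV hy

namespace NoNew
variable (h : Setup N G) {K : ZFSet.{0}} (hn : NoNew N G K)
include h hn

theorem func {α c f : ZFSet.{0}} (hα : α ⊆ K) (hc : c ∈ Gnd N) (hf : f ∈ Ext N G)
    (hfun : IsFunc α c f) : f ∈ Gnd N :=
  hn c hc f hf (fun z hz => by
    obtain ⟨a, ha, b, hb, rfl⟩ := mem_prod.1 (hfun.1 hz)
    exact pair_mem_prod.2 ⟨hα ha, hb⟩) (isFunc_pfun hfun)

theorem sub (hK : K ∈ Gnd N) {B : ZFSet.{0}} (hB : B ∈ Ext N G) (hsub : B ⊆ K) : B ∈ Gnd N := by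
  obtain ⟨r, hr, h1, h2⟩ := rel2 h.ctmW (fun _ x y _ _ => x = y) hB hB hB hB
  have h3 := hn K hK r hr (fun z hz => by
    obtain ⟨a, ha, b, hb, rfl⟩ := mem_prod.1 (h1 hz)
    exact pair_mem_prod.2 ⟨hsub ha, hsub hb⟩) (fun x y y' a b => by
      rw [← ((h2 _ _).1 a).2.2, ← ((h2 _ _).1 b).2.2])
  obtain ⟨c, hc, h4⟩ := sep1 h.ctmV (fun _ z r => pair z z ∈ r) hK h3
  have : c = B := by
    ext z
    rw [h4, h2]
    exact ⟨fun h => h.2.1, fun h => ⟨hsub h, h, h, rfl⟩⟩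
  exact this ▸ hc

theorem funcPow (hK : K ∈ Gnd N) {α f : ZFSet.{0}} (hα : α ⊆ K) (hf : f ∈ Ext N G)
    (hfun : IsFunc α (powerset K) f) : f ∈ Gnd N := by
  obtain ⟨c, hc, h1⟩ := h.ctmV.power K hK
  refine hn.func h hα hc hf ⟨fun z hz => ?_, hfun.2⟩
  obtain ⟨a, ha, b, hb, rfl⟩ := mem_prod.1 (hfun.1 hz)
  have hb' := mem_powerset.1 hb
  exact pair_mem_prod.2 ⟨ha, (h1 b (hn.sub h hK
    (pair_right_mem h.trW (h.trW _ hf _ hz)) hb')).2 hb'⟩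

end NoNew

namespace Setup
variable (h : Setup N G)
include h

theorem pz_ord {K : ZFSet.{0}} (hK : K ∈ Hl N) (h0 : K.IsOrdinal) : (pz N K).IsOrdinal :=
  (h.tr1 (fun _ a => a.IsOrdinal) hK).2 h0

theorem regUnc_gnd {K : ZFSet.{0}} (hK : K ∈ Hl N) (h0 : RegUnc Set.univ K) :
    RegUnc (Gnd N) (pz N K) := by
  refine ⟨h.pz_memV hK, h.pz_ord hK h0.2.1, ?_, ?_⟩
  · rw [← h.pz_omega]; exact (h.pz_mem_iff h.omega_hl hK).2 h0.2.2.1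
  · exact (h.tr1 (fun M κ => ∀ α ∈ κ, ∀ f ∈ M, IsFunc α κ f →
      ∃ β ∈ κ, ∀ ξ ∈ α, ∀ y, pair ξ y ∈ f → y ∈ β) hK).2 h0.2.2.2

theorem regUnc_ext {K : ZFSet.{0}} (hn : NoNew N G K) (h0 : RegUnc (Gnd N) K) :
    RegUnc (Ext N G) K :=
  ⟨h.toPair.subset h0.1, h0.2.1, h0.2.2.1, fun α hα f hf hfun =>
    h0.2.2.2 α hα f (hn.func h (h0.2.1.subset_of_mem hα) h0.1 hf hfun) hfun⟩

theorem isIdeal_gnd {K I : ZFSet.{0}} (hK : K ∈ Hl N) (hI : I ∈ Hl N)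
    (h0 : IsIdeal Set.univ K I) : IsIdeal (Gnd N) (pz N K) (pz N I) :=
  ⟨h.pz_memV hI, (h.tr2 (fun M κ I => (∀ A ∈ I, A ⊆ κ) ∧ κ ∉ I ∧
    (∀ A ∈ I, ∀ B ∈ M, B ⊆ A → B ∈ I) ∧ (∀ β ∈ κ, β ∈ I) ∧
    ∀ α ∈ κ, ∀ f ∈ M, IsFunc α I f → ∀ B ∈ M,
      (∀ x ∈ B, ∃ ξ ∈ α, ∃ A, pair ξ A ∈ f ∧ x ∈ A) → B ∈ I) hK hI).2 h0.2⟩

theorem isIdeal_ext {K I : ZFSet.{0}} (hn : NoNew N G K) (hK : RegUnc (Gnd N) K)
    (h0 : IsIdeal (Gnd N) K I) : IsIdeal (Ext N G) K I := by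
  obtain ⟨h1, h2, h3, h4, h5, h6⟩ := h0
  refine ⟨h.toPair.subset h1, h2, h3, fun A hA B hB hBA => h4 A hA B
    (hn.sub h hK.1 hB (hBA.trans (h2 A hA))) hBA, h5, fun α hα f hf hfun B hB hcov => ?_⟩
  refine h6 α hα f (hn.func h (hK.2.1.subset_of_mem hα) h1 hf hfun) hfun B
    (hn.sub h hK.1 hB fun x hx => ?_) hcov
  obtain ⟨ξ, -, A, hA, hx'⟩ := hcov x hx
  exact h2 A (pair_mem_prod.1 (hfun.1 hA)).2 hx'

theorem winsIdeal_gnd {K I : ZFSet.{0}} (hK : K ∈ Hl N) (hI : I ∈ Hl N)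
    (h0 : WinsIdeal Set.univ K I omega) : WinsIdeal (Gnd N) (pz N K) (pz N I) omega := by
  have := (h.tr3 (fun M κ I γ => ∃ S ∈ M, ∀ a ∈ M, IsRun κ γ S a → Cur κ S a γ ∉ I)
    hK hI h.omega_hl).2 h0
  rwa [h.pz_omega] at this

theorem winsIdeal_ext {K I : ZFSet.{0}} (hn : NoNew N G K) (hK : RegUnc (Gnd N) K)
    (h0 : WinsIdeal (Gnd N) K I omega) : WinsIdeal (Ext N G) K I omega := by
  obtain ⟨S, hS, h1⟩ := h0
  exact ⟨S, h.toPair.subset hS, fun a ha hr =>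
    h1 a (hn.funcPow h hK.1 (hK.2.1.subset_of_mem hK.2.2.1) ha hr.1) hr⟩

end Setup

end Pool.Agent.H3Z
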