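import Pool.Agent.H3Z.RDc

/-! The countable hull of the universe behind the ground model, and witness requirements. -/

set_option linter.unusedSectionVars false

namespace Pool.Agent.H3Z

open CohenE ZFSet Pool.Agent.H30Z.Forc

variable {P : Type} [Preorder P] [OrderTop P] {N : Set (Nm P)} {G : Set P}

/-- check name of a set -/
noncomputable def ck (P : Type) [Preorder P] [OrderTop P] (z : ZFSet.{0}) : Nm P := io P (chk z)

/-- the set named by a check name -/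
noncomputable def uck (τ : Nm P) : ZFSet.{0} := toZF (fg τ)

@[simp] theorem uck_ck (z : ZFSet.{0}) : uck (ck P z) = z := by
  simp [uck, ck, fg_io, toZF_chk]

theorem ck_inj : Function.Injective (ck P) := fun a b h => by
  rw [← uck_ck (P := P) a, h, uck_ck]

/-- the hull -/
def Hl (N : Set (Nm P)) : Set ZFSet.{0} := {z | ck P z ∈ N}

/-- the collapse -/
noncomputable def pz (N : Set (Nm P)) (z : ZFSet.{0}) : ZFSet.{0} := pi N (chk z)

structure Setup (N : Set (Nm P)) (G : Set P) : Prop extends Pair N G where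
  norm : ∀ τ ∈ N, ck P (uck τ) ∈ N

theorem exists_setup (𝓡 : Set (Req P)) (hc : 𝓡.Countable) (hR : ∀ R ∈ 𝓡, R.Dense) :
    ∃ (N : Set (Nm P)) (G : Set P), Setup N G ∧ ∀ R ∈ 𝓡, Meets N G R := by
  let R0 : Req P := clos fun l => ck P (uck (lv l 0))
  obtain ⟨N, G, h1, h2⟩ := exists_pair (insert R0 𝓡) (hc.insert _) (by
    rintro R (rfl | h)
    · exact clos_dense _
    · exact hR R h)
  exact ⟨N, G, ⟨h1, fun τ hτ => (h2 R0 (Or.inl rfl)).clos [τ] (by simpa using hτ)⟩,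
    fun R h => h2 R (Or.inr h)⟩

theorem exists_setup_list (l : List (Req P)) (hR : ∀ R ∈ l, R.Dense) :
    ∃ (N : Set (Nm P)) (G : Set P), Setup N G ∧ ∀ R ∈ l, Meets N G R :=
  exists_setup {R | R ∈ l} (List.finite_toSet l).countable hR

namespace Setup

variable (h : Setup N G)
include h

theorem filt : IsFilt G := h.core.filt

theorem ctmW : CTM (Ext N G) := h.toPair.ctm_ext

theorem ctmV : CTM (Gnd N) := h.toPair.ctm_gnd

theorem trW : Tr (Ext N G) := h.ctmW.trans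

theorem trV : Tr (Gnd N) := h.ctmV.trans

theorem val_ck (z : ZFSet.{0}) : val N G (ck P z) = pz N z := val_io h.filt _

theorem pz_memV {z : ZFSet.{0}} (hz : z ∈ Hl N) : pz N z ∈ Gnd N := ⟨_, hz, rfl⟩

theorem pz_memW {z : ZFSet.{0}} (hz : z ∈ Hl N) : pz N z ∈ Ext N G :=
  h.toPair.subset (h.pz_memV hz)

theorem val_memW {τ : Nm P} (hτ : τ ∈ N) : val N G τ ∈ Ext N G := ⟨τ, hτ, rfl⟩

theorem exists_hl {x : ZFSet.{0}} (hx : x ∈ Gnd N) : ∃ z ∈ Hl N, x = pz N z := by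
  obtain ⟨σ, hσ, rfl⟩ := hx
  have h1 : toZF σ ∈ Hl N := by
    have := h.norm _ hσ
    simp only [uck, fg_io] at this
    exact this
  refine ⟨toZF σ, h1, ?_⟩
  exact (h.toPair.pi_eq_iff hσ h1).2 (toZF_chk _).symm

theorem tr (Q : Pred) [hQ : RDc Q] {v : ℕ → ZFSet.{0}} (hv : ∀ i, v i ∈ Hl N) :
    Q (Gnd N) (fun i => pz N (v i)) ↔ Q Set.univ v := by
  have := h.toPair.transfer hQ.out (v := fun i => chk (v i)) hv
  simp only [toZF_chk] at this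
  exact this

theorem tr1 (Q : Set ZFSet.{0} → ZFSet.{0} → Prop) [RDc fun M v => Q M (v 0)] {a : ZFSet.{0}}
    (ha : a ∈ Hl N) : Q (Gnd N) (pz N a) ↔ Q Set.univ a :=
  h.tr (fun M v => Q M (v 0)) (v := fun _ => a) fun _ => ha

theorem tr2 (Q : Set ZFSet.{0} → ZFSet.{0} → ZFSet.{0} → Prop) [RDc fun M v => Q M (v 0) (v 1)]
    {a b : ZFSet.{0}} (ha : a ∈ Hl N) (hb : b ∈ Hl N) :
    Q (Gnd N) (pz N a) (pz N b) ↔ Q Set.univ a b :=
  h.tr (fun M v => Q M (v 0) (v 1)) (v := scons a fun _ => b) fun i => by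
    rcases i with _ | i <;> assumption

theorem tr3 (Q : Set ZFSet.{0} → ZFSet.{0} → ZFSet.{0} → ZFSet.{0} → Prop)
    [RDc fun M v => Q M (v 0) (v 1) (v 2)]
    {a b c : ZFSet.{0}} (ha : a ∈ Hl N) (hb : b ∈ Hl N) (hc : c ∈ Hl N) :
    Q (Gnd N) (pz N a) (pz N b) (pz N c) ↔ Q Set.univ a b c :=
  h.tr (fun M v => Q M (v 0) (v 1) (v 2)) (v := scons a (scons b fun _ => c)) fun i => by
    rcases i with _ | _ | i <;> assumption

theorem tr4 (Q : Set ZFSet.{0} → ZFSet.{0} → ZFSet.{0} → ZFSet.{0} → ZFSet.{0} → Prop)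
    [RDc fun M v => Q M (v 0) (v 1) (v 2) (v 3)]
    {a b c d : ZFSet.{0}} (ha : a ∈ Hl N) (hb : b ∈ Hl N) (hc : c ∈ Hl N) (hd : d ∈ Hl N) :
    Q (Gnd N) (pz N a) (pz N b) (pz N c) (pz N d) ↔ Q Set.univ a b c d :=
  h.tr (fun M v => Q M (v 0) (v 1) (v 2) (v 3)) (v := scons a (scons b (scons c fun _ => d)))
    fun i => by rcases i with _ | _ | _ | i <;> assumption

theorem tr5 (Q : Set ZFSet.{0} → ZFSet.{0} → ZFSet.{0} → ZFSet.{0} → ZFSet.{0} → ZFSet.{0} → Prop)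
    [RDc fun M v => Q M (v 0) (v 1) (v 2) (v 3) (v 4)]
    {a b c d e : ZFSet.{0}} (ha : a ∈ Hl N) (hb : b ∈ Hl N) (hc : c ∈ Hl N) (hd : d ∈ Hl N)
    (he : e ∈ Hl N) :
    Q (Gnd N) (pz N a) (pz N b) (pz N c) (pz N d) (pz N e) ↔ Q Set.univ a b c d e :=
  h.tr (fun M v => Q M (v 0) (v 1) (v 2) (v 3) (v 4))
    (v := scons a (scons b (scons c (scons d fun _ => e))))
    fun i => by rcases i with _ | _ | _ | _ | i <;> assumption

theorem pz_mem_iff {a b : ZFSet.{0}} (ha : a ∈ Hl N) (hb : b ∈ Hl N) :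
    pz N a ∈ pz N b ↔ a ∈ b := h.tr2 (fun _ a b => a ∈ b) ha hb

theorem pz_inj {a b : ZFSet.{0}} (ha : a ∈ Hl N) (hb : b ∈ Hl N) :
    pz N a = pz N b ↔ a = b := h.tr2 (fun _ a b => a = b) ha hb

theorem pz_subset_iff {a b : ZFSet.{0}} (ha : a ∈ Hl N) (hb : b ∈ Hl N) :
    pz N a ⊆ pz N b ↔ a ⊆ b := h.tr2 (fun _ a b => a ⊆ b) ha hb

theorem pz_app {a b c : ZFSet.{0}} (ha : a ∈ Hl N) (hb : b ∈ Hl N) (hc : c ∈ Hl N) :
    pair (pz N a) (pz N b) ∈ pz N c ↔ pair a b ∈ c := h.tr3 (fun _ a b c => pair a b ∈ c) ha hb hc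

theorem mem_pz {x z : ZFSet.{0}} (hz : z ∈ Hl N) (hx : x ∈ pz N z) :
    ∃ y ∈ Hl N, y ∈ z ∧ x = pz N y := by
  obtain ⟨y, hy, rfl⟩ := h.exists_hl (h.trV _ (h.pz_memV hz) x hx)
  exact ⟨y, hy, (h.pz_mem_iff hy hz).1 hx, rfl⟩

/-- Tarski-Vaught. -/
theorem tv (Q : Pred1) [RDc fun M w => Q M (fun i => w (i + 1)) (w 0)] {v : ℕ → ZFSet.{0}}
    (hv : ∀ i, v i ∈ Hl N) (hex : ∃ y, Q Set.univ v y) : ∃ y ∈ Hl N, Q Set.univ v y := by
  obtain ⟨y, hy⟩ := hex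
  obtain ⟨x, hx, h1⟩ := (h.tr (fun M v => ∃ y ∈ M, Q M v y) hv).2 ⟨y, trivial, hy⟩
  obtain ⟨z, hz, rfl⟩ := h.exists_hl hx
  refine ⟨z, hz, ?_⟩
  exact (h.tr (fun M w => Q M (fun i => w (i + 1)) (w 0)) (v := scons z v) (fun i => by
    rcases i with _ | i
    · exact hz
    · exact hv i)).1 h1

theorem tv1 (Q : Set ZFSet.{0} → ZFSet.{0} → ZFSet.{0} → Prop) [RDc fun M v => Q M (v 1) (v 0)]
    {a : ZFSet.{0}} (ha : a ∈ Hl N) (hex : ∃ y, Q Set.univ a y) : ∃ y ∈ Hl N, Q Set.univ a y :=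
  h.tv (fun M v y => Q M (v 0) y) (v := fun _ => a) (fun _ => ha) hex

theorem tv2 (Q : Set ZFSet.{0} → ZFSet.{0} → ZFSet.{0} → ZFSet.{0} → Prop)
    [RDc fun M v => Q M (v 1) (v 2) (v 0)]
    {a b : ZFSet.{0}} (ha : a ∈ Hl N) (hb : b ∈ Hl N) (hex : ∃ y, Q Set.univ a b y) :
    ∃ y ∈ Hl N, Q Set.univ a b y :=
  h.tv (fun M v y => Q M (v 0) (v 1) y) (v := scons a fun _ => b)
    (fun i => by rcases i with _ | i <;> assumption) hex

theorem tv3 (Q : Set ZFSet.{0} → ZFSet.{0} → ZFSet.{0} → ZFSet.{0} → ZFSet.{0} → Prop)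
    [RDc fun M v => Q M (v 1) (v 2) (v 3) (v 0)]
    {a b c : ZFSet.{0}} (ha : a ∈ Hl N) (hb : b ∈ Hl N) (hc : c ∈ Hl N)
    (hex : ∃ y, Q Set.univ a b c y) : ∃ y ∈ Hl N, Q Set.univ a b c y :=
  h.tv (fun M v y => Q M (v 0) (v 1) (v 2) y) (v := scons a (scons b fun _ => c))
    (fun i => by rcases i with _ | _ | i <;> assumption) hex

theorem tv4 (Q : Set ZFSet.{0} → ZFSet.{0} → ZFSet.{0} → ZFSet.{0} → ZFSet.{0} → ZFSet.{0} → Prop)
    [RDc fun M v => Q M (v 1) (v 2) (v 3) (v 4) (v 0)]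
    {a b c d : ZFSet.{0}} (ha : a ∈ Hl N) (hb : b ∈ Hl N) (hc : c ∈ Hl N) (hd : d ∈ Hl N)
    (hex : ∃ y, Q Set.univ a b c d y) : ∃ y ∈ Hl N, Q Set.univ a b c d y :=
  h.tv (fun M v y => Q M (v 0) (v 1) (v 2) (v 3) y) (v := scons a (scons b (scons c fun _ => d)))
    (fun i => by rcases i with _ | _ | _ | i <;> assumption) hex

theorem pair_hl {a b : ZFSet.{0}} (ha : a ∈ Hl N) (hb : b ∈ Hl N) : pair a b ∈ Hl N := by
  obtain ⟨y, hy, rfl⟩ := h.tv2 (fun _ a b y => y = pair a b) ha hb ⟨_, rfl⟩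
  exact hy

theorem pz_pair {a b : ZFSet.{0}} (ha : a ∈ Hl N) (hb : b ∈ Hl N) :
    pz N (pair a b) = pair (pz N a) (pz N b) :=
  (h.tr3 (fun _ c a b => c = pair a b) (h.pair_hl ha hb) ha hb).2 rfl

theorem hl_of_pair {a b : ZFSet.{0}} (hab : pair a b ∈ Hl N) : a ∈ Hl N ∧ b ∈ Hl N := by
  have h1 : a ∈ Hl N := by
    obtain ⟨y, hy, z, hz⟩ := h.tv1 (fun _ c y => ∃ z, c = pair y z) hab ⟨a, b, rfl⟩
    rw [pair_inj] at hz
    rw [hz.1]; exact hy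
  obtain ⟨y, hy, hz⟩ := h.tv2 (fun _ c a y => c = pair a y) hab h1 ⟨b, rfl⟩
  rw [pair_inj] at hz
  exact ⟨h1, hz.2 ▸ hy⟩

theorem toZF_omegaN : toZF omegaN = ZFSet.omega := core_univ.val_omega

theorem omega_hl : ZFSet.omega ∈ Hl N := by
  have h1 := h.norm (io P omegaN) h.ground.omegam
  simp only [uck, fg_io] at h1
  rw [h.toZF_omegaN] at h1
  exact h1

theorem pz_omega : pz N ZFSet.omega = ZFSet.omega := by
  have h1 : pi N omegaN = ZFSet.omega := h.ground.val_omega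
  exact ((h.toPair.pi_eq_iff h.omega_hl h.ground.omegam).2
    (by rw [toZF_chk, h.toZF_omegaN])).trans h1

theorem nat_hl (n : ℕ) : nat n ∈ Hl N := by
  have h1 := h.norm (io P (natN n)) (h.ground.natm n)
  simp only [uck, fg_io] at h1
  have h2 : toZF (natN n) = nat n := core_univ.val_nat n
  rw [h2] at h1
  exact h1

theorem pz_nat (n : ℕ) : pz N (nat n) = nat n := by
  have h1 : pi N (natN n) = nat n := h.ground.val_nat n
  have h2 : toZF (natN n) = nat n := core_univ.val_nat n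
  exact ((h.toPair.pi_eq_iff (h.nat_hl n) (h.ground.natm n)).2 (by rw [toZF_chk, h2])).trans h1

theorem mem_val_iff {z : ZFSet.{0}} (hz : z ∈ Hl N) {τ : Nm P} (hτ : τ ∈ N) :
    pz N z ∈ val N G τ ↔ ∃ p ∈ G, FMem (ck P z) τ p := by
  rw [← h.val_ck]
  exact h.core.mem_iff hz hτ

end Setup

/-! ### Separation inside a model -/

section Sep
variable {M : Set ZFSet.{0}} (hM : CTM M)
include hM

theorem sep1 (Q : Set ZFSet.{0} → ZFSet.{0} → ZFSet.{0} → Prop) [hQ : RDc fun M v => Q M (v 0) (v 1)]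
    {a b : ZFSet.{0}} (ha : a ∈ M) (hb : b ∈ M) : ∃ c ∈ M, ∀ z, z ∈ c ↔ z ∈ a ∧ Q M z b :=
  sep_mem hM hQ.out (v := fun _ => b) (fun _ => hb) ha

theorem sep2 (Q : Set ZFSet.{0} → ZFSet.{0} → ZFSet.{0} → ZFSet.{0} → Prop)
    [hQ : RDc fun M v => Q M (v 0) (v 1) (v 2)]
    {a b b' : ZFSet.{0}} (ha : a ∈ M) (hb : b ∈ M) (hb' : b' ∈ M) :
    ∃ c ∈ M, ∀ z, z ∈ c ↔ z ∈ a ∧ Q M z b b' :=
  sep_mem hM hQ.out (v := scons b fun _ => b') (fun i => by rcases i with _ | i <;> assumption) ha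

theorem sep3 (Q : Set ZFSet.{0} → ZFSet.{0} → ZFSet.{0} → ZFSet.{0} → ZFSet.{0} → Prop)
    [hQ : RDc fun M v => Q M (v 0) (v 1) (v 2) (v 3)]
    {a b b' b'' : ZFSet.{0}} (ha : a ∈ M) (hb : b ∈ M) (hb' : b' ∈ M) (hb'' : b'' ∈ M) :
    ∃ c ∈ M, ∀ z, z ∈ c ↔ z ∈ a ∧ Q M z b b' b'' :=
  sep_mem hM hQ.out (v := scons b (scons b' fun _ => b''))
    (fun i => by rcases i with _ | _ | i <;> assumption) ha

theorem sep4 (Q : Set ZFSet.{0} → ZFSet.{0} → ZFSet.{0} → ZFSet.{0} → ZFSet.{0} → ZFSet.{0} → Prop)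
    [hQ : RDc fun M v => Q M (v 0) (v 1) (v 2) (v 3) (v 4)]
    {a b c d e : ZFSet.{0}} (ha : a ∈ M) (hb : b ∈ M) (hc : c ∈ M) (hd : d ∈ M) (he : e ∈ M) :
    ∃ s ∈ M, ∀ z, z ∈ s ↔ z ∈ a ∧ Q M z b c d e :=
  sep_mem hM hQ.out (v := scons b (scons c (scons d fun _ => e)))
    (fun i => by rcases i with _ | _ | _ | i <;> assumption) ha

theorem rel2 (Q : Set ZFSet.{0} → ZFSet.{0} → ZFSet.{0} → ZFSet.{0} → ZFSet.{0} → Prop)
    [hQ : RDc fun M v => Q M (v 0) (v 1) (v 2) (v 3)]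
    {a b c d : ZFSet.{0}} (ha : a ∈ M) (hb : b ∈ M) (hc : c ∈ M) (hd : d ∈ M) :
    ∃ r ∈ M, r ⊆ prod a b ∧ ∀ x y, pair x y ∈ r ↔ x ∈ a ∧ y ∈ b ∧ Q M x y c d :=
  rel_mem hM hQ.out (v := scons c fun _ => d) (fun i => by rcases i with _ | i <;> assumption) ha hb

theorem inter_mem' {a b : ZFSet.{0}} (ha : a ∈ M) (hb : b ∈ M) : a ∩ b ∈ M := by
  obtain ⟨c, hc, h⟩ := sep1 hM (fun _ z b => z ∈ b) ha hb
  have : c = a ∩ b := by ext z; rw [h, mem_inter]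
  exact this ▸ hc

theorem sdiff_mem' {a b : ZFSet.{0}} (ha : a ∈ M) (hb : b ∈ M) : a \ b ∈ M := by
  obtain ⟨c, hc, h⟩ := sep1 hM (fun _ z b => z ∉ b) ha hb
  have : c = a \ b := by ext z; rw [h, mem_sdiff]
  exact this ▸ hc

theorem union_mem' {a b : ZFSet.{0}} (ha : a ∈ M) (hb : b ∈ M) : a ∪ b ∈ M :=
  hM.union _ (hM.pairing a ha b hb)

theorem singleton_mem' {a : ZFSet.{0}} (ha : a ∈ M) : ({a} : ZFSet.{0}) ∈ M := by
  have := hM.pairing a ha a ha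
  rwa [ZFSet.pair_eq_singleton] at this

theorem pair_mem' {a b : ZFSet.{0}} (ha : a ∈ M) (hb : b ∈ M) : pair a b ∈ M :=
  hM.pairing _ (singleton_mem' hM ha) _ (hM.pairing a ha b hb)

theorem insert_mem' {a b : ZFSet.{0}} (ha : a ∈ M) (hb : b ∈ M) : insert a b ∈ M := by
  have := union_mem' hM (singleton_mem' hM ha) hb
  have e : ({a} : ZFSet.{0}) ∪ b = insert a b := by ext z; simp
  rwa [e] at this

end Sep

/-! ### Witness requirements -/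

/-- Either a ground witness is found, or none is possible. -/
def ReqW (R : List (Nm P) → ZFSet.{0} → P → Prop) : Req P := fun l q τ =>
  (∃ z, τ = ck P z ∧ R l z q) ∨ ∀ r, r ≤ q → ∀ z, ¬ R l z r

theorem reqW_dense (R : List (Nm P) → ZFSet.{0} → P → Prop) : (ReqW R).Dense := by
  intro l p
  by_cases h : ∀ r, r ≤ p → ∀ z, ¬ R l z r
  · exact ⟨p, le_rfl, emptyN, Or.inr h⟩
  · simp only [not_forall, not_not] at h
    obtain ⟨r, hr, z, hz⟩ := h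
    exact ⟨r, hr, _, Or.inl ⟨z, rfl, hz⟩⟩

theorem meets_reqW {R : List (Nm P) → ZFSet.{0} → P → Prop} (h : Meets N G (ReqW R))
    (l : List (Nm P)) (hl : ∀ x ∈ l, x ∈ N) :
    ∃ q ∈ G, (∃ z ∈ Hl N, R l z q) ∨ ∀ r, r ≤ q → ∀ z, ¬ R l z r := by
  obtain ⟨q, hq, τ, hτ, ⟨z, rfl, hz⟩ | h'⟩ := h l hl
  · exact ⟨q, hq, Or.inl ⟨z, hτ, hz⟩⟩
  · exact ⟨q, hq, Or.inr h'⟩

/-- A dense requirement with a ground witness. -/
theorem meets_dense {R : List (Nm P) → ZFSet.{0} → P → Prop} (h : Meets N G (ReqW R))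
    (hd : ∀ l p, ∃ q, q ≤ p ∧ ∃ z, R l z q)
    (l : List (Nm P)) (hl : ∀ x ∈ l, x ∈ N) : ∃ q ∈ G, ∃ z ∈ Hl N, R l z q := by
  obtain ⟨q, hq, h1 | h1⟩ := meets_reqW h l hl
  · exact ⟨q, hq, h1⟩
  · obtain ⟨r, hr, z, hz⟩ := hd l q
    exact absurd hz (h1 r hr z)

end Pool.Agent.H3Z
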