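import Pool.Agent.H3Z.Meas

/-! A distributive forcing adding ladders whose small subfamilies have disjoint tails. -/

set_option linter.unusedSectionVars false
set_option linter.unusedVariables false

namespace Pool.Agent.H3Z

open Cardinal Set

/-- transfinite dependent choice -/
theorem tdc {J Y : Type} [LinearOrder J] [WellFoundedLT J]
    (Q : (j : J) → ((i : J) → i < j → Y) → Y → Prop)
    (h : ∀ (j : J) (f : J → Y), (∀ i < j, Q i (fun k _ => f k) (f i)) →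
      ∃ y, Q j (fun k _ => f k) y) [Nonempty Y] :
    ∃ f : J → Y, ∀ j, Q j (fun k _ => f k) (f j) := by
  classical
  let F : (j : J) → ((i : J) → i < j → Y) → Y := fun j g => Classical.epsilon (Q j g)
  let s : J → Y := (wellFounded_lt (α := J)).fix F
  have hs : ∀ j, s j = F j (fun i _ => s i) := fun j => (wellFounded_lt (α := J)).fix_eq F j
  refine ⟨s, fun j => ?_⟩
  induction j using (wellFounded_lt (α := J)).induction with
  | _ j ih =>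
  rw [hs j]
  exact Classical.epsilon_spec (h j s ih)

variable {L : Type} [LinearOrder L] [WellFoundedLT L]

/-- `s` converges to `δ` from below -/
def Lad (δ : L) (s : ℕ → L × Prop) : Prop :=
  (∀ n, (s n).1 < δ) ∧ ∀ β < δ, ∃ m, ∀ n ≥ m, β < (s n).1

def Good (α : L) (c : L → ℕ → L × Prop) : Prop :=
  ∃ t : L → ℕ, ∀ δ < α, ∀ δ' < α, Lad δ (c δ) → Lad δ' (c δ') → δ ≠ δ' →
    ∀ n ≥ t δ, ∀ n' ≥ t δ', (c δ n).1 ≠ (c δ' n').1

/-- conditions -/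
def LP (L : Type) [LinearOrder L] : Type :=
  {p : L × (L → ℕ → L × Prop) // Good p.1 p.2}

instance : Preorder (LP L) where
  le q p := p.1.1 ≤ q.1.1 ∧ ∀ δ < p.1.1, q.1.2 δ = p.1.2 δ
  le_refl _ := ⟨le_rfl, fun _ _ => rfl⟩
  le_trans _ _ _ h1 h2 := ⟨h2.1.trans h1.1, fun δ hδ => (h1.2 δ (hδ.trans_le h2.1)).trans (h2.2 δ hδ)⟩

theorem LP.le_def {q p : LP L} : q ≤ p ↔ p.1.1 ≤ q.1.1 ∧ ∀ δ < p.1.1, q.1.2 δ = p.1.2 δ := Iff.rfl

noncomputable def bot0 (L : Type) [LinearOrder L] [WellFoundedLT L] [Nonempty L] : L :=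
  (wellFounded_lt (α := L)).min univ univ_nonempty

theorem bot0_le [Nonempty L] (x : L) : bot0 L ≤ x :=
  not_lt.1 ((wellFounded_lt (α := L)).not_lt_min univ (mem_univ x))

noncomputable instance [Nonempty L] : OrderTop (LP L) where
  top := ⟨(bot0 L, fun δ _ => (δ, True)), fun _ => 0, fun δ h => absurd h (not_lt.2 (bot0_le δ))⟩
  le_top p := ⟨bot0_le _, fun δ h => absurd h (not_lt.2 (bot0_le δ))⟩

theorem not_lad_const (δ : L) : ¬ Lad δ (fun _ => (δ, True)) := fun h => lt_irrefl _ (h.1 0)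

/-- lower bounds of sealed chains -/
theorem chain_lb {J : Type} [LinearOrder J] [WellFoundedLT J] (p : J → LP L)
    (hp : ∀ i j, i < j → p j ≤ p i)
    (hs : ∀ j, ∃ σ, (∀ i < j, (p i).1.1 ≤ σ) ∧
      ∀ δ < (p j).1.1, (∀ i < j, (p i).1.1 ≤ δ) → Lad δ ((p j).1.2 δ) → σ < δ)
    (α : L) (hα : ∀ j, (p j).1.1 ≤ α) :
    ∃ r : LP L, r.1.1 = α ∧ (∀ j, r ≤ p j) ∧ ∀ δ, (∀ j, (p j).1.1 ≤ δ) → ¬ Lad δ (r.1.2 δ) := by
  classical
  choose σ hσ1 hσ2 using hs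
  choose t ht using fun j => (p j).2
  let ix : ∀ δ : L, (∃ j, δ < (p j).1.1) → J := fun δ h =>
    (wellFounded_lt (α := J)).min {j | δ < (p j).1.1} h
  have hix1 : ∀ δ h, δ < (p (ix δ h)).1.1 := fun δ h =>
    (wellFounded_lt (α := J)).min_mem {j | δ < (p j).1.1} h
  have hix2 : ∀ δ h j, j < ix δ h → (p j).1.1 ≤ δ := fun δ h j hj => not_lt.1 fun h' =>
    (wellFounded_lt (α := J)).not_lt_min {j | δ < (p j).1.1} h' hj
  let c : L → ℕ → L × Prop := fun δ =>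
    if h : ∃ j, δ < (p j).1.1 then (p (ix δ h)).1.2 δ else fun _ => (δ, True)
  have hc : ∀ δ h, c δ = (p (ix δ h)).1.2 δ := fun δ h => dif_pos h
  have hc' : ∀ δ, Lad δ (c δ) → ∃ j, δ < (p j).1.1 := by
    intro δ hl
    by_contra h
    have : c δ = fun _ => (δ, True) := dif_neg h
    exact not_lad_const δ (this ▸ hl)
  have hm : ∀ δ, ∃ m, ∀ h, Lad δ (c δ) → t (ix δ h) δ ≤ m ∧ ∀ n ≥ m, σ (ix δ h) < (c δ n).1 := by
    intro δ
    by_cases hl : Lad δ (c δ)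
    · have h := hc' δ hl
      obtain ⟨m, hm⟩ := hl.2 _ (hσ2 (ix δ h) δ (hix1 δ h) (hix2 δ h) (hc δ h ▸ hl))
      exact ⟨max m (t (ix δ h) δ), fun _ _ => ⟨le_max_right _ _,
        fun n hn => hm n ((le_max_left _ _).trans hn)⟩⟩
    · exact ⟨0, fun _ h => absurd h hl⟩
  choose m hm using hm
  have key : ∀ δ δ' h h', Lad δ (c δ) → Lad δ' (c δ') → ix δ' h' < ix δ h → ∀ n ≥ m δ, ∀ n',
      (c δ n).1 ≠ (c δ' n').1 := fun δ δ' h h' hl hl' hlt n hn n' =>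
    (((hl'.1 n').trans (hix1 δ' h')).trans ((hσ1 _ _ hlt).trans_lt ((hm δ h hl).2 n hn))).ne'
  refine ⟨⟨(α, c), m, fun δ _ δ' _ hl hl' hne n hn n' hn' => ?_⟩, rfl, fun j => ⟨hα j, ?_⟩, ?_⟩
  · have h := hc' δ hl
    have h' := hc' δ' hl'
    rcases lt_trichotomy (ix δ h) (ix δ' h') with h1 | h1 | h1
    · exact (key δ' δ h' h hl' hl h1 n' hn' n).symm
    · have e1 := hc δ h
      have e2 := hc δ' h'
      have e3 := (hm δ' h' hl').1
      have e4 := hix1 δ' h'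
      rw [← h1] at e2 e3 e4
      change (c δ n).1 ≠ (c δ' n').1
      rw [e1, e2]
      exact ht (ix δ h) δ (hix1 δ h) δ' e4 (e1 ▸ hl) (e2 ▸ hl') hne n
        ((hm δ h hl).1.trans hn) n' (e3.trans hn')
    · exact key δ δ' h h' hl hl' h1 n hn n'
  · intro δ hδ
    have h : ∃ j, δ < (p j).1.1 := ⟨j, hδ⟩
    change c δ = _
    rw [hc δ h]
    rcases lt_trichotomy j (ix δ h) with h1 | h1 | h1
    · exact absurd hδ (not_lt.2 (hix2 δ h j h1))
    · rw [h1]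
    · exact ((hp _ _ h1).2 δ (hix1 δ h)).symm
  · intro δ hδ hl
    obtain ⟨j, hj⟩ := hc' δ hl
    exact absurd hj (not_lt.2 (hδ j))

/-- a ladder can be put on top -/
theorem add_lad [NoMaxOrder L] (p : LP L) (s : ℕ → L × Prop) (hs : Lad p.1.1 s) :
    ∃ q : LP L, q ≤ p ∧ p.1.1 < q.1.1 ∧ q.1.2 p.1.1 = s := by
  classical
  obtain ⟨t, ht⟩ := p.2
  let α := (wellFounded_lt (α := L)).min (Ioi p.1.1) (exists_gt _)
  have hα1 : p.1.1 < α := (wellFounded_lt (α := L)).min_mem (Ioi p.1.1) (exists_gt _)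
  have hα2 : ∀ δ < α, δ ≤ p.1.1 := fun δ hδ => not_lt.1 fun h =>
    (wellFounded_lt (α := L)).not_lt_min (Ioi p.1.1) h hδ
  have hm : ∀ δ, ∃ m, δ < p.1.1 → Lad δ (p.1.2 δ) → t δ ≤ m ∧ ∀ n ≥ m, ∀ k,
      (p.1.2 δ n).1 ≠ (s k).1 := by
    intro δ
    by_cases hl : δ < p.1.1 ∧ Lad δ (p.1.2 δ)
    · obtain ⟨k0, hk0⟩ := hs.2 δ hl.1
      have : ∀ k, ∃ m, ∀ n ≥ m, (p.1.2 δ n).1 ≠ (s k).1 := by
        intro k
        by_cases hk : (s k).1 < δ
        · obtain ⟨m, hm⟩ := hl.2.2 _ hk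
          exact ⟨m, fun n hn => (hm n hn).ne'⟩
        · exact ⟨0, fun n _ => ((hl.2.1 n).trans_le (not_lt.1 hk)).ne⟩
      choose u hu using this
      refine ⟨max (t δ) ((Finset.range k0).sup u), fun _ _ => ⟨le_max_left _ _, fun n hn k => ?_⟩⟩
      by_cases hk : k < k0
      · exact hu k n ((Finset.le_sup (f := u) (Finset.mem_range.2 hk)).trans
          ((le_max_right _ _).trans hn))
      · exact ((hl.2.1 n).trans (hk0 k (not_lt.1 hk))).ne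
    · exact ⟨0, fun h h' => absurd ⟨h, h'⟩ hl⟩
  choose m hm using hm
  refine ⟨⟨(α, Function.update p.1.2 p.1.1 s), m, fun δ hδ δ' hδ' hl hl' hne n hn n' hn' => ?_⟩,
    ⟨hα1.le, fun δ hδ => Function.update_of_ne hδ.ne _ _⟩, hα1, Function.update_self _ _ _⟩
  dsimp only at hl hl' ⊢
  rcases (hα2 δ hδ).lt_or_eq with h1 | h1 <;> rcases (hα2 δ' hδ').lt_or_eq with h2 | h2
  · rw [Function.update_of_ne h1.ne] at hl ⊢
    rw [Function.update_of_ne h2.ne] at hl' ⊢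
    exact ht δ h1 δ' h2 hl hl' hne n ((hm δ h1 hl).1.trans hn) n' ((hm δ' h2 hl').1.trans hn')
  · rw [Function.update_of_ne h1.ne] at hl ⊢
    rw [h2, Function.update_self]
    exact (hm δ h1 hl).2 n hn n'
  · rw [Function.update_of_ne h2.ne] at hl' ⊢
    rw [h1, Function.update_self]
    exact ((hm δ' h2 hl').2 n' hn' n).symm
  · exact absurd (h1.trans h2.symm) hne

/-- the sealing invariant of a recursive construction -/
def Sealed {J : Type} [LinearOrder J] (j : J) (g : (i : J) → i < j → LP L) (r : LP L) : Prop :=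
  (∀ i hi, r ≤ g i hi ∧ (g i hi).1.1 < r.1.1) ∧ ∃ σ, (∀ i hi, (g i hi).1.1 ≤ σ) ∧
    ∀ δ < r.1.1, (∀ i hi, (g i hi).1.1 ≤ δ) → Lad δ (r.1.2 δ) → σ < δ

theorem Sealed.mono {J : Type} [LinearOrder J] {j : J} {g : (i : J) → i < j → LP L} {r r' : LP L}
    (h : (∀ i hi, r ≤ g i hi) ∧ ∃ σ < r.1.1, (∀ i hi, (g i hi).1.1 ≤ σ) ∧
      ∀ δ, (∀ i hi, (g i hi).1.1 ≤ δ) → ¬ Lad δ (r.1.2 δ)) (hr : r' ≤ r) : Sealed j g r' := by
  obtain ⟨h1, σ, h2, h3, h4⟩ := h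
  refine ⟨fun i hi => ⟨hr.trans (h1 i hi), (h3 i hi).trans_lt (h2.trans_le hr.1)⟩, σ, h3,
    fun δ _ h5 hl => ?_⟩
  by_contra hcon
  exact h4 δ h5 (hr.2 δ ((not_lt.1 hcon).trans_lt h2) ▸ hl)

/-- the basic recursive construction of a sealed chain -/
theorem exists_chain [Nonempty L] {J Y : Type} [LinearOrder J] [WellFoundedLT J] [Nonempty Y]
    (hL : ∀ f : J → L, ∃ σ, ∀ j, f j < σ) (p : LP L)
    (Q : (j : J) → ((i : J) → i < j → LP L × Y) → LP L × Y → Prop)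
    (hQ : ∀ j g r, ∃ r', r' ≤ r ∧ ∃ y, Q j g (r', y)) :
    ∃ f : J → LP L × Y, (∀ j, Q j (fun k _ => f k) (f j)) ∧ (∀ j, (f j).1 ≤ p) ∧
      (∀ i j, i < j → (f i).1.1.1 < (f j).1.1.1) ∧
      ∀ α, (∀ j, (f j).1.1.1 ≤ α) → ∃ r : LP L, r.1.1 = α ∧ ∀ j, r ≤ (f j).1 := by
  classical
  haveI : Nonempty (LP L) := ⟨p⟩
  obtain ⟨f, hf⟩ := tdc (J := J) (Y := LP L × Y)
    (fun j g x => Q j g x ∧ x.1 ≤ p ∧ Sealed j (fun i hi => (g i hi).1) x.1) (by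
      intro j f ih
      by_cases hj : ∃ i, i < j
      · obtain ⟨i0, hi0⟩ := hj
        obtain ⟨σ, hσ⟩ := hL fun i => (f i).1.1.1
        obtain ⟨α, hα⟩ := hL fun _ => σ
        obtain ⟨r, h1, h2, h3⟩ := chain_lb (J := Iio j) (fun i => (f i.1).1)
          (fun i k hik => ((ih k k.2).2.2.1 i hik).1)
          (fun k => by
            obtain ⟨σ', h1, h2⟩ := (ih k k.2).2.2.2
            exact ⟨σ', fun i hi => h1 i hi, fun δ hδ h3 =>
              h2 δ hδ fun i hi => h3 ⟨i, hi.trans k.2⟩ hi⟩)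
          α (fun k => ((hσ k).trans (hα j)).le)
        obtain ⟨r', hr', y, hy⟩ := hQ j (fun k _ => f k) r
        exact ⟨(r', y), hy, hr'.trans ((h2 ⟨i0, hi0⟩).trans (ih i0 hi0).2.1),
          Sealed.mono ⟨fun i hi => h2 ⟨i, hi⟩, σ, h1 ▸ hα j, fun i _ => (hσ i).le,
            fun δ hδ => h3 δ fun k => hδ k k.2⟩ hr'⟩
      · obtain ⟨r', hr', y, hy⟩ := hQ j (fun k _ => f k) p
        exact ⟨(r', y), hy, hr', fun i hi => absurd ⟨i, hi⟩ hj, bot0 L,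
          fun i hi => absurd ⟨i, hi⟩ hj, fun δ _ _ hl => (bot0_le _).trans_lt (hl.1 0)⟩)
  refine ⟨f, fun j => (hf j).1, fun j => (hf j).2.1, fun i j hij => ((hf j).2.2.1 i hij).2,
    fun α hα => ?_⟩
  obtain ⟨r, h1, h2, -⟩ := chain_lb (fun i => (f i).1) (fun i k hik => ((hf k).2.2.1 i hik).1)
    (fun k => (hf k).2.2.2) α hα
  exact ⟨r, h1, h2⟩

/-- distributivity -/
theorem lp_distr [Nonempty L] {J : Type} [LinearOrder J] [WellFoundedLT J] [Nonempty J]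
    (hL : ∀ f : J → L, ∃ σ, ∀ j, f j < σ) (D : J → Set (LP L))
    (hD : ∀ x p q, p ∈ D x → q ≤ p → q ∈ D x) (hd : ∀ x p, ∃ q, q ≤ p ∧ q ∈ D x) (p : LP L) :
    ∃ q, q ≤ p ∧ ∀ x, q ∈ D x := by
  obtain ⟨f, h1, h2, -, h4⟩ := exists_chain (Y := Unit) hL p (fun j _ x => x.1 ∈ D j)
    (fun j _ r => by
      obtain ⟨q, h1, h2⟩ := hd j r
      exact ⟨q, h1, (), h2⟩)
  obtain ⟨σ, hσ⟩ := hL fun i => (f i).1.1.1
  obtain ⟨r, -, hr⟩ := h4 σ fun j => (hσ j).le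
  obtain ⟨j⟩ := ‹Nonempty J›
  exact ⟨r, (hr j).trans (h2 j), fun x => hD x _ _ (h1 x) (hr x)⟩

end Pool.Agent.H3Z
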