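import Pool.Agent.H3Z.Runs
import Pool.Agent.H3Z.Ladder

/-! Two ideals on a measurable cardinal with different outcomes of the cut and choose game. -/

set_option linter.unusedSectionVars false
set_option linter.unusedVariables false

namespace Pool.Agent.H3Z

open CohenE ZFSet Pool.Agent.H30Z.Forc Cardinal

variable {X : Type} [LinearOrder X] [WellFoundedLT X] {U : Ultrafilter X}
variable {L : Type} [LinearOrder L] [WellFoundedLT L]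

/-- the ideal generated by the ladders of a condition -/
def JI (e : X → L → Prop) (q : LP L) : Set (Set X) :=
  {B | ∃ β : X, ∃ S : Set L, #S < #X ∧ (∀ δ ∈ S, δ < q.1.1 ∧ Lad δ (q.1.2 δ)) ∧
    ∀ ξ ∈ B, ξ < β ∨ ∃ δ ∈ S, ∀ n, (e ξ (q.1.2 δ n).1 ↔ (q.1.2 δ n).2)}

variable {e : X → L → Prop}

theorem JI.mono {p q : LP L} {A B : Set X} (h : A ∈ JI e p) (hq : q ≤ p) (hB : B ⊆ A) :
    B ∈ JI e q := by
  obtain ⟨β, S, h1, h2, h3⟩ := h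
  refine ⟨β, S, h1, fun δ hδ => ⟨(h2 δ hδ).1.trans_le hq.1, ?_⟩, fun ξ hξ => ?_⟩
  · rw [hq.2 δ (h2 δ hδ).1]; exact (h2 δ hδ).2
  · refine (h3 ξ (hB hξ)).imp id fun ⟨δ, hδ, h4⟩ => ⟨δ, hδ, ?_⟩
    rw [hq.2 δ (h2 δ hδ).1]; exact h4

theorem JI.iio (h : Cpl X U) (p : LP L) (b : X) : Set.Iio b ∈ JI e p :=
  ⟨b, ∅, by simpa using aleph0_pos.trans h.unc, fun _ h => h.elim, fun ξ hξ => Or.inl hξ⟩

theorem JI.proper (he : ∀ S : Set L, #S < #X → ∀ g : L → Prop, ∀ β, ∃ ξ, β ≤ ξ ∧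
    ∀ δ ∈ S, (e ξ δ ↔ g δ)) (p : LP L) : Set.univ ∉ JI e p := by
  rintro ⟨β, S, h1, h2, h3⟩
  obtain ⟨t, ht⟩ := p.2
  obtain ⟨ξ, h4, h5⟩ := he ((fun δ => (p.1.2 δ (t δ)).1) '' S) (mk_image_le.trans_lt h1)
    (fun η => ∃ δ ∈ S, η = (p.1.2 δ (t δ)).1 ∧ ¬ (p.1.2 δ (t δ)).2) β
  rcases h3 ξ trivial with h6 | ⟨δ, hδ, h6⟩
  · exact absurd h6 (not_lt.2 h4)
  · have h7 := (h6 (t δ)).symm.trans (h5 _ ⟨δ, hδ, rfl⟩)
    by_cases hb : (p.1.2 δ (t δ)).2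
    · obtain ⟨δ', hδ', h8, h9⟩ := h7.1 hb
      by_cases hh : δ = δ'
      · exact h9 (hh ▸ hb)
      · exact ht δ (h2 δ hδ).1 δ' (h2 δ' hδ').1 (h2 δ hδ).2 (h2 δ' hδ').2 hh _ le_rfl _ le_rfl h8
    · exact hb (h7.2 ⟨δ, hδ, rfl, hb⟩)

theorem JI.union (h : Cpl X U) {ι : Type} (hι : #ι < #X) {p : LP L} (A : ι → Set X)
    (hA : ∀ i, A i ∈ JI e p) : (⋃ i, A i) ∈ JI e p := by
  choose β S h1 h2 h3 using hA
  obtain ⟨b, hb⟩ := h.bdd (s := Set.range β) (mk_range_le.trans_lt hι)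
  refine ⟨b, ⋃ i, S i, h.union_small hι S h1, fun δ hδ => ?_, fun ξ hξ => ?_⟩
  · obtain ⟨i, hi⟩ := Set.mem_iUnion.1 hδ
    exact h2 i δ hi
  · obtain ⟨i, hi⟩ := Set.mem_iUnion.1 hξ
    exact (h3 i ξ hi).imp (fun h4 => h4.trans (hb _ ⟨i, rfl⟩))
      fun ⟨δ, hδ, h4⟩ => ⟨δ, Set.mem_iUnion.2 ⟨i, hδ⟩, h4⟩

/-- every strategy is defeated -/
theorem JI.kill [Nonempty L] [NoMaxOrder L] (h : Cpl X U) (hL : ∀ f : ℕ → L, ∃ σ, ∀ j, f j < σ)
    (Acc : ZFSet.{0} → LP L → Prop) (hAcc : ∀ z p q, Acc z p → q ≤ p → Acc z q) (p : LP L) :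
    ∃ q, q ≤ p ∧ ∃ a S, IsRun (KZ X) omega S a ∧ dec X (Cur (KZ X) S a omega) ∈ JI e q ∧
      ∀ n, (Restr a (nat n) ∈ S → Acc (Restr a (nat n)) q) ∧
        (Restr a (nat n) ∉ S → ∀ r, r ≤ q → ¬ Acc (Restr a (nat n)) r) := by
  classical
  let ps : (j : ℕ) → ((i : ℕ) → i < j → LP L × Set X × Prop) → Set X → ZFSet.{0} := fun j g A =>
    posZ (fun k => if hk : k < j then enc (g k hk).2.1 else enc A) j
  obtain ⟨f, h1, h2, h3, h4⟩ := exists_chain (Y := Set X × Prop) hL p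
    (fun j g x => x.2.1 = {ξ | ∀ i hi, (ξ ∈ (g i hi).2.1 ↔ (g i hi).2.2) ∧
        (i + 1 = j → e ξ (g i hi).1.1.1)} ∧
      (x.2.2 → Acc (ps j g x.2.1) x.1) ∧ (¬ x.2.2 → ∀ r, r ≤ x.1 → ¬ Acc (ps j g x.2.1) r))
    (fun j g r => by
      set A := {ξ | ∀ i hi, (ξ ∈ (g i hi).2.1 ↔ (g i hi).2.2) ∧ (i + 1 = j → e ξ (g i hi).1.1.1)}
      by_cases hh : ∀ r', r' ≤ r → ¬ Acc (ps j g A) r'
      · exact ⟨r, le_rfl, (A, False), rfl, False.elim, fun _ => hh⟩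
      · simp only [not_forall, not_not] at hh
        obtain ⟨r', hr', h1⟩ := hh
        exact ⟨r', hr', (A, True), rfl, fun _ => h1, fun h => absurd trivial h⟩)
  have hps : ∀ j, ps j (fun k _ => f k) (f j).2.1 = posZ (fun k => enc (f k).2.1) j := by
    intro j
    refine posZ_congr fun k hk => ?_
    by_cases hk' : k < j
    · exact dif_pos hk'
    · rw [dif_neg hk', le_antisymm hk (not_lt.1 hk')]
  have hne : {σ | ∀ n, (f n).1.1.1 < σ}.Nonempty := hL _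
  let δ := (wellFounded_lt (α := L)).min _ hne
  have hδ1 : ∀ n, (f n).1.1.1 < δ := (wellFounded_lt (α := L)).min_mem _ hne
  have hδ2 : ∀ β < δ, ∃ m, ∀ n ≥ m, β < (f n).1.1.1 := by
    intro β hβ
    obtain ⟨m, hm⟩ : ∃ m, β ≤ (f m).1.1.1 := by
      by_contra hcon
      push Not at hcon
      exact (wellFounded_lt (α := L)).not_lt_min _ (show β ∈ {σ | ∀ n, (f n).1.1.1 < σ} from hcon)
        hβ
    exact ⟨m + 1, fun n hn => hm.trans_lt (h3 m n hn)⟩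
  obtain ⟨r, hr1, hr2⟩ := h4 δ fun j => (hδ1 j).le
  obtain ⟨q, hq1, hq2, hq3⟩ := add_lad r (fun n => ((f n).1.1.1, (f (n + 1)).2.2))
    (hr1 ▸ ⟨hδ1, hδ2⟩)
  rw [hr1] at hq2 hq3
  obtain ⟨a, S, g1, g2, g3, g4⟩ := exists_run (fun n => (f n).2.1) (fun n => (f n).2.2)
    (fun n ξ hξ k hk => by
      rw [(h1 n).1] at hξ
      exact (hξ k hk).1)
  refine ⟨q, hq1.trans ((hr2 0).trans (h2 0)), a, S, g1, ?_, fun n => ?_⟩
  · rw [g4]
    obtain ⟨x0⟩ : Nonempty X := Cardinal.mk_ne_zero_iff.1 (aleph0_pos.trans h.unc).ne'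
    refine ⟨x0, {δ}, by simpa using one_lt_aleph0.trans h.unc, ?_, fun ξ hξ => Or.inr ⟨δ, rfl, ?_⟩⟩
    · rintro _ rfl
      exact ⟨hq2, hq3 ▸ ⟨hδ1, hδ2⟩⟩
    · intro n
      rw [hq3]
      refine Iff.trans ?_ (hξ (n + 1))
      rw [(h1 (n + 1)).1]
      exact ⟨fun h5 i hi => ⟨hξ i, fun h6 => (Nat.succ_inj.1 h6).symm ▸ h5⟩,
        fun h5 => (h5 n (Nat.lt_succ_self n)).2 rfl⟩
  · rw [g3, g2, ← hps]
    exact ⟨fun h5 => hAcc _ _ _ ((h1 n).2.1 h5) (hq1.trans (hr2 n)),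
      fun h5 r hr => (h1 n).2.2 h5 r (hr.trans (hq1.trans (hr2 n)))⟩

/-- the name of the generic ideal -/
noncomputable def nmJ [Nonempty L] (e : X → L → Prop) : Nm (LP L) :=
  .mk {x : Set X × LP L // x.1 ∈ JI e x.2} (fun x => ck (LP L) (enc x.1.1)) (fun x => x.1.2)

theorem main_dep [Nonempty L] [NoMaxOrder L] (h : Cpl X U) (hL : ∀ f : X → L, ∃ σ, ∀ j, f j < σ)
    (hL' : #L ≤ #(Set X)) : ∃ W, CTM W ∧ ∃ κ I J, RegUnc W κ ∧ IsIdeal W κ I ∧ IsIdeal W κ J ∧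
      WinsIdeal W κ I omega ∧ ¬ WinsIdeal W κ J omega := by
  obtain ⟨e, he⟩ := h.exists_indep hL'
  have : Nonempty X := Cardinal.mk_ne_zero_iff.1 (aleph0_pos.trans h.unc).ne'
  have hL0 : ∀ f : ℕ → L, ∃ σ, ∀ j, f j < σ := by
    intro f
    obtain ⟨i⟩ := (Cardinal.le_def ℕ X).1 (by rw [mk_nat]; exact h.unc.le)
    obtain ⟨σ, hσ⟩ := hL fun x => f (Function.invFun i x)
    exact ⟨σ, fun j => by simpa [Function.leftInverse_invFun i.injective j] using hσ (i j)⟩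
  have hd : Distr (LP L) (KZ X) := by
    intro D h1 h2 p
    obtain ⟨q, hq, h3⟩ := lp_distr hL (fun x => D (oz x)) (fun x => h1 _)
      (fun x => h2 _ (oz_mem x)) p
    refine ⟨q, hq, fun x hx => ?_⟩
    obtain ⟨y, rfl⟩ := mem_KZ.1 hx
    exact h3 y
  let rJ : List (Nm (LP L)) → ZFSet.{0} → LP L → Prop := fun l z q => IsPFun (uck (lv l 0)) →
    (∀ ξ ∈ KZ X, ∀ A, pair ξ A ∈ uck (lv l 0) → dec X A ∈ JI e q) ∨
      ((∃ ξ, pair ξ z ∈ uck (lv l 0)) ∧ ∀ r, r ≤ q → dec X z ∉ JI e r)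
  let rK : List (Nm (LP L)) → ZFSet.{0} → LP L → Prop := fun l z q => ∃ a S, z = pair a S ∧
    IsRun (KZ X) omega S a ∧ dec X (Cur (KZ X) S a omega) ∈ JI e q ∧
      ∀ n, (Restr a (nat n) ∈ S → FMem (ck _ (Restr a (nat n))) (lv l 0) q) ∧
        (Restr a (nat n) ∉ S → ∀ r, r ≤ q → ¬ FMem (ck _ (Restr a (nat n))) (lv l 0) r)
  obtain ⟨N, G, hS, hm⟩ := exists_setup_list (P := LP L)
    [clos fun _ => ck _ (KZ X), clos fun _ => ck _ (dualZ U), clos fun _ => nmJ e,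
      ReqW (rNew (KZ X)), ReqW rJ, ReqW rK] (by
      simp only [List.forall_mem_cons, List.not_mem_nil, false_imp_iff, implies_true, and_true]
      exact ⟨clos_dense _, clos_dense _, clos_dense _, reqW_dense _, reqW_dense _, reqW_dense _⟩)
  simp only [List.forall_mem_cons, List.not_mem_nil, false_imp_iff, implies_true, and_true] at hm
  obtain ⟨m1, m2, m3, m4, m5, m6⟩ := hm
  have hK : KZ X ∈ Hl N := m1.clos [] (by simp)
  have hI : dualZ U ∈ Hl N := m2.clos [] (by simp)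
  have hJ : nmJ e ∈ N := m3.clos [] (by simp)
  have hn := hS.noNew hK hd m4
  have hr := hS.regUnc_gnd hK (regUnc_univ h)
  have hmem : ∀ z ∈ Hl N, pz N z ∈ val N G (nmJ e) ↔ z ⊆ KZ X ∧ ∃ p ∈ G, dec X z ∈ JI e p := by
    intro z hz
    rw [H30Z.Forc.mem_val]
    constructor
    · rintro ⟨⟨⟨A, p⟩, h1⟩, h2, h3, h4⟩
      have h5 : z = enc A := (hS.pz_inj hz h2).1 (h4.trans (hS.val_ck _))
      exact ⟨h5 ▸ enc_subset A, p, h3, by rw [h5, dec_enc]; exact h1⟩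
    · rintro ⟨h1, p, h2, h3⟩
      refine ⟨⟨(dec X z, p), h3⟩, ?_, h2, ?_⟩
      · change ck _ (enc (dec X z)) ∈ N
        rw [enc_dec h1]; exact hz
      · change _ = val N G (ck _ (enc (dec X z)))
        rw [enc_dec h1, hS.val_ck]
  have hmem' : ∀ A ∈ val N G (nmJ e), ∃ z ∈ Hl N, A = pz N z := by
    intro A hA
    obtain ⟨⟨⟨B, p⟩, h1⟩, h2, h3, h4⟩ := mem_val.1 hA
    exact ⟨enc B, h2, h4.trans (hS.val_ck _)⟩
  have hsub : ∀ A ∈ val N G (nmJ e), A ⊆ pz N (KZ X) := by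
    intro A hA
    obtain ⟨z, hz, rfl⟩ := hmem' A hA
    exact (hS.pz_subset_iff hz hK).2 ((hmem z hz).1 hA).1
  refine ⟨Ext N G, hS.ctmW, pz N (KZ X), pz N (dualZ U), val N G (nmJ e), hS.regUnc_ext hn hr,
    hS.isIdeal_ext hn hr (hS.isIdeal_gnd hK hI (isIdeal_dualZ h)),
    ⟨hS.val_memW hJ, hsub, fun h1 => ?_, ?_, ?_, ?_⟩,
    hS.winsIdeal_ext hn hr (hS.winsIdeal_gnd hK hI (winsIdeal_dualZ h)), ?_⟩
  · obtain ⟨-, p, -, h2⟩ := (hmem _ hK).1 h1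
    rw [dec_KZ] at h2
    exact JI.proper he p h2
  · intro A hA B hB hBA
    obtain ⟨z, hz, rfl⟩ := hmem' A hA
    obtain ⟨y, hy, rfl⟩ := hS.exists_hl (hn.sub hS hr.1 hB (hBA.trans (hsub _ hA)))
    obtain ⟨h1, p, hp, h2⟩ := (hmem z hz).1 hA
    have h3 := (hS.pz_subset_iff hy hz).1 hBA
    exact (hmem y hy).2 ⟨h3.trans h1, p, hp,
      JI.mono h2 le_rfl fun x (hx : oz x ∈ y) => (h3 hx : oz x ∈ z)⟩
  · intro β hβ
    obtain ⟨y, hy, h1, rfl⟩ := hS.mem_pz hK hβ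
    obtain ⟨b, rfl⟩ := mem_KZ.1 h1
    exact (hmem _ hy).2 ⟨KZ_ord.subset_of_mem h1, ⊤, hS.filt.top, by
      rw [dec_oz]; exact JI.iio h _ b⟩
  · intro α hα f hf hfun B hB hcov
    have hf' : IsFunc α (powerset (pz N (KZ X))) f := ⟨fun z hz => by
      obtain ⟨a, ha, b, hb, rfl⟩ := mem_prod.1 (hfun.1 hz)
      exact pair_mem_prod.2 ⟨ha, mem_powerset.2 (hsub b hb)⟩, hfun.2⟩
    obtain ⟨f0, hf0, rfl⟩ := hS.exists_hl (hn.funcPow hS hr.1 (hr.2.1.subset_of_mem hα) hf hf')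
    obtain ⟨α0, hα0, h1, rfl⟩ := hS.mem_pz hK hα
    obtain ⟨a, rfl⟩ := mem_KZ.1 h1
    have hBs : B ⊆ pz N (KZ X) := fun x hx => by
      obtain ⟨ξ, -, A, hA, hx'⟩ := hcov x hx
      exact hsub A (pair_mem_prod.1 (hfun.1 hA)).2 hx'
    obtain ⟨B0, hB0, rfl⟩ := hS.exists_hl (hn.sub hS hr.1 hB hBs)
    have h2 := (hS.tr3 (fun _ a k f => IsFunc a (powerset k) f) hα0 hK hf0).1 hf'
    have h3 := (hS.tr3 (fun _ B α f => ∀ x ∈ B, ∃ ξ ∈ α, ∃ A, pair ξ A ∈ f ∧ x ∈ A)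
      hB0 hα0 hf0).1 hcov
    obtain ⟨q, hq, z, hz, h4⟩ := meets_dense m5 (fun l p => by
      by_cases hpf : IsPFun (uck (lv l 0))
      · obtain ⟨q, hq, h5⟩ := hd (fun ξ => {q | (∀ A, pair ξ A ∈ uck (lv l 0) → dec X A ∈ JI e q) ∨
          ∃ A, pair ξ A ∈ uck (lv l 0) ∧ ∀ r, r ≤ q → dec X A ∉ JI e r})
          (by
            rintro x p q (h5 | ⟨A, h5, h6⟩) hq
            · exact Or.inl fun A hA => JI.mono (h5 A hA) hq subset_rfl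
            · exact Or.inr ⟨A, h5, fun r hr => h6 r (hr.trans hq)⟩)
          (fun ξ _ p => by
            by_cases hh : ∃ A, pair ξ A ∈ uck (lv l 0) ∧ ∀ r, r ≤ p → dec X A ∉ JI e r
            · exact ⟨p, le_rfl, Or.inr hh⟩
            · by_cases hA : ∃ A, pair ξ A ∈ uck (lv l 0)
              · obtain ⟨A, hA⟩ := hA
                push Not at hh
                obtain ⟨r, hr, h5⟩ := hh A hA
                exact ⟨r, hr, Or.inl fun A' hA' => hpf _ _ _ hA hA' ▸ h5⟩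
              · exact ⟨p, le_rfl, Or.inl fun A hA' => absurd ⟨A, hA'⟩ hA⟩) p
        by_cases hh : ∀ ξ ∈ KZ X, ∀ A, pair ξ A ∈ uck (lv l 0) → dec X A ∈ JI e q
        · exact ⟨q, hq, ∅, fun _ => Or.inl hh⟩
        · simp only [not_forall] at hh
          obtain ⟨ξ, hξ, A, hA, h6⟩ := hh
          obtain h7 | ⟨A', h7, h8⟩ := h5 ξ hξ
          · exact absurd (h7 A hA) h6
          · exact ⟨q, hq, A', fun _ => Or.inr ⟨⟨ξ, h7⟩, h8⟩⟩
      · exact ⟨p, le_rfl, ∅, fun h => absurd h hpf⟩) [ck _ f0] (List.forall_mem_singleton.2 hf0)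
    simp only [rJ, lv, List.getD_cons_zero, uck_ck] at h4
    rcases h4 (isFunc_pfun h2) with h5 | ⟨h5, h6⟩
    · choose A hA hA' using fun x : Set.Iio a => h2.2 (oz x.1) (oz_mem_iff.2 x.2)
      refine (hmem _ hB0).2 ⟨(hS.pz_subset_iff hB0 hK).1 hBs, q, hq, JI.mono
        (JI.union h (h.iio a) (fun x => dec X (A x)) fun x => h5 _ (oz_mem _) _ (hA x)) le_rfl ?_⟩
      intro x hx
      obtain ⟨ξ, hξ, A', h7, h8⟩ := h3 (oz x) hx
      obtain ⟨y, hy, rfl⟩ := mem_oz.1 hξ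
      refine Set.mem_iUnion.2 ⟨⟨y, hy⟩, ?_⟩
      rw [← hA' ⟨y, hy⟩ A' h7]; exact h8
    · exfalso
      obtain ⟨ξ, hξ, h7⟩ := hS.tv2 (fun _ z f ξ => pair ξ z ∈ f) hz hf0 h5
      obtain ⟨-, p, hp, h8⟩ := (hmem z hz).1
        (pair_mem_prod.1 (hfun.1 ((hS.pz_app hξ hz hf0).2 h7))).2
      obtain ⟨r, -, h9, h10⟩ := hS.filt.dir p hp q hq
      exact h6 r h10 (JI.mono h8 h9 subset_rfl)
  · rintro ⟨_, ⟨τ, hτ, rfl⟩, hw⟩
    obtain ⟨q, hq, z, hz, a, S, rfl, h1, h2, h3⟩ := meets_dense m6 (fun l p => by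
      obtain ⟨q, hq, a, S, h1⟩ := JI.kill (e := e) h hL0 (fun z q => FMem (ck _ z) (lv l 0) q)
        (fun z p q h hq => h.mono hq) p
      exact ⟨q, hq, _, a, S, rfl, h1⟩) [τ] (by simpa using hτ)
    simp only [lv, List.getD_cons_zero] at h3
    obtain ⟨ha, hS0⟩ := hS.hl_of_pair hz
    have h4 : ∀ η ∈ ZFSet.omega, Restr (pz N a) η ∈ pz N S ↔ Restr (pz N a) η ∈ val N G τ := by
      intro η hη
      obtain ⟨n, rfl⟩ := mem_omega.1 hη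
      obtain ⟨y, hy, h5⟩ := hS.tv2 (fun _ a η y => y = Restr a η) ha (hS.nat_hl n) ⟨_, rfl⟩
      have h6 := (hS.tr3 (fun _ y a η => y = Restr a η) hy ha (hS.nat_hl n)).2 h5
      rw [hS.pz_nat] at h6
      rw [← h6, hS.pz_mem_iff hy hS0, hS.mem_val_iff hy hτ, h5]
      refine ⟨fun h7 => ⟨q, hq, (h3 n).1 h7⟩, fun ⟨p, hp, h7⟩ => by_contra fun h8 => ?_⟩
      obtain ⟨r, -, h9, h10⟩ := hS.filt.dir p hp q hq
      exact (h3 n).2 h8 r h10 (h7.mono h9)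
    have h5 := (hS.tr4 (fun _ k g s a => IsRun k g s a) hK hS.omega_hl hS0 ha).2 h1
    rw [hS.pz_omega] at h5
    refine hw _ (hS.pz_memW ha) (h5.congr omega_ord h4) ?_
    rw [← Cur_congr h4]
    obtain ⟨y, hy, h6⟩ := hS.tv4 (fun _ k s a g y => y = Cur k s a g) hK hS0 ha hS.omega_hl ⟨_, rfl⟩
    have h7 := (hS.tr5 (fun _ y k s a g => y = Cur k s a g) hy hK hS0 ha hS.omega_hl).2 h6
    rw [hS.pz_omega] at h7
    rw [← h7]
    exact (hmem y hy).2 ⟨h6 ▸ Cur_subset _ _ _ _, q, hq, h6 ▸ h2⟩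

theorem ideal_dependence (h : ∃ μ, IsMeasurableCardinal μ) :
    ∃ W, CTM W ∧ ∃ κ I J, RegUnc W κ ∧ IsIdeal W κ I ∧ IsIdeal W κ J ∧
      WinsIdeal W κ I omega ∧ ¬ WinsIdeal W κ J omega := by
  obtain ⟨μ, hμ⟩ := h
  obtain ⟨U, hU⟩ := hμ.exists_nrm
  have hreg : (Order.succ μ).IsRegular := isRegular_succ hμ.1.le
  have hL : ∀ f : μ.ord.ToType → (Order.succ μ).ord.ToType, ∃ σ, ∀ j, f j < σ := by
    intro f
    by_contra hcon
    push Not at hcon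
    have h1 := Order.cof_le (s := Set.range f) fun σ => by
      obtain ⟨j, hj⟩ := hcon σ
      exact ⟨_, ⟨j, rfl⟩, hj⟩
    rw [Ordinal.cof_toType, hreg.cof_ord] at h1
    exact absurd (h1.trans (mk_range_le.trans (by simp))) (not_le.2 (Order.lt_succ μ))
  have : Nonempty (Order.succ μ).ord.ToType := by
    rw [Ordinal.nonempty_toType_iff, ne_eq, ord_eq_zero]
    exact hreg.pos.ne'
  have : NoMaxOrder (Order.succ μ).ord.ToType := Cardinal.noMaxOrder hreg.aleph0_le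
  refine main_dep (L := (Order.succ μ).ord.ToType) hU.toCpl hL ?_
  simp only [mk_toType, card_ord, mk_set]
  exact Order.succ_le_of_lt (cantor μ)

end Pool.Agent.H3Z
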