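import Pool.Agent.H3Z.Runs

/-! The ideal generated by a ground measure, abstractly. -/

set_option linter.unusedSectionVars false
set_option linter.unusedVariables false

namespace Pool.Agent.H3Z

open CohenE ZFSet Pool.Agent.H30Z.Forc

/-- What is needed of the ground measure `u` on `κ` inside the model `W`. -/
structure Kak (W : Set ZFSet.{0}) (κ u : ZFSet.{0}) : Prop where
  ctm : CTM W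
  kmem : κ ∈ W
  umem : u ∈ W
  ord : κ.IsOrdinal
  om : omega ∈ κ
  sub : ∀ Y ∈ u, Y ⊆ κ
  inter : ∀ Y ∈ u, ∀ Y' ∈ u, ∃ Z ∈ u, Z ⊆ Y ∧ Z ⊆ Y'
  tail : ∀ β ∈ κ, ∃ Y ∈ u, ∀ ξ ∈ Y, β ∈ ξ
  ne : ∀ Y ∈ u, ∃ ξ, ξ ∈ Y
  norm : ∀ E ∈ W, (∀ β ∈ κ, ∃ Y ∈ u, ∀ ξ ∈ Y, pair β ξ ∉ E) →
    ∃ Y ∈ u, ∀ ξ ∈ Y, ∀ β ∈ ξ, pair β ξ ∉ E
  wf : ∀ f ∈ W, ∃ r ∈ W, ∃ θ ∈ W, ∃ Fn ∈ W, (∃ α, pair f α ∈ r) ∧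
    (∀ x α, pair x α ∈ r → ∀ y ∈ x, ∃ β ∈ α, pair y β ∈ r) ∧ θ.IsOrdinal ∧
    (∀ x α, pair x α ∈ r → α ∈ θ) ∧ (∀ g ∈ Fn, IsPFun g) ∧
    (∀ h ∈ W, (∀ Y ∈ u, ∃ ξ ∈ Y, ∃ y ∈ θ, pair ξ y ∈ h) →
      ∃ g ∈ Fn, ∀ Y ∈ u, ∃ ξ ∈ Y, ∃ y, pair ξ y ∈ h ∧ pair ξ y ∈ g) ∧
    ∀ g : ℕ → ZFSet.{0}, (∀ n, g n ∈ Fn) →
      ¬ ∀ n, ∀ Y ∈ u, ∃ ξ ∈ Y, ∃ a, pair ξ a ∈ g (n + 1) ∧ ∃ b, pair ξ b ∈ g n ∧ a ∈ b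

/-- `I` is the ideal dual to the filter generated by `u` -/
def DualTo (W : Set ZFSet.{0}) (κ u I : ZFSet.{0}) : Prop :=
  I ∈ W ∧ ∀ A, A ∈ I ↔ A ∈ W ∧ A ⊆ κ ∧ ∃ Y ∈ u, ∀ ξ ∈ Y, ξ ∉ A

theorem exists_min_mem {a : ZFSet.{0}} (p : ZFSet.{0} → Prop) (h : p a) :
    ∃ b, p b ∧ ∀ c ∈ b, ¬ p c := by
  obtain ⟨b, h1, h2⟩ := ZFSet.mem_wf.has_min {x | p x} ⟨a, h⟩
  exact ⟨b, h1, fun c hc hp => h2 c hp hc⟩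

namespace Kak
variable {W : Set ZFSet.{0}} {κ u I : ZFSet.{0}} (h : Kak W κ u)
include h

theorem exists_dual : ∃ I, DualTo W κ u I := by
  obtain ⟨p, hp, h1⟩ := h.ctm.power κ h.kmem
  obtain ⟨I, hI, h2⟩ := sep1 h.ctm (fun _ A u => ∃ Y ∈ u, ∀ ξ ∈ Y, ξ ∉ A) hp h.umem
  refine ⟨I, hI, fun A => ?_⟩
  rw [h2]
  exact ⟨fun h3 => ⟨h.ctm.trans _ hp _ h3.1, (h1 _ (h.ctm.trans _ hp _ h3.1)).1 h3.1, h3.2⟩,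
    fun h3 => ⟨(h1 _ h3.1).2 h3.2.1, h3.2.2⟩⟩

theorem exists_ge {Y α : ZFSet.{0}} (hY : Y ∈ u) (hα : α ∈ κ) : ∃ Z ∈ u, Z ⊆ Y ∧
    ∀ ξ ∈ Z, ∀ β ∈ α, β ∈ ξ := by
  obtain ⟨T, hT, h1⟩ := h.tail α hα
  obtain ⟨Z, hZ, h2, h3⟩ := h.inter Y hY T hT
  exact ⟨Z, hZ, h2, fun ξ hξ β hβ =>
    (h.ord.mem (h.sub _ hZ hξ)).mem_trans hβ (h1 ξ (h3 hξ))⟩

theorem regUnc : RegUnc W κ := by
  refine ⟨h.kmem, h.ord, h.om, fun α hα f hf hfun => ?_⟩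
  obtain ⟨E, hE, -, h1⟩ := rel2 h.ctm (fun _ β ξ f _ => ∃ y, pair β y ∈ f ∧ y ∉ ξ)
    h.kmem h.kmem hf hf
  obtain ⟨Y, hY, h2⟩ := h.norm E hE fun β hβ => by
    by_cases hy : ∃ y, pair β y ∈ f
    · obtain ⟨y, hy⟩ := hy
      obtain ⟨T, hT, h3⟩ := h.tail y (pair_mem_prod.1 (hfun.1 hy)).2
      refine ⟨T, hT, fun ξ hξ h4 => ?_⟩
      obtain ⟨-, -, y', h5, h6⟩ := (h1 _ _).1 h4
      exact h6 (isFunc_pfun hfun _ _ _ hy h5 ▸ h3 ξ hξ)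
    · obtain ⟨T, hT, -⟩ := h.tail β hβ
      exact ⟨T, hT, fun ξ _ h4 => hy (((h1 _ _).1 h4).2.2.imp fun _ h => h.1)⟩
  obtain ⟨Z, hZ, h3, h4⟩ := h.exists_ge hY hα
  obtain ⟨ξ, hξ⟩ := h.ne Z hZ
  refine ⟨ξ, h.sub _ hZ hξ, fun β hβ y hy => by_contra fun h5 => ?_⟩
  exact h2 ξ (h3 hξ) β (h4 ξ hξ β hβ) ((h1 _ _).2 ⟨h.ord.mem_trans hβ hα, h.sub _ hZ hξ, y, hy, h5⟩)

variable (hI : DualTo W κ u I)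
include hI

theorem pos_iff {A : ZFSet.{0}} (h1 : A ∈ W) (h2 : A ⊆ κ) : A ∉ I ↔ ∀ Y ∈ u, ∃ ξ ∈ Y, ξ ∈ A := by
  rw [hI.2]
  simp only [h1, h2, true_and, not_exists, not_and, not_forall, not_not, exists_prop]

theorem isIdeal : IsIdeal W κ I := by
  refine ⟨hI.1, fun A hA => ((hI.2 A).1 hA).2.1, fun hk => ?_, fun A hA B hB hBA => ?_,
    fun β hβ => ?_, fun α hα f hf hfun B hB hcov => ?_⟩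
  · obtain ⟨-, -, Y, hY, h1⟩ := (hI.2 _).1 hk
    obtain ⟨ξ, hξ⟩ := h.ne Y hY
    exact h1 ξ hξ (h.sub _ hY hξ)
  · obtain ⟨-, h1, Y, hY, h2⟩ := (hI.2 _).1 hA
    exact (hI.2 _).2 ⟨hB, hBA.trans h1, Y, hY, fun ξ hξ h3 => h2 ξ hξ (hBA h3)⟩
  · obtain ⟨Y, hY, h1⟩ := h.tail β hβ
    exact (hI.2 _).2 ⟨h.ctm.trans _ h.kmem _ hβ, h.ord.subset_of_mem hβ, Y, hY,
      fun ξ hξ h2 => ZFSet.mem_asymm h2 (h1 ξ hξ)⟩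
  · obtain ⟨E, hE, -, h1⟩ := rel2 h.ctm (fun _ β ξ f _ => ∃ A, pair β A ∈ f ∧ ξ ∈ A)
      h.kmem h.kmem hf hf
    obtain ⟨Y, hY, h2⟩ := h.norm E hE fun β hβ => by
      by_cases hy : ∃ y, pair β y ∈ f
      · obtain ⟨y, hy⟩ := hy
        obtain ⟨-, -, T, hT, h3⟩ := (hI.2 _).1 (pair_mem_prod.1 (hfun.1 hy)).2
        refine ⟨T, hT, fun ξ hξ h4 => ?_⟩
        obtain ⟨-, -, y', h5, h6⟩ := (h1 _ _).1 h4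
        exact h3 ξ hξ (isFunc_pfun hfun _ _ _ hy h5 ▸ h6)
      · obtain ⟨T, hT, -⟩ := h.tail β hβ
        exact ⟨T, hT, fun ξ _ h4 => hy (((h1 _ _).1 h4).2.2.imp fun _ h => h.1)⟩
    obtain ⟨Z, hZ, h3, h4⟩ := h.exists_ge hY hα
    refine (hI.2 _).2 ⟨hB, fun x hx => ?_, Z, hZ, fun ξ hξ h5 => ?_⟩
    · obtain ⟨ξ, -, A, hA, hx'⟩ := hcov x hx
      exact ((hI.2 _).1 (pair_mem_prod.1 (hfun.1 hA)).2).2.1 hx'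
    · obtain ⟨β, hβ, A, hA, hx'⟩ := hcov ξ h5
      exact h2 ξ (h3 hξ) β (h4 ξ hξ β hβ)
        ((h1 _ _).2 ⟨h.ord.mem_trans hβ hα, h.sub _ hZ hξ, A, hA, hx'⟩)

variable {H : Set ZFSet.{0}}
  (hH : IsGeneric W {A | A ∈ W ∧ A ⊆ κ ∧ A ∉ I} (fun A B => A \ B ∈ I) H)
include hH

theorem g_pos {A : ZFSet.{0}} (hA : A ∈ H) : ∀ Y ∈ u, ∃ ξ ∈ Y, ξ ∈ A :=
  (h.pos_iff hI (hH.1 hA).1 (hH.1 hA).2.1).1 (hH.1 hA).2.2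

omit hH in
theorem le_of_subset {A B : ZFSet.{0}} (hA : A ∈ W) (hB : B ∈ W) (hAB : A ⊆ B) : A \ B ∈ I := by
  obtain ⟨Y, hY, -⟩ := h.tail _ h.om
  have : ∀ ξ, ξ ∉ A \ B := fun ξ h1 => (mem_sdiff.1 h1).2 (hAB (mem_sdiff.1 h1).1)
  exact (hI.2 _).2 ⟨sdiff_mem' h.ctm hA hB, fun ξ hξ => absurd hξ (this ξ), Y, hY,
    fun ξ _ => this ξ⟩

theorem g_up {A B : ZFSet.{0}} (hA : A ∈ H) (hB : B ∈ W) (hAB : A ⊆ B) (hBκ : B ⊆ κ) : B ∈ H :=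
  hH.2.2.1 A hA B ⟨hB, hBκ, (h.pos_iff hI hB hBκ).2 fun Y hY =>
    (h.g_pos hI hH hA Y hY).imp fun _ h1 => ⟨h1.1, hAB h1.2⟩⟩
    (h.le_of_subset hI (hH.1 hA).1 hB hAB)

theorem g_inter {A B : ZFSet.{0}} (hA : A ∈ H) (hB : B ∈ H) : A ∩ B ∈ H := by
  obtain ⟨r, hr, h1, h2⟩ := hH.2.2.2.1 A hA B hB
  obtain ⟨-, -, Y1, hY1, h3⟩ := (hI.2 _).1 h1
  obtain ⟨-, -, Y2, hY2, h4⟩ := (hI.2 _).1 h2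
  obtain ⟨Z, hZ, h5, h6⟩ := h.inter Y1 hY1 Y2 hY2
  have h7 : ∀ ξ ∈ Z, ξ ∈ r → ξ ∈ A ∩ B := fun ξ hξ hr' => mem_inter.2
    ⟨by_contra fun h8 => h3 ξ (h5 hξ) (mem_sdiff.2 ⟨hr', h8⟩),
      by_contra fun h8 => h4 ξ (h6 hξ) (mem_sdiff.2 ⟨hr', h8⟩)⟩
  have hW := inter_mem' h.ctm (hH.1 hA).1 (hH.1 hB).1
  have hs : A ∩ B ⊆ κ := fun ξ hξ => (hH.1 hA).2.1 (mem_inter.1 hξ).1
  refine hH.2.2.1 r hr _ ⟨hW, hs, (h.pos_iff hI hW hs).2 fun Y hY => ?_⟩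
    ((hI.2 _).2 ⟨sdiff_mem' h.ctm (hH.1 hr).1 hW,
      fun ξ hξ => (hH.1 hr).2.1 (mem_sdiff.1 hξ).1, Z, hZ,
      fun ξ hξ h8 => (mem_sdiff.1 h8).2 (h7 ξ hξ (mem_sdiff.1 h8).1)⟩)
  obtain ⟨Z', hZ', h8, h9⟩ := h.inter Y hY Z hZ
  obtain ⟨ξ, hξ, h10⟩ := h.g_pos hI hH hr Z' hZ'
  exact ⟨ξ, h8 hξ, h7 ξ (h9 hξ) h10⟩

/-- genericity below a member of the filter -/
theorem g_dense {A D : ZFSet.{0}} (hA : A ∈ H) (hD : D ∈ W)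
    (hd : ∀ B ∈ W, B ⊆ A → (∀ Y ∈ u, ∃ ξ ∈ Y, ξ ∈ B) →
      ∃ C ∈ D, C ⊆ B ∧ ∀ Y ∈ u, ∃ ξ ∈ Y, ξ ∈ C) : ∃ C ∈ D, C ∈ H := by
  obtain ⟨p, hp, h1⟩ := h.ctm.power κ h.kmem
  obtain ⟨D', hD', h2⟩ := sep2 h.ctm (fun _ C D A => C ∈ D ∨ ∀ ξ ∈ C, ξ ∉ A) hp hD (hH.1 hA).1
  obtain ⟨C, hC, h3⟩ := hH.2.2.2.2 D' hD' fun B hB => by
    have key : ∀ C ∈ W, C ⊆ B → (∀ Y ∈ u, ∃ ξ ∈ Y, ξ ∈ C) → (C ∈ D ∨ ∀ ξ ∈ C, ξ ∉ A) →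
        ∃ q ∈ D', q ∈ {A | A ∈ W ∧ A ⊆ κ ∧ A ∉ I} ∧ q \ B ∈ I := fun C c1 c2 c3 c4 =>
      ⟨C, (h2 C).2 ⟨(h1 C c1).2 (c2.trans hB.2.1), c4⟩,
        ⟨c1, c2.trans hB.2.1, (h.pos_iff hI c1 (c2.trans hB.2.1)).2 c3⟩,
        h.le_of_subset hI c1 hB.1 c2⟩
    by_cases hh : ∀ Y ∈ u, ∃ ξ ∈ Y, ξ ∈ B ∩ A
    · obtain ⟨C, c1, c2, c3⟩ := hd _ (inter_mem' h.ctm hB.1 (hH.1 hA).1)
        (fun ξ hξ => (mem_inter.1 hξ).2) hh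
      exact key C (h.ctm.trans _ hD _ c1) (fun ξ hξ => (mem_inter.1 (c2 hξ)).1) c3 (Or.inl c1)
    · push Not at hh
      obtain ⟨Y0, hY0, h4⟩ := hh
      refine key (B \ A) (sdiff_mem' h.ctm hB.1 (hH.1 hA).1) (fun ξ hξ => (mem_sdiff.1 hξ).1)
        (fun Y hY => ?_) (Or.inr fun ξ hξ => (mem_sdiff.1 hξ).2)
      obtain ⟨Z, hZ, h5, h6⟩ := h.inter Y hY Y0 hY0
      obtain ⟨ξ, hξ, h7⟩ := (h.pos_iff hI hB.1 hB.2.1).1 hB.2.2 Z hZ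
      exact ⟨ξ, h5 hξ, mem_sdiff.2 ⟨h7, fun h8 => h4 ξ (h6 hξ) (mem_inter.2 ⟨h7, h8⟩)⟩⟩
  rcases ((h2 C).1 hC).2 with h4 | h4
  · exact ⟨C, h4, h3⟩
  · obtain ⟨Y, hY, -⟩ := h.tail _ h.om
    obtain ⟨ξ, -, hξ⟩ := h.g_pos hI hH (h.g_inter hI hH h3 hA) Y hY
    exact absurd (mem_inter.1 hξ).2 (h4 ξ (mem_inter.1 hξ).1)

theorem g_top : κ ∈ H := by
  obtain ⟨A, hA⟩ := hH.2.1
  exact h.g_up hI hH hA h.kmem (hH.1 hA).2.1 subset_rfl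

theorem normalUF : IsNormalUF W κ H := by
  obtain ⟨p, hp, h1⟩ := h.ctm.power κ h.kmem
  refine ⟨fun A hA => ⟨(hH.1 hA).1, (hH.1 hA).2.1⟩, h.g_top hI hH,
    fun A hA B hB => h.g_inter hI hH hA hB, fun A hA B hB h2 h3 => h.g_up hI hH hA hB h2 h3,
    fun A hA hAκ => ?_, fun β hβ h2 => (hH.1 h2).2.2 ((h.isIdeal hI).2.2.2.2.1 β hβ),
    fun f hf hfun A hA hreg => ?_⟩
  · obtain ⟨D, hD, h2⟩ := sep1 h.ctm (fun _ C A => C ⊆ A ∨ ∀ ξ ∈ C, ξ ∉ A) hp hA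
    obtain ⟨C, hC, h3⟩ := h.g_dense hI hH (h.g_top hI hH) hD fun B hB h3 h4 => by
      by_cases hh : ∀ Y ∈ u, ∃ ξ ∈ Y, ξ ∈ B ∩ A
      · exact ⟨B ∩ A, (h2 _).2 ⟨(h1 _ (inter_mem' h.ctm hB hA)).2
          fun ξ hξ => h3 (mem_inter.1 hξ).1, Or.inl fun ξ hξ => (mem_inter.1 hξ).2⟩,
          fun ξ hξ => (mem_inter.1 hξ).1, hh⟩
      · push Not at hh
        obtain ⟨Y0, hY0, h5⟩ := hh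
        refine ⟨B \ A, (h2 _).2 ⟨(h1 _ (sdiff_mem' h.ctm hB hA)).2
          fun ξ hξ => h3 (mem_sdiff.1 hξ).1, Or.inr fun ξ hξ => (mem_sdiff.1 hξ).2⟩,
          fun ξ hξ => (mem_sdiff.1 hξ).1, fun Y hY => ?_⟩
        obtain ⟨Z, hZ, h6, h7⟩ := h.inter Y hY Y0 hY0
        obtain ⟨ξ, hξ, h8⟩ := h4 Z hZ
        exact ⟨ξ, h6 hξ, mem_sdiff.2 ⟨h8, fun h9 => h5 ξ (h7 hξ) (mem_inter.2 ⟨h8, h9⟩)⟩⟩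
    rcases ((h2 C).1 hC).2 with h4 | h4
    · exact Or.inl (h.g_up hI hH h3 hA h4 hAκ)
    · exact Or.inr (h.g_up hI hH h3 (sdiff_mem' h.ctm h.kmem hA)
        (fun ξ hξ => mem_sdiff.2 ⟨(hH.1 h3).2.1 hξ, h4 ξ hξ⟩) fun ξ hξ => (mem_sdiff.1 hξ).1)
  · obtain ⟨D, hD, h2⟩ := sep2 h.ctm (fun _ C κ f => ∃ β ∈ κ, ∀ ξ ∈ C, pair ξ β ∈ f) hp h.kmem hf
    obtain ⟨C, hC, h3⟩ := h.g_dense hI hH hA hD fun B hB h3 h4 => by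
      obtain ⟨E, hE, -, h5⟩ := rel2 h.ctm (fun _ β ξ f B => ξ ∈ B ∧ pair ξ β ∈ f)
        h.kmem h.kmem hf hB
      by_contra hcon
      obtain ⟨Y, hY, h6⟩ := h.norm E hE fun β hβ => by
        by_contra h6
        push Not at h6
        obtain ⟨C, hC, h7⟩ := sep2 h.ctm (fun _ ξ β f => pair ξ β ∈ f) hB
          (h.ctm.trans _ h.kmem _ hβ) hf
        refine hcon ⟨C, (h2 C).2 ⟨(h1 C hC).2 fun ξ hξ => (hH.1 hA).2.1 (h3 ((h7 ξ).1 hξ).1),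
          β, hβ, fun ξ hξ => ((h7 ξ).1 hξ).2⟩, fun ξ hξ => ((h7 ξ).1 hξ).1, fun Y hY => ?_⟩
        obtain ⟨ξ, hξ, h8⟩ := h6 Y hY
        exact ⟨ξ, hξ, (h7 ξ).2 ((h5 _ _).1 h8).2.2⟩
      obtain ⟨ξ, hξ, h7⟩ := h4 Y hY
      obtain ⟨y, hy, -⟩ := hfun.2 ξ (h.sub _ hY hξ)
      exact h6 ξ hξ y (hreg ξ (h3 h7) y hy)
        ((h5 _ _).2 ⟨(pair_mem_prod.1 (hfun.1 hy)).2, h.sub _ hY hξ, h7, hy⟩)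
    obtain ⟨β, -, h4⟩ := ((h2 C).1 hC).2
    exact ⟨β, C, h3, h4⟩

theorem ultWF : UltWF W κ H := by
  obtain ⟨p, hp, h1⟩ := h.ctm.power κ h.kmem
  unfold UltWF
  rw [wellFounded_iff_isEmpty_descending_chain]
  refine ⟨fun ⟨f, hf⟩ => ?_⟩
  choose A hA hA' using hf
  obtain ⟨r, hr, θ, hθ, Fn, hFn, ⟨α0, r1⟩, r2, r3, r4, r5, r6, r7⟩ := h.wf _ (f 0).2.1
  have hpf : ∀ n, IsPFun (f n).1 := fun n => by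
    obtain ⟨b, hb⟩ := (f n).2.2
    exact isFunc_pfun hb
  have hB : ∀ n, ∃ B ∈ H, ∀ ξ ∈ B, ∃ a, pair ξ a ∈ (f n).1 ∧ ∃ α, pair a α ∈ r := by
    intro n
    induction n with
    | zero =>
      refine ⟨κ, h.g_top hI hH, fun ξ hξ => ?_⟩
      obtain ⟨b, hb⟩ := (f 0).2.2
      obtain ⟨a, ha, -⟩ := hb.2 ξ hξ
      obtain ⟨α1, -, a1⟩ := r2 _ _ r1 _ ha
      obtain ⟨α2, -, a2⟩ := r2 _ _ a1 {ξ, a} (by simp [pair])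
      obtain ⟨α3, -, a3⟩ := r2 _ _ a2 a (by simp)
      exact ⟨a, ha, α3, a3⟩
    | succ n ih =>
      obtain ⟨B, h2, h3⟩ := ih
      refine ⟨_, h.g_inter hI hH h2 (hA n), fun ξ hξ => ?_⟩
      obtain ⟨a, a1, α, a2⟩ := h3 ξ (mem_inter.1 hξ).1
      obtain ⟨x, y, a3, a4, a5⟩ := hA' n ξ (mem_inter.1 hξ).2
      obtain ⟨β, -, a6⟩ := r2 _ _ a2 x (hpf n _ _ _ a4 a1 ▸ a5)
      exact ⟨x, a3, β, a6⟩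
  have hC : ∀ n, ∃ C ∈ H, ∃ g ∈ Fn, ∀ ξ ∈ C, ∃ α, pair ξ α ∈ g ∧
      ∃ a, pair ξ a ∈ (f n).1 ∧ pair a α ∈ r ∧ ∀ β ∈ α, pair a β ∉ r := by
    intro n
    obtain ⟨B, h2, h3⟩ := hB n
    obtain ⟨k, hk, -, h4⟩ := rel2 h.ctm (fun _ ξ α f r =>
      ∃ a, pair ξ a ∈ f ∧ pair a α ∈ r ∧ ∀ β ∈ α, ¬ pair a β ∈ r) h.kmem hθ (f n).2.1 hr
    obtain ⟨D, hD, h5⟩ := sep2 h.ctm (fun _ C Fn k => ∃ g ∈ Fn, ∀ ξ ∈ C, ∃ α, pair ξ α ∈ g ∧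
      pair ξ α ∈ k) hp hFn hk
    obtain ⟨C, hC, h6⟩ := h.g_dense hI hH h2 hD fun B' hB' h6 h7 => by
      obtain ⟨k', hk', -, h8⟩ := rel2 h.ctm (fun _ ξ α k _ => pair ξ α ∈ k) hB' hθ hk hk
      obtain ⟨g, hg, h9⟩ := r6 k' hk' fun Y hY => by
        obtain ⟨ξ, hξ, h9⟩ := h7 Y hY
        obtain ⟨a, a1, α, a2⟩ := h3 ξ (h6 h9)
        obtain ⟨β, a3, a4⟩ := exists_min_mem (fun β => pair a β ∈ r) a2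
        exact ⟨ξ, hξ, β, r4 _ _ a3, (h8 _ _).2 ⟨h9, r4 _ _ a3,
          (h4 _ _).2 ⟨h.sub _ hY hξ, r4 _ _ a3, a, a1, a3, a4⟩⟩⟩
      obtain ⟨C, hC, h10⟩ := sep2 h.ctm (fun _ ξ g k => ∃ α, pair ξ α ∈ g ∧ pair ξ α ∈ k) hB'
        (h.ctm.trans _ hFn _ hg) hk
      refine ⟨C, (h5 C).2 ⟨(h1 C hC).2 fun ξ hξ => (hH.1 h2).2.1 (h6 ((h10 ξ).1 hξ).1),
        g, hg, fun ξ hξ => ((h10 ξ).1 hξ).2⟩, fun ξ hξ => ((h10 ξ).1 hξ).1, fun Y hY => ?_⟩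
      obtain ⟨ξ, hξ, y, a1, a2⟩ := h9 Y hY
      exact ⟨ξ, hξ, (h10 ξ).2 ⟨((h8 _ _).1 a1).1, y, a2, ((h8 _ _).1 a1).2.2⟩⟩
    obtain ⟨g, hg, h7⟩ := ((h5 C).1 hC).2
    exact ⟨C, h6, g, hg, fun ξ hξ => (h7 ξ hξ).imp fun α h8 => ⟨h8.1, ((h4 _ _).1 h8.2).2.2⟩⟩
  choose C hC g hg hg' using hC
  refine r7 g hg fun n Y hY => ?_
  obtain ⟨ξ, hξ, h2⟩ := h.g_pos hI hH
    (h.g_inter hI hH (hA n) (h.g_inter hI hH (hC n) (hC (n + 1)))) Y hY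
  simp only [mem_inter] at h2
  obtain ⟨x, y, a1, a2, a3⟩ := hA' n ξ h2.1
  obtain ⟨α, b1, a, b2, b3, -⟩ := hg' n ξ h2.2.1
  obtain ⟨α', c1, a', c2, c3, c4⟩ := hg' (n + 1) ξ h2.2.2
  rw [hpf _ _ _ _ a1 c2, hpf _ _ _ _ a2 b2] at a3
  obtain ⟨β, d1, d2⟩ := r2 _ _ b3 _ a3
  refine ⟨ξ, hξ, α', c1, α, b1, ?_⟩
  rcases (r3.mem (r4 _ _ d2)).mem_trichotomous (r3.mem (r4 _ _ c3)) with e | e | e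
  · exact absurd d2 (c4 β e)
  · exact e ▸ d1
  · exact (r3.mem (r4 _ _ b3)).mem_trans e d1

end Kak

theorem Kak.precipitous {W : Set ZFSet.{0}} {κ u I : ZFSet.{0}} (h : Kak W κ u)
    (hI : DualTo W κ u I) : Precipitous W κ I := fun H hH => h.ultWF hI hH

theorem Kak.genMeasurable {W : Set ZFSet.{0}} {κ u : ZFSet.{0}} (h : Kak W κ u) :
    ∃ P R, ClosedForcing W omega P R ∧ GenMeasurable W κ P R := by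
  obtain ⟨I, hI⟩ := h.exists_dual
  obtain ⟨p, hp, h1⟩ := h.ctm.power κ h.kmem
  obtain ⟨P, hP, h2⟩ := sep1 h.ctm (fun _ A I => A ∉ I) hp hI.1
  have h3 : ∀ A, A ∈ P ↔ A ∈ W ∧ A ⊆ κ ∧ A ∉ I := fun A => by
    rw [h2]
    exact ⟨fun h3 => ⟨h.ctm.trans _ hp _ h3.1, (h1 _ (h.ctm.trans _ hp _ h3.1)).1 h3.1, h3.2⟩,
      fun h3 => ⟨(h1 _ h3.1).2 h3.2.1, h3.2.2⟩⟩
  obtain ⟨R, hR, -, h4⟩ := rel2 h.ctm (fun _ A B u _ => ∃ Y ∈ u, ∀ ξ ∈ Y, ξ ∈ A → ξ ∈ B)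
    hP hP h.umem h.umem
  have h5 : ∀ A ∈ P, ∀ B ∈ P, pair A B ∈ R ↔ A \ B ∈ I := fun A hA B hB => by
    rw [h4, hI.2]
    simp only [hA, hB, true_and, mem_sdiff, not_and, not_not]
    exact ⟨fun h5 => ⟨sdiff_mem' h.ctm ((h3 A).1 hA).1 ((h3 B).1 hB).1,
      fun ξ hξ => ((h3 A).1 hA).2.1 (mem_sdiff.1 hξ).1, h5⟩, fun h5 => h5.2.2⟩
  have hk : κ ∈ P := (h3 κ).2 ⟨h.kmem, subset_rfl, (h.isIdeal hI).2.2.1⟩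
  have hrefl : ∀ A ∈ P, pair A A ∈ R := fun A hA => by
    obtain ⟨Y, hY, -⟩ := h.tail _ h.om
    exact (h4 _ _).2 ⟨hA, hA, Y, hY, fun _ _ h => h⟩
  obtain ⟨Un, hUn, -, h6⟩ := rel2 h.ctm (fun _ A B _ _ => A = B) hP hP hP hP
  refine ⟨P, R, ⟨hP, hR, fun e => ZFSet.notMem_empty κ (e ▸ hk), hrefl, fun a b c hab hbc => ?_,
    fun α hα s _ hs hdec => ?_⟩, Un, hUn, fun H hH => ?_⟩
  · obtain ⟨a1, -, Y, hY, a2⟩ := (h4 _ _).1 hab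
    obtain ⟨-, a3, Y', hY', a4⟩ := (h4 _ _).1 hbc
    obtain ⟨Z, hZ, a5, a6⟩ := h.inter Y hY Y' hY'
    exact (h4 _ _).2 ⟨a1, a3, Z, hZ, fun ξ hξ a7 => a4 ξ (a6 hξ) (a2 ξ (a5 hξ) a7)⟩
  · obtain ⟨n, rfl⟩ := mem_omega.1 hα
    cases n with
    | zero => exact ⟨κ, hk, fun ξ hξ => absurd hξ (ZFSet.notMem_empty ξ)⟩
    | succ n =>
      have a1 : nat n ∈ nat (n + 1) := nat_mem_nat.2 (Nat.lt_succ_self n)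
      obtain ⟨r, hr, -⟩ := hs.2 _ a1
      refine ⟨r, (pair_mem_prod.1 (hs.1 hr)).2, fun ξ hξ q hq => ?_⟩
      rcases ZFSet.mem_insert_iff.1 hξ with rfl | a2
      · rw [isFunc_pfun hs _ _ _ hr hq]
        exact hrefl _ (pair_mem_prod.1 (hs.1 hq)).2
      · exact hdec _ a1 ξ a2 r q hr hq
  · have e1 : {p | p ∈ P} = {A | A ∈ W ∧ A ⊆ κ ∧ A ∉ I} := Set.ext h3
    have e2 : {A | ∃ q ∈ H, pair A q ∈ Un} = H := Set.ext fun A =>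
      ⟨fun ⟨q, hq, a⟩ => ((h6 _ _).1 a).2.2 ▸ hq,
        fun hA => ⟨A, hA, (h6 _ _).2 ⟨hH.1 hA, hH.1 hA, rfl⟩⟩⟩
    have hH' : IsGeneric W {A | A ∈ W ∧ A ⊆ κ ∧ A ∉ I} (fun A B => A \ B ∈ I) H := by
      rw [← e1]
      obtain ⟨g1, g2, g3, g4, g5⟩ := hH
      refine ⟨g1, g2, fun p hp q hq a => g3 p hp q hq ((h5 p (g1 hp) q hq).2 a),
        fun p hp q hq => ?_, fun D hD hd => g5 D hD fun p hp => ?_⟩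
      · obtain ⟨r, hr, a, b⟩ := g4 p hp q hq
        exact ⟨r, hr, (h5 r (g1 hr) p (g1 hp)).1 a, (h5 r (g1 hr) q (g1 hq)).1 b⟩
      · obtain ⟨q, a, b, c⟩ := hd p hp
        exact ⟨q, a, b, (h5 q b p hp).2 c⟩
    rw [e2]
    exact ⟨h.normalUF hI hH', h.ultWF hI hH'⟩

end Pool.Agent.H3Z
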