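import Pool.Agent.H3Z.Ladder
import Pool.Agent.H30Z.Forc.Posets

/-! A countably closed forcing with the chain condition of a measurable cardinal, which collapses
and makes promises. -/

set_option linter.unusedSectionVars false
set_option linter.unusedVariables false

namespace Pool.Agent.H3Z

open Cardinal Set Pool.Agent.H30Z.Forc

variable {X : Type} [LinearOrder X] [WellFoundedLT X] {U : Ultrafilter X}

/-- promises: indices, bits, exceptions -/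
abbrev Prom (X : Type) := (ℕ → X) × (ℕ → Prop) × Set X

/-- conditions -/
structure RP (X : Type) [LinearOrder X] where
  b : Set X
  F : X → X → X
  S : Set (Prom X)
  bc : b.Countable
  Sc : S.Countable
  le : ∀ i β, F i β ≤ i
  mono : ∀ π ∈ S, StrictMono π.1
  mem : ∀ π ∈ S, ∀ n, π.1 n ∈ b
  exc : ∀ π ∈ S, ∀ y ∈ π.2.2, ∃ n, y < π.1 n
  kept : ∀ π ∈ S, ∀ β ∈ b, β ∉ π.2.2 → ∃ n, ¬ (F (π.1 n) β = π.1 n ↔ π.2.1 n)

instance : Preorder (RP X) where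
  le q p := p.b ⊆ q.b ∧ (∀ i ∈ p.b, ∀ β ∈ p.b, q.F i β = p.F i β) ∧ p.S ⊆ q.S
  le_refl _ := ⟨subset_rfl, fun _ _ _ _ => rfl, subset_rfl⟩
  le_trans _ _ _ h1 h2 := ⟨h2.1.trans h1.1, fun i hi β hβ =>
    (h1.2.1 i (h2.1 hi) β (h2.1 hβ)).trans (h2.2.1 i hi β hβ), h2.2.2.trans h1.2.2⟩

instance : OrderTop (RP X) where
  top := ⟨∅, fun i _ => i, ∅, countable_empty, countable_empty, fun _ _ => le_rfl,
    fun _ h => h.elim, fun _ h => h.elim, fun _ h => h.elim, fun _ h => h.elim⟩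
  le_top _ := ⟨empty_subset _, fun _ h => h.elim, empty_subset _⟩

theorem diag_prom (S : Set (Prom X)) (hS : S.Countable) (Z : Set X)
    (hm : ∀ π ∈ S, StrictMono π.1) (hZ : ∀ π ∈ S, {n | π.1 n ∉ Z}.Infinite) :
    ∃ w : X → X, (∀ i, w i ≤ i) ∧ ∀ π ∈ S, ∃ n, π.1 n ∉ Z ∧ ¬ (w (π.1 n) = π.1 n ↔ π.2.1 n) := by
  classical
  rcases S.eq_empty_or_nonempty with rfl | hne
  · exact ⟨id, fun _ => le_rfl, fun _ h => h.elim⟩
  obtain ⟨e, rfl⟩ := hS.exists_eq_range hne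
  obtain ⟨n, hn⟩ := tdc (J := ℕ) (Y := ℕ)
    (fun k g m => (e k).1 m ∉ Z ∧ 0 < m ∧ ∀ j hj, (e k).1 m ≠ (e j).1 (g j hj)) (by
      intro k f _
      have h1 := (hZ _ ⟨k, rfl⟩).image (hm _ ⟨k, rfl⟩).injective.injOn
      obtain ⟨_, ⟨m, h2, rfl⟩, h3⟩ := h1.exists_notMem_finite
        (((finite_Iio k).image fun j => (e j).1 (f j)).insert ((e k).1 0))
      refine ⟨m, h2, Nat.pos_of_ne_zero ?_, fun j hj e' => h3 (Or.inr ⟨j, hj, e'.symm⟩)⟩
      rintro rfl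
      exact h3 (Or.inl rfl))
  have hinj : ∀ k j, (e k).1 (n k) = (e j).1 (n j) → k = j := by
    intro k j h
    rcases lt_trichotomy k j with h1 | h1 | h1
    · exact absurd h.symm ((hn j).2.2 k h1)
    · exact h1
    · exact absurd h ((hn k).2.2 j h1)
  refine ⟨fun i => if h : ∃ k, i = (e k).1 (n k) ∧ (e k).2.1 (n k) then (e h.choose).1 0 else i,
    fun i => ?_, ?_⟩
  · by_cases h : ∃ k, i = (e k).1 (n k) ∧ (e k).2.1 (n k)
    · simp only [dif_pos h]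
      conv_rhs => rw [h.choose_spec.1]
      exact (hm _ ⟨_, rfl⟩).monotone (Nat.zero_le _)
    · simp only [dif_neg h, le_rfl]
  · rintro _ ⟨k, rfl⟩
    refine ⟨n k, (hn k).1, ?_⟩
    by_cases h : ∃ j, (e k).1 (n k) = (e j).1 (n j) ∧ (e j).2.1 (n j)
    · simp only [dif_pos h]
      have e1 := hinj _ _ h.choose_spec.1
      have e2 := h.choose_spec.2
      rw [← e1] at e2 ⊢
      exact fun h1 => (hm _ ⟨k, rfl⟩ (hn k).2.1).ne (h1.2 e2)
    · simp only [dif_neg h, true_iff]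
      exact fun h1 => h ⟨k, rfl, h1⟩

theorem RP.amalg (p q : RP X) (hF : ∀ i ∈ p.b ∩ q.b, ∀ β ∈ p.b ∩ q.b, p.F i β = q.F i β)
    (hp : ∀ π ∈ p.S, π ∉ q.S → {n | π.1 n ∉ q.b}.Infinite)
    (hq : ∀ π ∈ q.S, π ∉ p.S → {n | π.1 n ∉ p.b}.Infinite) : ∃ r, r ≤ p ∧ r ≤ q := by
  classical
  obtain ⟨wp, hp1, hp2⟩ := diag_prom (p.S \ q.S) (p.Sc.mono sdiff_subset) q.b
    (fun π h => p.mono π h.1) (fun π h => hp π h.1 h.2)
  obtain ⟨wq, hq1, hq2⟩ := diag_prom (q.S \ p.S) (q.Sc.mono sdiff_subset) p.b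
    (fun π h => q.mono π h.1) (fun π h => hq π h.1 h.2)
  let F : X → X → X := fun i β => if i ∈ p.b ∧ β ∈ p.b then p.F i β else
    if i ∈ q.b ∧ β ∈ q.b then q.F i β else if i ∈ p.b then wp i else wq i
  have e1 : ∀ i ∈ p.b, ∀ β ∈ p.b, F i β = p.F i β := fun i hi β hβ => if_pos ⟨hi, hβ⟩
  have e2 : ∀ i ∈ q.b, ∀ β ∈ q.b, F i β = q.F i β := by
    intro i hi β hβ
    by_cases h : i ∈ p.b ∧ β ∈ p.b
    · rw [e1 i h.1 β h.2, hF i ⟨h.1, hi⟩ β ⟨h.2, hβ⟩]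
    · simp only [F, if_neg h, if_pos (And.intro hi hβ)]
  have k1 : ∀ π ∈ p.S, ∀ β ∈ p.b, β ∉ π.2.2 → ∃ n, ¬ (F (π.1 n) β = π.1 n ↔ π.2.1 n) := by
    intro π hπ β hβ h
    obtain ⟨n, hn⟩ := p.kept π hπ β hβ h
    exact ⟨n, by rwa [e1 _ (p.mem π hπ n) β hβ]⟩
  have k2 : ∀ π ∈ q.S, ∀ β ∈ q.b, β ∉ π.2.2 → ∃ n, ¬ (F (π.1 n) β = π.1 n ↔ π.2.1 n) := by
    intro π hπ β hβ h
    obtain ⟨n, hn⟩ := q.kept π hπ β hβ h
    exact ⟨n, by rwa [e2 _ (q.mem π hπ n) β hβ]⟩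
  refine ⟨⟨p.b ∪ q.b, F, p.S ∪ q.S, p.bc.union q.bc, p.Sc.union q.Sc, fun i β => ?_,
    fun π h => h.elim (p.mono π) (q.mono π),
    fun π h n => h.elim (fun h => Or.inl (p.mem π h n)) (fun h => Or.inr (q.mem π h n)),
    fun π h => h.elim (p.exc π) (q.exc π), ?_⟩,
    ⟨subset_union_left, e1, subset_union_left⟩, ⟨subset_union_right, e2, subset_union_right⟩⟩
  · simp only [F]
    split_ifs
    exacts [p.le _ _, q.le _ _, hp1 _, hq1 _]
  · intro π hπ β hβ h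
    by_cases a1 : π ∈ p.S <;> by_cases a2 : π ∈ q.S
    · exact hβ.elim (fun hβ => k1 π a1 β hβ h) (fun hβ => k2 π a2 β hβ h)
    · by_cases a3 : β ∈ p.b
      · exact k1 π a1 β a3 h
      · obtain ⟨n, h1, h2⟩ := hp2 π ⟨a1, a2⟩
        refine ⟨n, ?_⟩
        simp only [F, a3, h1, and_false, false_and, if_false, if_pos (p.mem π a1 n)]
        exact h2
    · by_cases a3 : β ∈ q.b
      · exact k2 π a2 β a3 h
      · obtain ⟨n, h1, h2⟩ := hq2 π ⟨a2, a1⟩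
        refine ⟨n, ?_⟩
        simp only [F, a3, h1, and_false, false_and, if_false]
        exact h2
    · exact absurd hπ (fun h => h.elim a1 a2)

theorem RP.extend (p : RP X) {x i v : X} (hx : x ∉ p.b) (hv : v ≤ i) :
    ∃ r, r ≤ p ∧ x ∈ r.b ∧ i ∈ r.b ∧ r.F i x = v := by
  classical
  let q : RP X := ⟨{x, i}, fun j β => if β = x ∧ j = i then v else p.F j β, ∅, to_countable _,
    countable_empty, fun j β => by
      split_ifs with h
      · rw [h.2]; exact hv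
      · exact p.le _ _,
    fun _ h => h.elim, fun _ h => h.elim, fun _ h => h.elim, fun _ h => h.elim⟩
  obtain ⟨r, h1, h2⟩ := p.amalg q (fun j _ β hβ => by
      have : ¬ (β = x ∧ j = i) := fun h => hx (h.1 ▸ hβ.1)
      simp only [q, if_neg this])
    (fun π hπ _ => by
      have : {n | π.1 n ∈ q.b}.Finite := (toFinite ({x, i} : Set X)).preimage
        (p.mono π hπ).injective.injOn
      exact this.infinite_compl)
    (fun _ h => h.elim)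
  have a1 : x ∈ q.b := Or.inl rfl
  have a2 : i ∈ q.b := Or.inr rfl
  exact ⟨r, h1, h2.1 a1, h2.1 a2, (h2.2.1 i a2 x a1).trans (if_pos ⟨rfl, rfl⟩)⟩

theorem RP.lb (s : ℕ → RP X) (hs : Antitone s) : ∃ q : RP X, q.b = ⋃ n, (s n).b ∧ ∀ n, q ≤ s n := by
  classical
  let F : X → X → X := fun i β =>
    if h : ∃ n, i ∈ (s n).b ∧ β ∈ (s n).b then (s h.choose).F i β else i
  have e1 : ∀ n, ∀ i ∈ (s n).b, ∀ β ∈ (s n).b, F i β = (s n).F i β := by
    intro n i hi β hβ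
    have h : ∃ n, i ∈ (s n).b ∧ β ∈ (s n).b := ⟨n, hi, hβ⟩
    simp only [F, dif_pos h]
    rw [← (hs (le_max_left n h.choose)).2.1 i hi β hβ,
      ← (hs (le_max_right n h.choose)).2.1 i h.choose_spec.1 β h.choose_spec.2]
  refine ⟨⟨⋃ n, (s n).b, F, ⋃ n, (s n).S, countable_iUnion fun n => (s n).bc,
    countable_iUnion fun n => (s n).Sc, fun i β => ?_, fun π h => ?_, fun π h n => ?_,
    fun π h => ?_, fun π h β hβ h' => ?_⟩, rfl,
    fun n => ⟨subset_iUnion (fun n => (s n).b) n, e1 n, subset_iUnion (fun n => (s n).S) n⟩⟩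
  · simp only [F]
    split_ifs
    exacts [(s _).le _ _, le_rfl]
  · obtain ⟨k, hk⟩ := mem_iUnion.1 h
    exact (s k).mono π hk
  · obtain ⟨k, hk⟩ := mem_iUnion.1 h
    exact mem_iUnion.2 ⟨k, (s k).mem π hk n⟩
  · obtain ⟨k, hk⟩ := mem_iUnion.1 h
    exact (s k).exc π hk
  · obtain ⟨k, hk⟩ := mem_iUnion.1 h
    obtain ⟨m, hm⟩ := mem_iUnion.1 hβ
    have a1 := (hs (le_max_left k m)).2.2 hk
    have a2 := (hs (le_max_right k m)).1 hm
    obtain ⟨n, hn⟩ := (s _).kept π a1 β a2 h'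
    exact ⟨n, by rwa [e1 _ _ ((s _).mem π a1 n) β a2]⟩

theorem RP.closed : SigmaClosed (RP X) := fun s hs =>
  let ⟨q, _, h⟩ := RP.lb s hs
  ⟨q, h⟩

theorem RP.promise (p : RP X) (i : ℕ → X) (m : ℕ → Prop) (h1 : StrictMono i) (h2 : ∀ n, i n ∈ p.b)
    (h3 : ∀ y ∈ p.b, ∃ n, y < i n) : ∃ q, q ≤ p ∧ (i, m, p.b) ∈ q.S :=
  ⟨⟨p.b, p.F, insert (i, m, p.b) p.S, p.bc, p.Sc.insert _, p.le,
    by rintro _ (rfl | h); exacts [h1, p.mono _ h],
    by rintro _ (rfl | h); exacts [h2, p.mem _ h],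
    by rintro _ (rfl | h); exacts [h3, p.exc _ h],
    by rintro _ (rfl | h); exacts [fun β hβ h' => absurd hβ h', p.kept _ h]⟩,
    ⟨subset_rfl, fun _ _ _ _ => rfl, subset_insert _ _⟩, Or.inl rfl⟩

theorem RP.cc (h : Nrm X U) (p : X → RP X) : ∃ x y, x < y ∧ ∃ r, r ≤ p x ∧ r ≤ p y := by
  classical
  have hne : Nonempty X := Cardinal.mk_ne_zero_iff.1 (aleph0_pos.trans h.unc).ne'
  have h1 : ∀ x, ∃ e : ℕ → X, (p x).b ⊆ range e := fun x => countable_iff_exists_subset_range.1 (p x).bc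
  choose e he using h1
  have h2 : ∀ n, ∃ y, {x | e x n < x → e x n = y} ∈ U := by
    intro n
    by_cases hn : {x | e x n < x} ∈ U
    · obtain ⟨y, hy⟩ := h.norm _ hn
      exact ⟨y, Filter.mem_of_superset hy fun x hx _ => hx⟩
    · exact ⟨hne.some, Filter.mem_of_superset (Ultrafilter.compl_mem_iff_notMem.2 hn)
        fun x hx h' => absurd h' hx⟩
  choose y hy using h2
  obtain ⟨c, hc⟩ := h.bdd_ctble (countable_range y)
  have h3 : ∀ z : X × X, ∃ v, {x | (p x).F z.1 z.2 = v} ∈ U := fun z => by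
    obtain ⟨v, -, hv⟩ := h.const (h.iic z.1) (fun x => (p x).F z.1 z.2)
      (Filter.mem_of_superset Filter.univ_mem fun x _ => (p x).le _ _)
    exact ⟨v, hv⟩
  choose v hv using h3
  have h4 : ∀ π : Prom X, ∃ t : Prop, {x | (π ∈ (p x).S) = t} ∈ U := fun π =>
    h.const' (by rw [mk_Prop]; exact (natCast_lt_aleph0 (n := 2)).trans h.unc) _
  choose t ht using h4
  have s1 : #(Iio c ×ˢ Iio c : Set (X × X)) < #X := by
    rw [mk_setProd]; exact Cardinal.mul_lt_of_lt h.unc.le (h.iio c) (h.iio c)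
  have s2 : #{π : Prom X | (∀ n, π.1 n < c) ∧ π.2.2 ⊆ Iio c} < #X := by
    have a1 : #(ℕ × Iio c) < #X := by
      simp only [mk_prod, lift_id, mk_nat]
      exact Cardinal.mul_lt_of_lt h.unc.le h.unc (h.iio c)
    have a2 : #(Set (ℕ × Iio c) × Set ℕ × Set (Iio c)) < #X := by
      simp only [mk_prod, lift_id]
      exact Cardinal.mul_lt_of_lt h.unc.le (h.slim a1) (Cardinal.mul_lt_of_lt h.unc.le
        (h.slim (by rw [mk_nat]; exact h.unc)) (h.slim (h.iio c)))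
    refine (mk_le_of_injective (f := fun π => (({z | π.1.1 z.1 = z.2.1}, {n | π.1.2.1 n},
      Subtype.val ⁻¹' π.1.2.2) : Set (ℕ × Iio c) × Set ℕ × Set (Iio c))) ?_).trans_lt a2
    rintro ⟨⟨i, m, E⟩, a3, a4⟩ ⟨⟨i', m', E'⟩, a5, a6⟩ hh
    simp only [Prod.mk.injEq] at hh
    obtain ⟨b1, b2, b3⟩ := hh
    simp only [Subtype.mk.injEq, Prod.mk.injEq]
    refine ⟨funext fun n => ((Set.ext_iff.1 b1 (n, ⟨i n, a3 n⟩)).1 rfl).symm,
      funext fun n => propext (Set.ext_iff.1 b2 n), Set.ext fun z => ⟨fun hz => ?_, fun hz => ?_⟩⟩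
    · exact (Set.ext_iff.1 b3 ⟨z, a4 hz⟩).1 hz
    · exact (Set.ext_iff.1 b3 ⟨z, a6 hz⟩).2 hz
  have hY := Filter.inter_mem (h.nat _ hy) (Filter.inter_mem (h.bcomp s1 _ fun z _ => hv z)
    (h.bcomp s2 _ fun π _ => ht π))
  obtain ⟨x, hx⟩ := Ultrafilter.nonempty_of_mem hY
  obtain ⟨d, hd⟩ := h.bdd_ctble ((p x).bc.insert x)
  obtain ⟨z, hz, hdz⟩ := h.exists_gt hY d
  have hint : ∀ i ∈ (p x).b ∩ (p z).b, i < c := by
    intro i hi
    obtain ⟨n, rfl⟩ := he z hi.2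
    rw [mem_iInter.1 hz.1 n ((hd _ (Or.inr hi.1)).trans hdz)]
    exact hc _ ⟨n, rfl⟩
  have key : ∀ a a' : X, (∀ i ∈ (p a).b ∩ (p a').b, i < c) →
      (∀ π ∈ {π : Prom X | (∀ n, π.1 n < c) ∧ π.2.2 ⊆ Iio c}, (π ∈ (p a).S) = (π ∈ (p a').S)) →
      ∀ π ∈ (p a).S, π ∉ (p a').S → {n | π.1 n ∉ (p a').b}.Infinite := by
    intro a a' b1 b2 π hπ hπ'
    obtain ⟨n0, hn0⟩ : ∃ n0, c ≤ π.1 n0 := by
      by_contra hcon
      push Not at hcon
      refine hπ' (b2 π ⟨hcon, fun u hu => ?_⟩ ▸ hπ)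
      obtain ⟨n, hn⟩ := (p a).exc π hπ u hu
      exact hn.trans (hcon n)
    refine (Set.Ici_infinite n0).mono fun n hn hb => ?_
    exact absurd (b1 _ ⟨(p a).mem π hπ n, hb⟩)
      (not_lt.2 (hn0.trans (((p a).mono π hπ).monotone hn)))
  refine ⟨x, z, (hd x (Or.inl rfl)).trans hdz, (p x).amalg (p z) (fun i hi β hβ => ?_)
    (key x z hint fun π hπ => (hx.2.2 π hπ).trans (hz.2.2 π hπ).symm)
    (key z x (fun i hi => hint i hi.symm) fun π hπ => (hz.2.2 π hπ).trans (hx.2.2 π hπ).symm)⟩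
  exact (hx.2.1 (i, β) ⟨hint i hi, hint β hβ⟩).trans (hz.2.1 (i, β) ⟨hint i hi, hint β hβ⟩).symm

/-- small predense subsets of open sets -/
def SmallPre (P : Type) [Preorder P] (X : Type) : Prop :=
  ∀ D : Set P, (∀ p ∈ D, ∀ q, q ≤ p → q ∈ D) →
    ∃ A ⊆ D, #A < #X ∧ ∀ d ∈ D, ∃ a ∈ A, ∃ r, r ≤ d ∧ r ≤ a

theorem smallPre_of_cc {P : Type} [Preorder P] [OrderTop P] (h : ∀ x : X, #(Iio x) < #X)
    (hcc : ∀ p : X → P, ∃ x y, x < y ∧ ∃ r, r ≤ p x ∧ r ≤ p y) : SmallPre P X := by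
  intro D hD
  by_contra hcon
  push Not at hcon
  have : Nonempty P := ⟨⊤⟩
  obtain ⟨f, hf⟩ := tdc (J := X) (Y := P)
    (fun j g d => d ∈ D ∧ ∀ i hi r, r ≤ d → ¬ r ≤ g i hi) (by
      intro j f ih
      obtain ⟨d, h1, h2⟩ := hcon (f '' Iio j) (by rintro _ ⟨i, hi, rfl⟩; exact (ih i hi).1)
        (mk_image_le.trans_lt (h j))
      exact ⟨d, h1, fun i hi => h2 _ ⟨i, hi, rfl⟩⟩)
  obtain ⟨x, y, h1, r, h2, h3⟩ := hcc f
  exact (hf y).2 x h1 r h3 h2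

/-- the raw cut given by a move -/
def raw : X ⊕ X → RP X → X → Prop
  | .inl i, p, x => p.F i x = i
  | .inr y, _, x => x = y

theorem raw_mono {mv : X ⊕ X} {p s : RP X} {x : X} (h : s ≤ p) (hx : x ∈ p.b)
    (hi : ∀ i, mv = .inl i → i ∈ p.b) : raw mv s x ↔ raw mv p x := by
  cases mv with
  | inl i => simp only [raw, h.2.1 i (hi i rfl) x hx]
  | inr y => rfl

/-- every strategy is defeated -/
theorem RP.kill (h : Cpl X U) (Acc : (ℕ → (X ⊕ X) × Prop) → ℕ → RP X → Prop)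
    (hA : ∀ d n p q, Acc d n p → q ≤ p → Acc d n q)
    (hA' : ∀ d d' n, (∀ k < n, d k = d' k) → (d n).1 = (d' n).1 → Acc d n = Acc d' n) (p : RP X) :
    ∃ q, q ≤ p ∧ ∃ d : ℕ → (X ⊕ X) × Prop,
      (∀ n, ((d n).2 → Acc d n q) ∧ (¬ (d n).2 → ∀ r, r ≤ q → ¬ Acc d n r)) ∧
      (∀ n i, (d n).1 = .inl i → i ∈ q.b) ∧
      ((∃ n y, (d n).1 = .inr y ∧ (d n).2) ∨
        ∀ r, r ≤ q → ∀ x ∈ r.b, ∃ k, ¬ (raw (d k).1 r x ↔ (d k).2)) := by
  classical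
  have hne : Nonempty X := Cardinal.mk_ne_zero_iff.1 (aleph0_pos.trans h.unc).ne'
  have : Nonempty (RP X) := ⟨p⟩
  let dd : (j : ℕ) → ((i : ℕ) → i < j → RP X × ((X ⊕ X) × Prop) × (ℕ → X)) → X ⊕ X →
      ℕ → (X ⊕ X) × Prop := fun j g mv k => if hk : k < j then (g k hk).2.1 else (mv, True)
  obtain ⟨f, hf⟩ := tdc (J := ℕ) (Y := RP X × ((X ⊕ X) × Prop) × (ℕ → X))
    (fun j g x => x.1 ≤ p ∧ (∀ i hi, x.1 ≤ (g i hi).1) ∧ x.1.b ⊆ range x.2.2 ∧
      (x.2.1.2 → Acc (dd j g x.2.1.1) j x.1) ∧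
      (¬ x.2.1.2 → ∀ r, r ≤ x.1 → ¬ Acc (dd j g x.2.1.1) j r) ∧
      (∀ t, j = 2 * t → ∃ i, x.2.1.1 = .inl i ∧ i ∈ x.1.b ∧ ∀ k hk, ∀ y ∈ (g k hk).1.b, y < i) ∧
      (∀ u v, j = 2 * Nat.pair u v + 1 → ∀ hu, x.2.1.1 = .inr ((g u hu).2.2 v))) (by
      intro j f ih
      obtain ⟨r, hr1, hr2⟩ : ∃ r, r ≤ p ∧ ∀ i < j, r ≤ (f i).1 := by
        cases j with
        | zero => exact ⟨p, le_rfl, fun i hi => absurd hi (Nat.not_lt_zero i)⟩
        | succ j =>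
          refine ⟨(f j).1, (ih j (Nat.lt_succ_self j)).1, fun i hi => ?_⟩
          rcases (Nat.lt_succ_iff.1 hi).lt_or_eq with h1 | rfl
          · exact (ih j (Nat.lt_succ_self j)).2.1 i h1
          · exact le_rfl
      obtain ⟨c, hc⟩ := h.bdd_ctble r.bc
      obtain ⟨r1, a1, a2, -⟩ := r.extend (x := c) (i := c) (v := c)
        (fun hh => lt_irrefl _ (hc c hh)) le_rfl
      let mv : X ⊕ X := if j % 2 = 0 then .inl c else .inr ((f (j / 2).unpair.1).2.2 (j / 2).unpair.2)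
      obtain ⟨r2, m, a3, a4, a5⟩ : ∃ r2, ∃ m : Prop, r2 ≤ r1 ∧
          (m → Acc (dd j (fun k _ => f k) mv) j r2) ∧
          (¬ m → ∀ r, r ≤ r2 → ¬ Acc (dd j (fun k _ => f k) mv) j r) := by
        by_cases hh : ∀ r, r ≤ r1 → ¬ Acc (dd j (fun k _ => f k) mv) j r
        · exact ⟨r1, False, le_rfl, False.elim, fun _ => hh⟩
        · simp only [not_forall, not_not] at hh
          obtain ⟨r2, b1, b2⟩ := hh
          exact ⟨r2, True, b1, fun _ => b2, fun h => absurd trivial h⟩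
      obtain ⟨e, he⟩ := countable_iff_exists_subset_range.1 r2.bc
      refine ⟨(r2, (mv, m), e), a3.trans (a1.trans hr1), fun i hi => a3.trans (a1.trans (hr2 i hi)),
        he, a4, a5, ?_, ?_⟩
      · rintro t rfl
        exact ⟨c, if_pos (by omega), a3.1 a2, fun k hk y hy => hc y ((hr2 k hk).1 hy)⟩
      · rintro u v rfl hu
        have e1 : (2 * Nat.pair u v + 1) / 2 = Nat.pair u v := by omega
        simp only [mv, e1, Nat.unpair_pair]
        exact if_neg (by omega))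
  have hanti : Antitone fun n => (f n).1 :=
    antitone_nat_of_succ_le fun n => (hf (n + 1)).2.1 n (Nat.lt_succ_self n)
  obtain ⟨q0, b1, b2⟩ := RP.lb _ hanti
  choose i hi1 hi2 hi3 using fun t => (hf (2 * t)).2.2.2.2.2.1 t rfl
  obtain ⟨q, b3, b4⟩ := q0.promise i (fun t => (f (2 * t)).2.1.2)
    (strictMono_nat_of_lt_succ fun t => hi3 (t + 1) (2 * t) (by omega) _ (hi2 t))
    (fun t => (b2 _).1 (hi2 t)) (fun y hy => by
      rw [b1] at hy
      obtain ⟨k, hk⟩ := mem_iUnion.1 hy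
      exact ⟨k + 1, hi3 (k + 1) k (by omega) y hk⟩)
  have hdd : ∀ n, Acc (dd n (fun k _ => f k) (f n).2.1.1) n = Acc (fun k => (f k).2.1) n :=
    fun n => hA' _ _ n (fun k hk => dif_pos hk) (by simp [dd])
  refine ⟨q, b3.trans ((b2 0).trans (hf 0).1), fun k => (f k).2.1, fun n => ?_, fun n j hj => ?_, ?_⟩
  · rw [← hdd]
    exact ⟨fun h1 => hA _ _ _ _ ((hf n).2.2.2.1 h1) (b3.trans (b2 n)),
      fun h1 r hr => (hf n).2.2.2.2.1 h1 r (hr.trans (b3.trans (b2 n)))⟩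
  · rcases Nat.even_or_odd' n with ⟨t, rfl | rfl⟩
    · have := (hi1 t).symm.trans hj
      rw [← Sum.inl.inj this]
      exact b3.1 ((b2 _).1 (hi2 t))
    · have := (hf (2 * t + 1)).2.2.2.2.2.2 t.unpair.1 t.unpair.2 (by rw [Nat.pair_unpair])
        (by have := Nat.unpair_left_le t; omega)
      rw [this] at hj
      cases hj
  · by_cases hh : ∃ n y, (f n).2.1.1 = .inr y ∧ (f n).2.1.2
    · exact Or.inl hh
    refine Or.inr fun r hr x hx => ?_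
    by_cases hx0 : x ∈ q0.b
    · rw [b1] at hx0
      obtain ⟨u, hu⟩ := mem_iUnion.1 hx0
      obtain ⟨v, rfl⟩ := (hf u).2.2.1 hu
      have := (hf (2 * Nat.pair u v + 1)).2.2.2.2.2.2 u v rfl
        (by have := Nat.left_le_pair u v; omega)
      refine ⟨2 * Nat.pair u v + 1, fun h1 => hh ⟨_, _, this, h1.1 ?_⟩⟩
      rw [this]; rfl
    · obtain ⟨n, hn⟩ := r.kept _ (hr.2.2 b4) x hx hx0
      refine ⟨2 * n, ?_⟩
      dsimp only
      rw [hi1 n]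
      exact hn

end Pool.Agent.H3Z
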