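import Pool.Agent.H3Z.KakA
import Pool.Agent.H3Z.RForce

/-! A normal measure generates a precipitous ideal after forcing with small antichains. -/

set_option linter.unusedSectionVars false
set_option linter.unusedVariables false

namespace Pool.Agent.H3Z

open CohenE ZFSet Pool.Agent.H30Z.Forc Cardinal

variable {X : Type} [LinearOrder X] [WellFoundedLT X] {U : Ultrafilter X}
variable {P : Type} [Preorder P] [OrderTop P] {N : Set (Nm P)} {G : Set P}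

/-- the code of the measure -/
noncomputable def UZ (U : Ultrafilter X) : ZFSet.{0} :=
  ZFSet.sep (fun B => dec X B ∈ U) (powerset (KZ X))

theorem mem_UZ {B : ZFSet.{0}} : B ∈ UZ U ↔ B ⊆ KZ X ∧ dec X B ∈ U := by
  rw [UZ, ZFSet.mem_sep, mem_powerset]

theorem enc_mem_UZ {Y : Set X} (h : Y ∈ U) : enc Y ∈ UZ U :=
  mem_UZ.2 ⟨enc_subset Y, by rwa [dec_enc]⟩

def rMem (l : List (Nm P)) (z : ZFSet.{0}) (q : P) : Prop :=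
  z ∈ uck (lv l 1) ∧ FMem (ck P z) (lv l 0) q

theorem Setup.avoid (h : Setup N G) (hm : Meets N G (ReqW rMem)) {τ : Nm P} (hτ : τ ∈ N)
    {c : ZFSet.{0}} (hc : c ∈ Hl N) (hav : ∀ z ∈ Hl N, z ∈ c → pz N z ∉ val N G τ) :
    ∃ q ∈ G, ∀ r, r ≤ q → ∀ z ∈ c, ¬ FMem (ck P z) τ r := by
  obtain ⟨q, hq, ⟨z, hz, h1, h2⟩ | h1⟩ := meets_reqW hm [τ, ck P c] (by simp [hτ]; exact hc)
  · simp only [lv, List.getD_cons_zero, List.getD_cons_succ, uck_ck] at h1 h2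
    exact absurd ((h.mem_val_iff hz hτ).2 ⟨q, hq, h2⟩) (hav z hz h1)
  · refine ⟨q, hq, fun r hr z hz h2 => h1 r hr z ?_⟩
    simp only [rMem, lv, List.getD_cons_zero, List.getD_cons_succ, uck_ck]
    exact ⟨hz, h2⟩

def rDiag (U : Ultrafilter X) (l : List (Nm P)) (z : ZFSet.{0}) (_ : P) : Prop :=
  z ∈ UZ U ∧ ∀ x : X, oz x ∈ z → ∀ b < x, ∀ p, (∃ Y ∈ U, ∀ x' ∈ Y, ∀ r, r ≤ p →
    ¬ FMem (ck P (pair (oz b) (oz x'))) (lv l 0) r) → ¬ FMem (ck P (pair (oz b) (oz x))) (lv l 0) p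

theorem rDiag_dense (hU : Nrm X U) (hP : SmallPre P X) (l : List (Nm P)) (p : P) :
    ∃ q, q ≤ p ∧ ∃ z, rDiag U l z q := by
  have h1 : ∀ b : X, ∃ Y ∈ U, ∀ x ∈ Y, ∀ p, (∃ Y ∈ U, ∀ x' ∈ Y, ∀ r, r ≤ p →
      ¬ FMem (ck P (pair (oz b) (oz x'))) (lv l 0) r) →
      ¬ FMem (ck P (pair (oz b) (oz x))) (lv l 0) p := by
    intro b
    obtain ⟨A, h1, h2, h3⟩ := hP {p | ∃ Y ∈ U, ∀ x' ∈ Y, ∀ r, r ≤ p →
      ¬ FMem (ck P (pair (oz b) (oz x'))) (lv l 0) r}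
      (fun p ⟨Y, hY, h⟩ q hq => ⟨Y, hY, fun x hx r hr => h x hx r (hr.trans hq)⟩)
    refine ⟨_, hU.bcomp h2 (fun a => {x | ∀ r, r ≤ a →
      ¬ FMem (ck P (pair (oz b) (oz x))) (lv l 0) r}) (fun a ha => ?_), fun x hx p hp h4 => ?_⟩
    · obtain ⟨Y, hY, h⟩ := h1 ha
      exact Filter.mem_of_superset hY h
    · obtain ⟨a, ha, r, h5, h6⟩ := h3 p hp
      exact hx a ha r h6 (h4.mono h5)
  choose Y h2 h3 using h1
  exact ⟨p, le_rfl, _, enc_mem_UZ (hU.diag Y h2),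
    fun x hx b hb => h3 b x (oz_mem_enc.1 hx b hb)⟩

def rK (U : Ultrafilter X) (l : List (Nm P)) (z : ZFSet.{0}) (q : P) : Prop :=
  (∃ y, y ∈ uck (lv l 1)) → (IsFunc (KZ X) (uck (lv l 1)) z ∧ ∀ r, r ≤ q → ∀ Y ∈ U, ∃ x ∈ Y,
    ∃ s, s ≤ r ∧ ∃ y, pair (oz x) y ∈ z ∧ FMem (ck P (pair (oz x) y)) (lv l 0) s) ∨
  (z ∈ UZ U ∧ ∀ x : X, oz x ∈ z → ∀ r, r ≤ q → ∀ y ∈ uck (lv l 1),
    ¬ FMem (ck P (pair (oz x) y)) (lv l 0) r)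

theorem rK_dense (hU : Cpl X U) (hP : SmallPre P X) (l : List (Nm P)) (p : P) :
    ∃ q, q ≤ p ∧ ∃ z, rK U l z q := by
  classical
  by_cases h0 : ∃ y, y ∈ uck (lv l 1)
  swap
  · exact ⟨p, le_rfl, ∅, fun h => absurd h h0⟩
  obtain ⟨y0, hy0⟩ := h0
  let T : Set X := {x | ∃ r, r ≤ p ∧ ∃ y ∈ uck (lv l 1), FMem (ck P (pair (oz x) y)) (lv l 0) r}
  by_cases hT : T ∈ U
  swap
  · exact ⟨p, le_rfl, enc Tᶜ, fun _ => Or.inr ⟨enc_mem_UZ (Ultrafilter.compl_mem_iff_notMem.2 hT),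
      fun x hx r hr y hy h => oz_mem_enc.1 hx ⟨r, hr, y, hy, h⟩⟩⟩
  have h1 : ∀ x, ∃ r, r ≤ p ∧ ∃ y ∈ uck (lv l 1),
      x ∈ T → FMem (ck P (pair (oz x) y)) (lv l 0) r := by
    intro x
    by_cases hx : x ∈ T
    · obtain ⟨r, h1, y, h2, h3⟩ := hx
      exact ⟨r, h1, y, h2, fun _ => h3⟩
    · exact ⟨p, le_rfl, y0, hy0, fun h => absurd h hx⟩
  choose c hc y hy hy' using h1
  have : Nonempty X := Cardinal.mk_ne_zero_iff.1 (aleph0_pos.trans hU.unc).ne'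
  obtain ⟨g, hg, hg'⟩ := exists_graph (KZ X) (uck (lv l 1))
    (fun z => y (Function.invFun oz z)) fun _ _ => hy _
  obtain ⟨q, hq, h2⟩ : ∃ q, q ≤ p ∧ ∀ r, r ≤ q → ∀ Y ∈ U, ∃ x ∈ Y, ∃ s, s ≤ r ∧ s ≤ c x := by
    by_contra hcon
    push Not at hcon
    obtain ⟨A, a1, a2, a3⟩ := hP {r | ∃ Y ∈ U, ∀ x ∈ Y, ∀ s, s ≤ r → ¬ s ≤ c x}
      (fun p ⟨Y, hY, h⟩ q hq => ⟨Y, hY, fun x hx r hr => h x hx r (hr.trans hq)⟩)
    obtain ⟨x, hx⟩ := Ultrafilter.nonempty_of_mem (hU.bcomp a2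
      (fun a => {x | ∀ s, s ≤ a → ¬ s ≤ c x}) fun a ha => by
        obtain ⟨Y, hY, h⟩ := a1 ha
        exact Filter.mem_of_superset hY h)
    obtain ⟨r, a4, a5⟩ := hcon (c x) (hc x)
    obtain ⟨a, ha, s, a6, a7⟩ := a3 r a5
    exact hx a ha s a7 (a6.trans a4)
  refine ⟨q, hq, g, fun _ => Or.inl ⟨hg, fun r hr Y hY => ?_⟩⟩
  obtain ⟨x, hx, s, h3, h4⟩ := h2 r hr _ (Filter.inter_mem hY hT)
  exact ⟨x, hx.1, s, h3, y x, (hg' _ _).2 ⟨oz_mem x, by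
    rw [Function.leftInverse_invFun oz_inj x]⟩, (hy' x hx.2).mono h4⟩

/-- descendants of a name -/
def Desc : Nm P → Type
  | .mk α A _ => Option (Σ i : α, Desc (A i))

def desc : (τ : Nm P) → Desc τ → Nm P
  | .mk α A B, none => .mk α A B
  | .mk _ A _, some x => desc (A x.1) x.2

theorem desc_self (τ : Nm P) : ∃ d, desc τ d = τ := by
  cases τ with
  | mk α A B => exact ⟨none, rfl⟩

theorem desc_child (τ : Nm P) : ∀ d j, ∃ d', desc τ d' = (desc τ d).A j := by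
  induction τ with
  | mk α A B ih =>
    rintro (_ | ⟨i, d⟩) j
    · obtain ⟨d, hd⟩ := desc_self (A j)
      exact ⟨some ⟨j, d⟩, hd⟩
    · obtain ⟨d', hd⟩ := ih i d j
      exact ⟨some ⟨i, d'⟩, hd⟩

theorem desc_rk (τ : Nm P) : ∀ d, nmrk (desc τ d) ≤ nmrk τ := by
  induction τ with
  | mk α A B ih =>
    rintro (_ | ⟨i, d⟩)
    · exact le_rfl
    · exact (ih i d).trans (nmrk_lt (.mk α A B) i).le

/-- the name of the rank relation -/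
noncomputable def rkN (τ : Nm P) : Nm P :=
  .mk (Desc τ) (fun d => opN (desc τ d) (ck P (nmrk (desc τ d)).toZFSet)) (fun _ => ⊤)

theorem Setup.rk_hl (h : Setup N G) {τ : Nm P} (hτ : τ ∈ N) : (nmrk τ).toZFSet ∈ Hl N :=
  h.toPair.rk τ hτ

theorem Setup.mem_rkN (h : Setup N G) {τ : Nm P} {x α : ZFSet.{0}} :
    pair x α ∈ val N G (rkN τ) ↔ ∃ d, desc τ d ∈ N ∧ x = val N G (desc τ d) ∧
      α = pz N (nmrk (desc τ d)).toZFSet := by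
  rw [H30Z.Forc.mem_val]
  constructor
  · rintro ⟨d, h1, -, h2⟩
    obtain ⟨h3, h4⟩ := h.core.op_comp h1
    have h5 := h2.trans (h.core.val_op h3 h4)
    rw [pair_inj, h.val_ck] at h5
    exact ⟨d, h3, h5⟩
  · rintro ⟨d, h1, rfl, rfl⟩
    refine ⟨d, h.core.op_mem h1 (h.rk_hl h1), h.filt.top, ?_⟩
    rw [← h.val_ck]
    exact (h.core.val_op h1 (h.rk_hl h1)).symm

/-- the requirements for the precipitous ideal -/
noncomputable def kakReq (U : Ultrafilter X) (P : Type) [Preorder P] [OrderTop P] : List (Req P) :=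
  [clos fun _ => ck P (KZ X), clos fun _ => ck P (UZ U), ReqW rMem, ReqW (rDiag U), ReqW (rK U),
    clos fun l => rkN (lv l 0)]

theorem kakReq_dense : ∀ R ∈ kakReq U P, R.Dense := by
  simp only [kakReq, List.forall_mem_cons, List.not_mem_nil, false_imp_iff, implies_true, and_true]
  exact ⟨clos_dense _, clos_dense _, reqW_dense _, reqW_dense _, reqW_dense _, clos_dense _⟩

theorem Setup.kak (h : Setup N G) (hU : Nrm X U) (hP : SmallPre P X)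
    (hm : ∀ R ∈ kakReq U P, Meets N G R) :
    KZ X ∈ Hl N ∧ Kak (Ext N G) (pz N (KZ X)) (pz N (UZ U)) := by
  simp only [kakReq, List.forall_mem_cons, List.not_mem_nil, false_imp_iff, implies_true,
    and_true] at hm
  obtain ⟨m1, m2, m3, m4, m5, m6⟩ := hm
  have hK : KZ X ∈ Hl N := m1.clos [] (by simp)
  have hu : UZ U ∈ Hl N := m2.clos [] (by simp)
  have hr := h.regUnc_gnd hK (regUnc_univ hU.toCpl)
  have hpt : ∀ Y ∈ Hl N, Y ⊆ KZ X → ∀ ξ ∈ pz N Y, ∃ x : X, oz x ∈ Hl N ∧ oz x ∈ Y ∧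
      ξ = pz N (oz x) := by
    intro Y hY hs ξ hξ
    obtain ⟨y, h1, h2, rfl⟩ := h.mem_pz hY hξ
    obtain ⟨x, rfl⟩ := mem_KZ.1 (hs h2)
    exact ⟨x, h1, h2, rfl⟩
  refine ⟨hK, h.ctmW, h.pz_memW hK, h.pz_memW hu, hr.2.1, hr.2.2.1,
    (h.tr2 (fun _ u k => ∀ Y ∈ u, Y ⊆ k) hu hK).2 fun Y hY => (mem_UZ.1 hY).1,
    (h.tr1 (fun _ u => ∀ Y ∈ u, ∀ Y' ∈ u, ∃ Z ∈ u, Z ⊆ Y ∧ Z ⊆ Y') hu).2 fun Y hY Y' hY' => ?_,
    (h.tr2 (fun _ u k => ∀ β ∈ k, ∃ Y ∈ u, ∀ ξ ∈ Y, β ∈ ξ) hu hK).2 fun β hβ => ?_,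
    fun Y hY => ?_, ?_, ?_⟩
  · refine ⟨Y ∩ Y', mem_UZ.2 ⟨fun z hz => (mem_UZ.1 hY).1 (mem_inter.1 hz).1,
      Filter.mem_of_superset (Filter.inter_mem (mem_UZ.1 hY).2 (mem_UZ.1 hY').2)
        fun x hx => (mem_inter.2 hx : oz x ∈ Y ∩ Y')⟩,
      fun z hz => (mem_inter.1 hz).1, fun z hz => (mem_inter.1 hz).2⟩
  · obtain ⟨b, rfl⟩ := mem_KZ.1 hβ
    refine ⟨_, enc_mem_UZ (hU.ioi b), fun ξ hξ => ?_⟩
    obtain ⟨x, hx, rfl⟩ := mem_enc.1 hξ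
    exact oz_mem_iff.2 hx
  · obtain ⟨ξ, hξ, -⟩ := (h.tr1 (fun _ u => ∀ Y ∈ u, ∃ ξ ∈ Y, ξ = ξ) hu).2 (fun Y hY => by
      obtain ⟨x, hx⟩ := Ultrafilter.nonempty_of_mem (mem_UZ.1 hY).2
      exact ⟨oz x, hx, rfl⟩) Y hY
    exact ⟨ξ, hξ⟩
  · rintro _ ⟨τ, hτ, rfl⟩ hE
    obtain ⟨-, -, z, hz, h1, h2⟩ := meets_dense m4 (rDiag_dense hU hP) [τ] (by simpa using hτ)
    simp only [lv, List.getD_cons_zero] at h2
    refine ⟨pz N z, (h.pz_mem_iff hz hu).2 h1, fun ξ hξ β hβ h3 => ?_⟩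
    obtain ⟨x, hx, hx', rfl⟩ := hpt z hz (mem_UZ.1 h1).1 ξ hξ
    obtain ⟨b, hb, hb', rfl⟩ := hpt _ hx (KZ_ord.subset_of_mem (oz_mem x)) β hβ
    obtain ⟨Y, hY, h4⟩ := hE _ ((h.pz_mem_iff hb hK).2 (oz_mem b))
    obtain ⟨Y0, hY0, h5, rfl⟩ := h.mem_pz hu hY
    obtain ⟨c, hc, c1, c2⟩ := h.tv2 (fun _ b Y c => (∀ z ∈ c, ∃ y ∈ Y, z = pair b y) ∧
      ∀ y ∈ Y, pair b y ∈ c) hb hY0 ⟨prod {oz b} Y0, fun z hz => by
        obtain ⟨a, ha, y, hy, rfl⟩ := mem_prod.1 hz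
        exact ⟨y, hy, by rw [ZFSet.mem_singleton.1 ha]⟩,
        fun y hy => pair_mem_prod.2 ⟨ZFSet.mem_singleton.2 rfl, hy⟩⟩
    obtain ⟨q, hq, h6⟩ := h.avoid m3 hτ hc fun w hw hwc => by
      obtain ⟨y, hy, rfl⟩ := c1 w hwc
      have h6 := (h.hl_of_pair hw).2
      rw [h.pz_pair hb h6]
      exact h4 _ ((h.pz_mem_iff h6 hY0).2 hy)
    rw [← h.pz_pair hb hx] at h3
    obtain ⟨p, hp, h7⟩ := (h.mem_val_iff (h.pair_hl hb hx) hτ).1 h3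
    obtain ⟨r, -, h8, h9⟩ := h.filt.dir p hp q hq
    exact h2 x hx' b (oz_mem_iff.1 hb') r ⟨_, (mem_UZ.1 h5).2,
      fun x' hx' s hs => h6 s (hs.trans h9) _ (c2 _ hx')⟩ (h7.mono h8)
  · rintro _ ⟨τ, hτ, rfl⟩
    have hθ : (nmrk τ + 1).toZFSet ∈ Hl N := by
      obtain ⟨y, hy, h1, h2, h3⟩ := h.tv1 (fun _ a y => a ∈ y ∧ a ⊆ y ∧ ∀ z ∈ y, z ∈ a ∨ z = a)
        (h.rk_hl hτ) ⟨insert _ _, by simp, fun z hz => by simp [hz],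
          fun z hz => (ZFSet.mem_insert_iff.1 hz).symm⟩
      have : (nmrk τ + 1).toZFSet = y := by
        rw [Ordinal.toZFSet_add_one]
        ext z
        rw [ZFSet.mem_insert_iff]
        exact ⟨fun h => h.elim (fun e => e ▸ h1) (fun e => h2 e), fun h => (h3 z h).symm⟩
      rwa [this]
    obtain ⟨F0, hF0, f1, f2⟩ := h.tv2 (fun M k θ F => (∀ g ∈ F, IsFunc k θ g) ∧
      ∀ g ∈ M, IsFunc k θ g → g ∈ F) hK hθ ⟨funs _ _, fun g hg => mem_funs.1 hg,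
        fun g _ hg => mem_funs.2 hg⟩
    have hrk : rkN τ ∈ N := m6.clos [τ] (by simpa using hτ)
    refine ⟨_, h.val_memW hrk, _, h.pz_memW hθ, _, h.pz_memW hF0,
      ?_, ?_, h.pz_ord hθ (isOrdinal_toZFSet _), ?_, ?_, ?_, ?_⟩
    · obtain ⟨d, hd⟩ := desc_self τ
      exact ⟨_, h.mem_rkN.2 ⟨d, hd.symm ▸ hτ, by rw [hd], rfl⟩⟩
    · intro x α h1 y hy
      obtain ⟨d, h2, rfl, rfl⟩ := h.mem_rkN.1 h1
      obtain ⟨j, h3, -, rfl⟩ := H30Z.Forc.mem_val.1 hy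
      obtain ⟨d', hd'⟩ := desc_child _ d j
      refine ⟨_, (h.pz_mem_iff (h.rk_hl h3) (h.rk_hl h2)).2 ?_,
        h.mem_rkN.2 ⟨d', hd' ▸ h3, by rw [hd'], by rw [hd']⟩⟩
      exact Ordinal.toZFSet_mem_toZFSet_iff.2 (nmrk_lt _ j)
    · intro x α h1
      obtain ⟨d, h2, rfl, rfl⟩ := h.mem_rkN.1 h1
      exact (h.pz_mem_iff (h.rk_hl h2) hθ).2
        (Ordinal.toZFSet_mem_toZFSet_iff.2 (Order.lt_add_one_iff.2 (desc_rk _ d)))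
    · exact (h.tr1 (fun _ F => ∀ g ∈ F, IsPFun g) hF0).2 fun g hg => isFunc_pfun (f1 g hg)
    · rintro _ ⟨σ, hσ, rfl⟩ hpos
      obtain ⟨q, hq, z, hz, h1⟩ := meets_dense m5 (rK_dense hU.toCpl hP) [σ, ck P _]
        (by simp [hσ]; exact hθ)
      simp only [rK, lv, List.getD_cons_zero, List.getD_cons_succ, uck_ck] at h1
      rcases h1 ⟨_, Ordinal.toZFSet_mem_toZFSet_iff.2 (Order.lt_add_one_iff.2 le_rfl)⟩ with
        ⟨h2, h3⟩ | ⟨h2, h3⟩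
      · refine ⟨pz N z, (h.pz_mem_iff hz hF0).2 (f2 z trivial h2), fun Y hY => ?_⟩
        obtain ⟨Y0, hY0, h5, rfl⟩ := h.mem_pz hu hY
        obtain ⟨c, hc, c1, c2⟩ := h.tv2 (fun _ g Y c =>
          (∀ w ∈ c, w ∈ g ∧ ∃ x ∈ Y, ∃ y, w = pair x y) ∧
          ∀ w ∈ g, (∃ x ∈ Y, ∃ y, w = pair x y) → w ∈ c) hz hY0
          ⟨ZFSet.sep (fun w => ∃ x ∈ Y0, ∃ y, w = pair x y) z, fun w hw => ZFSet.mem_sep.1 hw,
            fun w h1 h2 => ZFSet.mem_sep.2 ⟨h1, h2⟩⟩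
        by_contra hcon
        obtain ⟨q', hq', h6⟩ := h.avoid m3 hσ hc fun w hw hwc h6 => by
          obtain ⟨h7, x, hx, y, rfl⟩ := c1 w hwc
          obtain ⟨h8, h9⟩ := h.hl_of_pair hw
          rw [h.pz_pair h8 h9] at h6
          exact hcon ⟨_, (h.pz_mem_iff h8 hY0).2 hx, _, h6, (h.pz_app h8 h9 hz).2 h7⟩
        obtain ⟨r, -, h7, h8⟩ := h.filt.dir q hq q' hq'
        obtain ⟨x, hx, s, hs, y, h9, h10⟩ := h3 r h7 _ (mem_UZ.1 h5).2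
        exact h6 s (hs.trans h8) _ (c2 _ h9 ⟨_, hx, y, rfl⟩) h10
      · exfalso
        obtain ⟨ξ, hξ, y, hy, h4⟩ := hpos _ ((h.pz_mem_iff hz hu).2 h2)
        obtain ⟨x, hx, hx', rfl⟩ := hpt z hz (mem_UZ.1 h2).1 ξ hξ
        obtain ⟨y0, hy0, h5, rfl⟩ := h.mem_pz hθ hy
        rw [← h.pz_pair hx hy0] at h4
        obtain ⟨p, hp, h7⟩ := (h.mem_val_iff (h.pair_hl hx hy0) hσ).1 h4
        obtain ⟨r, -, h8, h9⟩ := h.filt.dir p hp q hq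
        exact h3 x hx' r h9 y0 h5 (h7.mono h8)
    · intro g hg hpos
      choose g0 a1 a2 a3 using fun n => h.mem_pz hF0 (hg n)
      choose v b1 b2 using fun n x => (f1 _ (a2 n)).2 (oz x) (oz_mem x)
      refine hU.no_desc (· ∈ ·) ZFSet.mem_wf v fun n => by_contra fun hcon => ?_
      have h1 := (h.tr3 (fun _ u g g' => ∀ Y ∈ u, ∃ ξ ∈ Y, ∃ a, pair ξ a ∈ g' ∧
        ∃ b, pair ξ b ∈ g ∧ a ∈ b) hu (a1 n) (a1 (n + 1))).1 (by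
          rw [← a3, ← a3]; exact hpos n)
      obtain ⟨ξ, hξ, a, h2, b, h3, h4⟩ := h1 _ (enc_mem_UZ (Ultrafilter.compl_mem_iff_notMem.2 hcon))
      obtain ⟨x, hx, rfl⟩ := mem_enc.1 hξ
      rw [b2 _ _ _ h2, b2 _ _ _ h3] at h4
      exact hx h4

end Pool.Agent.H3Z
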