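import Pool.Agent.H30Z.Forc.Ground

/-! A type class version of uniform definability over transitive classes. -/

namespace Pool.Agent.H3Z

open CohenE ZFSet Pool.Agent.H30Z.Forc

/-- `Q` is uniformly definable over transitive classes (class version). -/
class RDc (Q : Pred) : Prop where
  out : RD Q

theorem RDc.of {Q Q' : Pred} [h : RDc Q]
    (h' : ∀ M, Tr M → ∀ v : ℕ → ZFSet.{0}, (∀ i, v i ∈ M) → (Q M v ↔ Q' M v)) : RDc Q' :=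
  ⟨h.out.congr h'⟩

theorem pair_left_mem {M : Set ZFSet.{0}} (hM : Tr M) {a b : ZFSet.{0}} (h : pair a b ∈ M) :
    a ∈ M := hM _ (hM _ h {a} (by simp [pair])) a (by simp)

theorem pair_right_mem {M : Set ZFSet.{0}} (hM : Tr M) {a b : ZFSet.{0}} (h : pair a b ∈ M) :
    b ∈ M := hM _ (hM _ h {a, b} (by simp [pair])) b (by simp)

instance RDc.mem (i j : ℕ) : RDc fun _ v => v i ∈ v j := ⟨RD.mem i j⟩
instance RDc.eq (i j : ℕ) : RDc fun _ v => v i = v j := ⟨RD.eq i j⟩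
instance RDc.subset (i j : ℕ) : RDc fun _ v => v i ⊆ v j := ⟨RD.subset i j⟩
instance RDc.app (i j k : ℕ) : RDc fun _ v => pair (v i) (v j) ∈ v k := ⟨RD.app i j k⟩
instance RDc.isPair (k i j : ℕ) : RDc fun _ v => v k = pair (v i) (v j) := ⟨RD.isPair k i j⟩
instance RDc.not (Q : Pred) [h : RDc Q] : RDc fun M v => ¬ Q M v := ⟨h.out.not⟩
instance RDc.notMem (i j : ℕ) : RDc fun _ v => v i ∉ v j := ⟨(RD.mem i j).not⟩
instance RDc.ne (i j : ℕ) : RDc fun _ v => v i ≠ v j := ⟨(RD.eq i j).not⟩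
instance RDc.and (Q Q' : Pred) [h : RDc Q] [h' : RDc Q'] : RDc fun M v => Q M v ∧ Q' M v :=
  ⟨h.out.and h'.out⟩
instance RDc.or (Q Q' : Pred) [h : RDc Q] [h' : RDc Q'] : RDc fun M v => Q M v ∨ Q' M v :=
  ⟨h.out.or h'.out⟩
instance RDc.iff (Q Q' : Pred) [h : RDc Q] [h' : RDc Q'] : RDc fun M v => Q M v ↔ Q' M v :=
  ⟨h.out.iff h'.out⟩
instance RDc.imp (Q Q' : Pred) [h : RDc Q] [h' : RDc Q'] : RDc fun M v => Q M v → Q' M v :=
  ⟨h.out.imp h'.out⟩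

abbrev Pred1 := Set ZFSet.{0} → (ℕ → ZFSet.{0}) → ZFSet.{0} → Prop

instance RDc.ex (Q : Pred1) [h : RDc fun M w => Q M (fun i => w (i + 1)) (w 0)] :
    RDc fun M v => ∃ y ∈ M, Q M v y := ⟨h.out.ex⟩
instance RDc.all (Q : Pred1) [h : RDc fun M w => Q M (fun i => w (i + 1)) (w 0)] :
    RDc fun M v => ∀ y ∈ M, Q M v y := ⟨h.out.all⟩
instance RDc.bex (k : ℕ) (Q : Pred1) [h : RDc fun M w => Q M (fun i => w (i + 1)) (w 0)] :
    RDc fun M v => ∃ y ∈ v k, Q M v y := ⟨RD.bex k h.out⟩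
instance RDc.ball (k : ℕ) (Q : Pred1) [h : RDc fun M w => Q M (fun i => w (i + 1)) (w 0)] :
    RDc fun M v => ∀ y ∈ v k, Q M v y := ⟨RD.ball k h.out⟩

instance RDc.exApp (i k : ℕ) (Q : Pred1) [h : RDc fun M w => Q M (fun i => w (i + 1)) (w 0)] :
    RDc fun M v => ∃ y, pair (v i) y ∈ v k ∧ Q M v y :=
  RDc.of (Q := fun M v => ∃ y ∈ M, pair (v i) y ∈ v k ∧ Q M v y) fun M hM v hv =>
    ⟨fun ⟨y, _, h1⟩ => ⟨y, h1⟩, fun ⟨y, h1⟩ => ⟨y, pair_right_mem hM (hM _ (hv k) _ h1.1), h1⟩⟩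
instance RDc.allApp (i k : ℕ) (Q : Pred1) [h : RDc fun M w => Q M (fun i => w (i + 1)) (w 0)] :
    RDc fun M v => ∀ y, pair (v i) y ∈ v k → Q M v y :=
  RDc.of (Q := fun M v => ∀ y ∈ M, pair (v i) y ∈ v k → Q M v y) fun M hM v hv =>
    ⟨fun h1 y h2 => h1 y (pair_right_mem hM (hM _ (hv k) _ h2)) h2, fun h1 y _ h2 => h1 y h2⟩
instance RDc.exApp' (i k : ℕ) : RDc fun _ v => ∃ y, pair (v i) y ∈ v k :=
  RDc.of (Q := fun M v => ∃ y ∈ M, pair (v i) y ∈ v k) fun M hM v hv =>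
    ⟨fun ⟨y, _, h1⟩ => ⟨y, h1⟩, fun ⟨y, h1⟩ => ⟨y, pair_right_mem hM (hM _ (hv k) _ h1), h1⟩⟩
instance RDc.exPair (i k : ℕ) : RDc fun _ v => ∃ y, v k = pair (v i) y :=
  RDc.of (Q := fun M v => ∃ y ∈ M, v k = pair (v i) y) fun M hM v hv =>
    ⟨fun ⟨y, _, h1⟩ => ⟨y, h1⟩, fun ⟨y, h1⟩ => ⟨y, pair_right_mem hM (h1 ▸ hv k), h1⟩⟩

instance RDc.eqEmpty (i : ℕ) : RDc fun _ v => v i = ∅ :=
  RDc.of (Q := fun _ v => ∀ y ∈ v i, y ≠ y) fun _ _ v _ => by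
    rw [ZFSet.eq_empty]
    exact ⟨fun h y hy => h y hy rfl, fun h y hy => absurd hy (h y)⟩
instance RDc.neEmpty (i : ℕ) : RDc fun _ v => v i ≠ ∅ := ⟨(RDc.eqEmpty i).out.not⟩

instance RDc.eqSingleton (i j : ℕ) : RDc fun _ v => v i = {v j} :=
  RDc.of (Q := fun _ v => v j ∈ v i ∧ ∀ y ∈ v i, y = v j) fun _ _ v _ => by
    constructor
    · rintro ⟨h1, h2⟩
      ext z
      rw [ZFSet.mem_singleton]
      exact ⟨h2 z, fun h => h ▸ h1⟩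
    · intro h
      rw [h]
      simp

instance RDc.isOrdinal (i : ℕ) : RDc fun _ v => (v i).IsOrdinal :=
  ⟨RD.isOrdinal.ren fun _ => i⟩

instance RDc.isFunc (i j k : ℕ) : RDc fun _ v => IsFunc (v i) (v j) (v k) :=
  RDc.of (Q := fun _ v => (∀ z ∈ v k, ∃ a ∈ v i, ∃ b ∈ v j, z = pair a b) ∧
      ∀ a ∈ v i, ∃ y, pair a y ∈ v k ∧ ∀ y', pair a y' ∈ v k → y' = y) fun _ _ v _ => by
    unfold IsFunc
    refine and_congr ?_ Iff.rfl
    exact ⟨fun h z hz => mem_prod.2 (h z hz), fun h z hz => mem_prod.1 (h hz)⟩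

end Pool.Agent.H3Z
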