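import Pool.Agent.H3Z.KakB

/-! A model of CH with a precipitous ideal on the second uncountable cardinal in which Choose has
no winning strategy. -/

set_option linter.unusedSectionVars false
set_option linter.unusedVariables false

namespace Pool.Agent.H3Z

open CohenE ZFSet Pool.Agent.H30Z.Forc Cardinal

variable {X : Type} [LinearOrder X] [WellFoundedLT X] {U : Ultrafilter X}

/-- an injection of a type into the sets -/
noncomputable def code {Y : Type} (y : Y) : ZFSet.{0} :=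
  (Ordinal.typein (α := Y) WellOrderingRel y).toZFSet

theorem code_inj {Y : Type} : Function.Injective (code : Y → ZFSet.{0}) := fun _ _ h =>
  (Ordinal.typein (α := Y) WellOrderingRel).injective (Ordinal.toZFSet_injective h)

abbrev Dat (X : Type) := ℕ → (X ⊕ X) × Prop

def Phi (d : Dat X) (n : ℕ) (x : X) (p : RP X) : Prop :=
  x ∈ p.b ∧ (∀ k ≤ n, ∀ i, (d k).1 = .inl i → i ∈ p.b) ∧
    (∀ k < n, (raw (d k).1 p x ↔ (d k).2)) ∧ raw (d n).1 p x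

noncomputable def nmMv (d : Dat X) (n : ℕ) : Nm (RP X) :=
  .mk {z : X × RP X // Phi d n z.1 z.2} (fun z => ck _ (oz z.1.1)) (fun z => z.1.2)

noncomputable def posN (d : Dat X) (n : ℕ) : Nm (RP X) :=
  .mk (Fin (n + 1)) (fun k => opN (natN k) (nmMv d k)) (fun _ => ⊤)

noncomputable def seqN (d : Dat X) : Nm (RP X) :=
  .mk ℕ (fun k => opN (natN k) (nmMv d k)) (fun _ => ⊤)

theorem posN_congr {d d' : Dat X} {n : ℕ} (h1 : ∀ k < n, d k = d' k) (h2 : (d n).1 = (d' n).1) :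
    posN d n = posN d' n := by
  have key : ∀ k ≤ n, nmMv d k = nmMv d' k := by
    intro k hk
    have e1 : ∀ j ≤ k, (d j).1 = (d' j).1 := fun j hj => by
      rcases (hj.trans hk).lt_or_eq with h | rfl
      · rw [h1 j h]
      · exact h2
    have : Phi d k = Phi d' k := by
      funext x p
      unfold Phi
      rw [e1 k le_rfl]
      refine propext (and_congr Iff.rfl (and_congr (forall₂_congr fun j hj => by rw [e1 j hj])
        (and_congr (forall₂_congr fun j hj => by rw [h1 j (hj.trans_le hk)]) Iff.rfl)))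
    unfold nmMv
    rw [this]
  unfold posN
  congr 1
  funext k
  rw [key k (Nat.lt_succ_iff.1 k.2)]

noncomputable def nmH (i : X) : Nm (RP X) :=
  .mk {z : X × RP X // z.1 ∈ z.2.b ∧ i ∈ z.2.b}
    (fun z => ck _ (pair (oz z.1.1) (oz (z.1.2.F i z.1.1)))) (fun z => z.1.2)

theorem distr_omega {P : Type} [Preorder P] (h : SigmaClosed P) : Distr P omega := by
  intro D h1 h2 p
  obtain ⟨q, hq, h3⟩ := h.baire (fun n => D (nat n)) (fun n => h2 _ (nat_mem_omega n)) p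
  refine ⟨q, hq, fun x hx => ?_⟩
  obtain ⟨n, rfl⟩ := mem_omega.1 hx
  obtain ⟨r, h4, h5⟩ := h3 n
  exact h1 _ _ _ h4 h5

theorem Cur_anti {κ S a ξ ξ' : ZFSet.{0}} (h : ξ ⊆ ξ') : Cur κ S a ξ' ⊆ Cur κ S a ξ :=
  fun _ hx => mem_Cur.2 ⟨(mem_Cur.1 hx).1, fun η hη => (mem_Cur.1 hx).2 η (h hη)⟩

theorem WinsTwo.weak {W : Set ZFSet.{0}} {κ : ZFSet.{0}} (h : WinsTwo W κ omega) :
    WinsWeak W κ omega := by
  obtain ⟨S, hS, h1⟩ := h
  refine ⟨S, hS, fun a ha hr => ?_⟩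
  obtain ⟨x, hx, y, hy, hne⟩ := h1 a ha hr
  refine ⟨fun η hη z e => hne ?_, fun e => ZFSet.notMem_empty x (e ▸ hx)⟩
  have h2 := Cur_anti (κ := κ) (S := S) (a := a) (omega_ord.subset_of_mem (omega_succ hη))
  rw [e] at h2
  rw [ZFSet.mem_singleton.1 (h2 hx), ZFSet.mem_singleton.1 (h2 hy)]

theorem RegUnc.not_leIn {W : Set ZFSet.{0}} (hW : CTM W) {κ w : ZFSet.{0}} (h : RegUnc W κ)
    (hw : w ∈ κ) : ¬ LeIn W κ w := by
  rintro ⟨f, hf, h1, h2⟩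
  obtain ⟨g, hg, h3, h4⟩ := rel2 hW (fun _ x y f k => pair x y ∈ f ∨
    (y = ∅ ∧ ∀ z ∈ k, ¬ pair x z ∈ f)) (hW.trans _ h.1 _ hw) h.1 hf h.1
  obtain ⟨β, hβ, h5⟩ := h.2.2.2 w hw g hg ⟨h3, fun x hx => by
    by_cases hh : ∃ z ∈ κ, pair x z ∈ f
    · obtain ⟨z, a1, a2⟩ := hh
      refine ⟨z, (h4 _ _).2 ⟨hx, a1, Or.inl a2⟩, fun y hy => ?_⟩
      rcases ((h4 _ _).1 hy).2.2 with a3 | a3
      · exact h1 _ _ _ a3 a2
      · exact absurd a2 (a3.2 z a1)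
    · refine ⟨∅, (h4 _ _).2 ⟨hx, h.2.1.mem_trans omega_zero h.2.2.1,
        Or.inr ⟨rfl, fun z a1 a2 => hh ⟨z, a1, a2⟩⟩⟩, fun y hy => ?_⟩
      rcases ((h4 _ _).1 hy).2.2 with a3 | a3
      · exact absurd ⟨y, ((h4 _ _).1 hy).2.1, a3⟩ hh
      · exact a3.1⟩
  obtain ⟨x, hx, h6⟩ := h2 β hβ
  exact ZFSet.mem_irrefl β (h5 x hx β ((h4 _ _).2 ⟨hx, hβ, Or.inl h6⟩))

theorem Cpl.exists_w1 (h : Cpl X U) : ∃ w : X, ¬ (Set.Iio w).Countable ∧
    ∀ x < w, (Set.Iio x).Countable := by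
  have hne : {x : X | ¬ (Set.Iio x).Countable}.Nonempty := by
    obtain ⟨e⟩ := (Cardinal.le_def (ℵ_ 1).out X).1 (by rw [Cardinal.mk_out]; exact h.aleph_one_lt.le)
    obtain ⟨b, hb⟩ := h.bdd (s := Set.range e)
      (mk_range_le.trans_lt (by rw [Cardinal.mk_out]; exact h.aleph_one_lt))
    refine ⟨b, fun hc => ?_⟩
    have h1 := (hc.mono hb).le_aleph0
    rw [mk_range_eq _ e.injective, Cardinal.mk_out] at h1
    exact absurd h1 (not_le.2 aleph0_lt_aleph_one)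
  exact ⟨_, (wellFounded_lt (α := X)).min_mem _ hne, fun x hx => by_contra fun hc =>
    (wellFounded_lt (α := X)).not_lt_min _ (show x ∈ {x : X | ¬ (Set.Iio x).Countable} from hc) hx⟩

theorem leIn_univ_iff [Nonempty X] (w : X) :
    LeIn Set.univ (oz w) omega ↔ (Set.Iio w).Countable := by
  rw [Set.countable_iff_exists_subset_range]
  constructor
  · rintro ⟨f, -, h1, h2⟩
    refine ⟨fun n => Classical.epsilon fun x => pair (nat n) (oz x) ∈ f, fun x hx => ?_⟩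
    obtain ⟨z, hz, h3⟩ := h2 _ (oz_mem_iff.2 hx)
    obtain ⟨n, rfl⟩ := mem_omega.1 hz
    exact ⟨n, oz_inj (h1 _ _ _
      (Classical.epsilon_spec (p := fun x => pair (nat n) (oz x) ∈ f) ⟨x, h3⟩) h3)⟩
  · rintro ⟨e, he⟩
    refine ⟨seqZ fun n => oz (e n), trivial,
      isFunc_pfun (isFunc_seqZ (c := KZ X) fun n => oz_mem _), fun y hy => ?_⟩
    obtain ⟨x, hx, rfl⟩ := mem_oz.1 hy
    obtain ⟨n, rfl⟩ := he hx
    exact ⟨_, nat_mem_omega n, pair_mem_seqZ.2 rfl⟩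

theorem Cpl.reals (h : Cpl X U) : ∃ a ∈ KZ X, ∃ s ∈ Set.univ, IsPFun s ∧
    ∀ y ∈ Set.univ, y ⊆ ZFSet.omega → ∃ x ∈ a, pair x y ∈ s := by
  have h1 := h.slim (Y := ℕ) (by rw [mk_nat]; exact h.unc)
  obtain ⟨e⟩ := (Cardinal.le_def _ _).1 h1.le
  obtain ⟨a, ha⟩ := h.bdd (s := Set.range e) (mk_range_le.trans_lt h1)
  obtain ⟨s, h2, h3⟩ := exists_graph (oz a) (powerset omega)
    (fun z => ZFSet.sep (fun m => ∃ T n, z = oz (e T) ∧ n ∈ T ∧ m = CohenE.nat n) omega)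
    fun _ _ => mem_powerset.2 fun _ hm => (ZFSet.mem_sep.1 hm).1
  refine ⟨_, oz_mem a, s, trivial, isFunc_pfun h2, fun y _ hy =>
    ⟨oz (e {n | CohenE.nat n ∈ y}), oz_mem_iff.2 (ha _ ⟨_, rfl⟩),
      (h3 _ _).2 ⟨oz_mem_iff.2 (ha _ ⟨_, rfl⟩), ?_⟩⟩⟩
  ext m
  rw [ZFSet.mem_sep]
  constructor
  · intro hm
    obtain ⟨n, rfl⟩ := mem_omega.1 (hy hm)
    exact ⟨hy hm, _, n, rfl, hm, rfl⟩
  · rintro ⟨-, T, n, h4, h5, rfl⟩
    rw [← e.injective (oz_inj h4)] at h5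
    exact h5

instance RDc.leIn (i j : ℕ) : RDc fun M v => LeIn M (v i) (v j) := by
  unfold LeIn
  infer_instance

theorem main_model (hU : Nrm X U) : ∃ W κ w u, Kak W κ u ∧ IsSuccIn W omega w ∧ IsSuccIn W w κ ∧
    CHIn W w ∧ ¬ WinsWeak W κ omega := by
  have : Nonempty X := Cardinal.mk_ne_zero_iff.1 (aleph0_pos.trans hU.unc).ne'
  obtain ⟨w, hw1, hw2⟩ := hU.exists_w1
  let dc : List (Nm (RP X)) → Dat X := fun l => Function.invFun code (uck (lv l 0))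
  let rC : List (Nm (RP X)) → ZFSet.{0} → RP X → Prop := fun l z q => ∀ i v : X,
    uck (lv l 0) = oz i → uck (lv l 1) = oz v → v ≤ i →
      ∃ β < w, z = oz β ∧ β ∈ q.b ∧ i ∈ q.b ∧ q.F i β = v
  let rS : List (Nm (RP X)) → ZFSet.{0} → RP X → Prop := fun l z q => ∃ d : Dat X, z = code d ∧
    (∀ n, ((d n).2 → FMem (posN d n) (lv l 0) q) ∧
      (¬ (d n).2 → ∀ r, r ≤ q → ¬ FMem (posN d n) (lv l 0) r)) ∧
      (∀ n i, (d n).1 = .inl i → i ∈ q.b) ∧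
      ((∃ n y, (d n).1 = .inr y ∧ (d n).2) ∨
        ∀ r, r ≤ q → ∀ x ∈ r.b, ∃ k, ¬ (raw (d k).1 r x ↔ (d k).2))
  let L0 : List (Req (RP X)) := [clos fun _ => ck _ (oz w), ReqW (rNew omega), ReqW rC, ReqW rS,
    clos fun l => seqN (dc l), clos fun l => nmH (Function.invFun oz (uck (lv l 0)) : X)]
  obtain ⟨N, G, h, hm⟩ := exists_setup (P := RP X)
    (({R | R ∈ kakReq U (RP X)} ∪ {R | R ∈ L0}) ∪
      ((Set.range fun n => clos fun l => nmMv (dc l) n) ∪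
        Set.range fun n => clos fun l => posN (dc l) n))
    (((List.finite_toSet _).countable.union (List.finite_toSet _).countable).union
      ((Set.countable_range _).union (Set.countable_range _))) (by
      rintro R ((hR | hR) | ⟨n, rfl⟩ | ⟨n, rfl⟩)
      · exact kakReq_dense R hR
      · revert R
        simp only [L0, Set.mem_ofPred_eq, List.forall_mem_cons, List.not_mem_nil, false_imp_iff,
          implies_true, and_true]
        exact ⟨clos_dense _, reqW_dense _, reqW_dense _, reqW_dense _, clos_dense _, clos_dense _⟩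
      · exact clos_dense _
      · exact clos_dense _)
  obtain ⟨hK, hk⟩ := h.kak hU (smallPre_of_cc hU.iio (RP.cc hU))
    fun R hR => hm R (Or.inl (Or.inl hR))
  have hm0 : ∀ R ∈ L0, Meets N G R := fun R hR => hm R (Or.inl (Or.inr hR))
  simp only [L0, List.forall_mem_cons, List.not_mem_nil, false_imp_iff, implies_true,
    and_true] at hm0
  obtain ⟨m1, m2, m3, m4, m5, m6⟩ := hm0
  have hw : oz w ∈ Hl N := m1.clos [] (by simp)
  have hn := h.noNew h.omega_hl (distr_omega RP.closed) m2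
  rw [h.pz_omega] at hn
  have hpt : ∀ Y ∈ Hl N, Y ⊆ KZ X → ∀ ξ ∈ pz N Y, ∃ x : X, oz x ∈ Hl N ∧ oz x ∈ Y ∧
      ξ = pz N (oz x) := by
    intro Y hY hs ξ hξ
    obtain ⟨y, h1, h2, rfl⟩ := h.mem_pz hY hξ
    obtain ⟨x, rfl⟩ := mem_KZ.1 (hs h2)
    exact ⟨x, h1, h2, rfl⟩
  have hC : ∀ i v : X, oz i ∈ Hl N → oz v ∈ Hl N → v ≤ i → ∃ q ∈ G, ∃ β < w, oz β ∈ Hl N ∧
      β ∈ q.b ∧ i ∈ q.b ∧ q.F i β = v := by
    intro i v hi hv hvi
    obtain ⟨q, hq, z, hz, h1⟩ := meets_dense m3 (fun l p => by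
      by_cases hh : ∃ i v : X, uck (lv l 0) = oz i ∧ uck (lv l 1) = oz v ∧ v ≤ i
      · obtain ⟨i, v, a1, a2, a3⟩ := hh
        obtain ⟨β, a4, a5⟩ := Set.not_subset.1 fun hs => hw1 (p.bc.mono hs)
        obtain ⟨r, a6, a7⟩ := p.extend a5 a3
        refine ⟨r, a6, oz β, fun i' v' b1 b2 _ => ⟨β, a4, rfl, ?_⟩⟩
        rw [← oz_inj (a1.symm.trans b1), ← oz_inj (a2.symm.trans b2)]
        exact a7
      · exact ⟨p, le_rfl, ∅, fun i v a1 a2 a3 => absurd ⟨i, v, a1, a2, a3⟩ hh⟩)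
      [ck _ (oz i), ck _ (oz v)] (by simp; exact ⟨hi, hv⟩)
    obtain ⟨β, a1, rfl, a2⟩ := h1 i v (uck_ck _) (uck_ck _) hvi
    exact ⟨q, hq, β, a1, hz, a2⟩
  have hcol : ∀ x ∈ pz N (KZ X), LeIn (Ext N G) x (pz N (oz w)) := by
    intro ξ hξ
    obtain ⟨i, hi, -, rfl⟩ := hpt _ hK subset_rfl ξ hξ
    have hH : nmH i ∈ N := by
      have := m6.clos [ck _ (oz i)] (List.forall_mem_singleton.2 hi)
      simp only [lv, List.getD_cons_zero, uck_ck, Function.leftInverse_invFun oz_inj i] at this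
      exact this
    have key : ∀ x y, pair x y ∈ val N G (nmH i) ↔ ∃ β p, p ∈ G ∧ β ∈ p.b ∧ i ∈ p.b ∧
        oz β ∈ Hl N ∧ oz (p.F i β) ∈ Hl N ∧ x = pz N (oz β) ∧ y = pz N (oz (p.F i β)) := by
      intro x y
      rw [H30Z.Forc.mem_val]
      constructor
      · rintro ⟨⟨⟨β, p⟩, a1, a2⟩, a3, a4, a5⟩
        obtain ⟨a6, a7⟩ := h.hl_of_pair a3
        have a8 := a5.trans ((h.val_ck _).trans (h.pz_pair a6 a7))
        rw [pair_inj] at a8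
        exact ⟨β, p, a4, a1, a2, a6, a7, a8⟩
      · rintro ⟨β, p, a4, a1, a2, a6, a7, rfl, rfl⟩
        exact ⟨⟨(β, p), a1, a2⟩, h.pair_hl a6 a7, a4,
          ((h.val_ck _).trans (h.pz_pair a6 a7)).symm⟩
    refine ⟨_, h.val_memW hH, fun x y y' a b => ?_, fun y hy => ?_⟩
    · obtain ⟨β, p, a1, a2, a3, a4, -, rfl, rfl⟩ := (key _ _).1 a
      obtain ⟨β', p', b1, b2, b3, b4, -, b5, rfl⟩ := (key _ _).1 b
      obtain rfl := oz_inj ((h.pz_inj a4 b4).1 b5)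
      obtain ⟨r, -, c1, c2⟩ := h.filt.dir p a1 p' b1
      rw [← c1.2.1 i a3 β a2, ← c2.2.1 i b3 β b2]
    · obtain ⟨v, hv, hv', rfl⟩ := hpt _ hi (KZ_ord.subset_of_mem (oz_mem i)) y hy
      obtain ⟨q, hq, β, a1, a2, a3, a4, rfl⟩ := hC i v hi hv (oz_mem_iff.1 hv').le
      exact ⟨_, (h.pz_mem_iff a2 hw).2 (oz_mem_iff.2 a1),
        (key _ _).2 ⟨β, q, hq, a3, a4, a2, hv, rfl, rfl⟩⟩
  have hom : ZFSet.omega ∈ Gnd N := h.pz_omega ▸ h.pz_memV h.omega_hl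
  refine ⟨Ext N G, _, pz N (oz w), _, hk,
    ⟨h.pz_memW hw, h.pz_ord hw (isOrdinal_toZFSet _), ?_, ?_⟩,
    ⟨hk.kmem, hk.ord, hk.regUnc.not_leIn h.ctmW ((h.pz_mem_iff hw hK).2 (oz_mem w)), hcol⟩, ?_, ?_⟩
  · rintro ⟨f, hf, h1, h2⟩
    obtain ⟨g, hg, h3, h4⟩ := rel2 h.ctmW (fun _ x y f _ => pair x y ∈ f)
      (h.toPair.subset hom) (h.pz_memW hw) hf hf
    have h5 : IsPFun g := fun x y y' a b => h1 x y y' ((h4 _ _).1 a).2.2 ((h4 _ _).1 b).2.2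
    refine hw1 ((leIn_univ_iff w).1 ((h.tr2 (fun M a b => LeIn M a b) hw h.omega_hl).1 ?_))
    rw [h.pz_omega]
    exact ⟨g, hn _ (h.pz_memV hw) g hg h3 h5, h5, fun y hy => (h2 y hy).imp fun x hx =>
      ⟨hx.1, (h4 _ _).2 ⟨hx.1, hy, hx.2⟩⟩⟩
  · intro ξ hξ
    obtain ⟨x, hx, hx', rfl⟩ := hpt _ hw (KZ_ord.subset_of_mem (oz_mem w)) ξ hξ
    obtain ⟨f, hf, h1⟩ := (h.tr2 (fun M a b => LeIn M a b) hx h.omega_hl).2
      ((leIn_univ_iff x).2 (hw2 x (oz_mem_iff.1 hx')))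
    rw [h.pz_omega] at h1
    exact ⟨f, h.toPair.subset hf, h1⟩
  · obtain ⟨a, ha, s, hs, h1, h2⟩ := (h.tr2 (fun M k o => ∃ a ∈ k, ∃ s ∈ M, IsPFun s ∧
      ∀ y ∈ M, y ⊆ o → ∃ x ∈ a, pair x y ∈ s) hK h.omega_hl).2 hU.reals
    rw [h.pz_omega] at h2
    obtain ⟨f, hf, h3, h4⟩ := hcol a ha
    obtain ⟨c, hc, h5⟩ := h.ctmW.power _ (h.toPair.subset hom)
    obtain ⟨g, hg, -, h6⟩ := rel2 h.ctmW (fun _ x y f s => ∃ z, pair x z ∈ f ∧ pair z y ∈ s)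
      (h.pz_memW hw) hc hf (h.toPair.subset hs)
    refine ⟨g, hg, fun x y y' a b => ?_, fun y hy hy' => ?_⟩
    · obtain ⟨-, -, z, a1, a2⟩ := (h6 _ _).1 a
      obtain ⟨-, -, z', b1, b2⟩ := (h6 _ _).1 b
      rw [h3 _ _ _ a1 b1] at a2
      exact h1 _ _ _ a2 b2
    · obtain ⟨z, a1, a2⟩ := h2 y (hn.sub h hom hy hy') hy'
      obtain ⟨x, a3, a4⟩ := h4 z a1
      exact ⟨x, a3, (h6 _ _).2 ⟨a3, (h5 y hy).2 hy', z, a4, a2⟩⟩
  · rintro ⟨_, ⟨τ, hτ, rfl⟩, hwin⟩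
    obtain ⟨q, hq, z, hz, d, rfl, h1, h2, h3⟩ := meets_dense m4 (fun l p => by
      obtain ⟨q, hq, d, h1⟩ := RP.kill hU.toCpl (fun d n q => FMem (posN d n) (lv l 0) q)
        (fun d n p q h hq => h.mono hq) (fun d d' n a b => by rw [posN_congr a b]) p
      exact ⟨q, hq, _, d, rfl, h1⟩) [τ] (by simpa using hτ)
    simp only [lv, List.getD_cons_zero] at h1
    have hdc : dc [ck _ (code d)] = d := by
      simp only [dc, lv, List.getD_cons_zero, uck_ck, Function.leftInverse_invFun code_inj d]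
    have hl := List.forall_mem_singleton (p := fun x => x ∈ N).2 hz
    have n1 : seqN d ∈ N := hdc ▸ m5.clos _ hl
    have n2 : ∀ n, nmMv d n ∈ N := fun n => hdc ▸ (hm _ (Or.inr (Or.inl ⟨n, rfl⟩))).clos _ hl
    have n3 : ∀ n, posN d n ∈ N := fun n => hdc ▸ (hm _ (Or.inr (Or.inr ⟨n, rfl⟩))).clos _ hl
    let M : ℕ → ZFSet.{0} := fun n => val N G (nmMv d n)
    have hop : ∀ k, val N G (opN (natN k) (nmMv d k)) = pair (nat k) (M k) := fun k => by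
      rw [h.core.val_op (h.core.natm k) (n2 k), h.core.val_nat]
    have e1 : val N G (seqN d) = seqZ M := by
      ext z
      rw [H30Z.Forc.mem_val, mem_seqZ]
      exact ⟨fun ⟨k, _, _, a⟩ => ⟨k, a.trans (hop k)⟩, fun ⟨k, a⟩ =>
        ⟨k, h.core.op_mem (h.core.natm k) (n2 k), h.filt.top, a.trans (hop k).symm⟩⟩
    have e2 : ∀ n, val N G (posN d n) = posZ M n := by
      intro n
      ext z
      rw [H30Z.Forc.mem_val, mem_posZ]
      exact ⟨fun ⟨k, _, _, a⟩ => ⟨k.1, Nat.lt_succ_iff.1 k.2, a.trans (hop k.1)⟩, fun ⟨k, hk, a⟩ =>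
        ⟨⟨k, Nat.lt_succ_iff.2 hk⟩, h.core.op_mem (h.core.natm k) (n2 k), h.filt.top,
          a.trans (hop k).symm⟩⟩
    have e3 : ∀ n, posZ M n ∈ val N G τ ↔ (d n).2 := by
      intro n
      rw [← e2, h.core.mem_iff (n3 n) hτ]
      refine ⟨fun ⟨p, hp, a⟩ => by_contra fun b => ?_, fun a => ⟨q, hq, (h1 n).1 a⟩⟩
      obtain ⟨r, -, c1, c2⟩ := h.filt.dir p hp q hq
      exact (h1 n).2 b r c2 (a.mono c1)
    have e4 : ∀ n z, z ∈ M n ↔ ∃ x p, Phi d n x p ∧ oz x ∈ Hl N ∧ p ∈ G ∧ z = pz N (oz x) := by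
      intro n z
      rw [H30Z.Forc.mem_val]
      exact ⟨fun ⟨⟨⟨x, p⟩, a1⟩, a2, a3, a4⟩ => ⟨x, p, a1, a2, a3, a4.trans (h.val_ck _)⟩,
        fun ⟨x, p, a1, a2, a3, a4⟩ => ⟨⟨(x, p), a1⟩, a2, a3, a4.trans (h.val_ck _).symm⟩⟩
    have e5 : ∀ ξ ∈ pz N (KZ X), ∃ x r, oz x ∈ Hl N ∧ ξ = pz N (oz x) ∧ r ≤ q ∧ x ∈ r.b ∧
        ∀ n, ξ ∈ M n ↔ (∀ k < n, (raw (d k).1 r x ↔ (d k).2)) ∧ raw (d n).1 r x := by
      intro ξ hξ
      obtain ⟨x, hx, -, rfl⟩ := hpt _ hK subset_rfl ξ hξ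
      obtain ⟨p, hp, -, -, -, -, a1, -⟩ := hC x x hx hx le_rfl
      obtain ⟨r, hr, a2, a3⟩ := h.filt.dir p hp q hq
      refine ⟨x, r, hx, rfl, a3, a2.1 a1, fun n => ?_⟩
      rw [e4]
      constructor
      · rintro ⟨x', p', ⟨b1, b2, b3, b4⟩, b5, b6, b7⟩
        obtain rfl := oz_inj ((h.pz_inj hx b5).1 b7)
        obtain ⟨s, -, c1, c2⟩ := h.filt.dir p' b6 r hr
        have key : ∀ k ≤ n, (raw (d k).1 r x ↔ raw (d k).1 p' x) := fun k hk =>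
          (raw_mono c2 (a2.1 a1) fun i hi => a3.1 (h2 k i hi)).symm.trans
            (raw_mono c1 b1 (b2 k hk))
        exact ⟨fun k hk => (key k hk.le).trans (b3 k hk), (key n le_rfl).2 b4⟩
      · intro b1
        exact ⟨x, r, ⟨a2.1 a1, fun k _ i hi => a3.1 (h2 k i hi), b1⟩, hx, hr, rfl⟩
    have e6 : ∀ n, M n ⊆ pz N (KZ X) := by
      intro n z hz
      obtain ⟨x, p, -, a1, -, rfl⟩ := (e4 n z).1 hz
      exact (h.pz_mem_iff a1 hK).2 (oz_mem x)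
    have e7 : ∀ n y, pair (nat n) y ∈ seqZ M ↔ y = M n := fun n y => pair_mem_seqZ
    obtain ⟨w1, w2⟩ := hwin (seqZ M) (e1 ▸ h.val_memW n1)
      (isRun_of (isFunc_seqZ fun n => mem_powerset.2 (e6 n)) e7 fun n ξ hξ k hk => by
        obtain ⟨x, r, -, -, -, -, a⟩ := e5 ξ (e6 n hξ)
        have b := ((a n).1 hξ).1
        rw [e3, a k, ← b k hk]
        exact ⟨fun c => c.2, fun c => ⟨fun j hj => b j (hj.trans hk), c⟩⟩)
    obtain ⟨ξ, hξ⟩ : ∃ ξ, ξ ∈ Cur (pz N (KZ X)) (val N G τ) (seqZ M) omega := by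
      by_contra hcon
      exact w2 (ZFSet.eq_empty _ |>.2 fun ξ hξ => hcon ⟨ξ, hξ⟩)
    rcases h3 with ⟨n, y, a1, a2⟩ | h3
    · refine w1 (nat n) (nat_mem_omega n) ξ ?_
      have key : ∀ ζ ∈ Cur (pz N (KZ X)) (val N G τ) (seqZ M) (nat (n + 1)),
          ζ = pz N (oz y) := by
        intro ζ hζ
        obtain ⟨b1, b2⟩ := (mem_Cur_nat e7).1 hζ
        obtain ⟨x, r, -, rfl, -, -, a⟩ := e5 ζ b1
        have b3 := ((a n).1 ((b2 n (Nat.lt_succ_self n)).2 ((e3 n).2 a2))).2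
        rw [a1] at b3
        rw [show x = y from b3]
      have hξ' := Cur_anti (omega_ord.subset_of_mem (nat_mem_omega (n + 1))) hξ
      ext ζ
      rw [ZFSet.mem_singleton]
      exact ⟨fun hζ => (key ζ hζ).trans (key ξ hξ').symm, fun e => e ▸ hξ'⟩
    · obtain ⟨b1, b2⟩ := (mem_Cur_omega e7).1 hξ
      obtain ⟨x, r, -, -, c1, c2, a⟩ := e5 ξ b1
      obtain ⟨k, hk⟩ := h3 r c1 x c2
      refine hk ?_
      clear hk
      induction k using Nat.strong_induction_on with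
      | _ k ih =>
      rw [← e3, ← b2 k, a k]
      exact ⟨fun c => ⟨ih, c⟩, fun c => c.2⟩

theorem precip_model (h : ∃ μ, IsMeasurableCardinal μ) :
    ∃ W, CTM W ∧ ∃ w₁ w₂ I, IsSuccIn W omega w₁ ∧ IsSuccIn W w₁ w₂ ∧ CHIn W w₁ ∧
      IsIdeal W w₂ I ∧ Precipitous W w₂ I ∧ ¬ WinsTwo W w₂ omega := by
  obtain ⟨μ, hμ⟩ := h
  obtain ⟨U, hU⟩ := hμ.exists_nrm
  obtain ⟨W, κ, w, u, h1, h2, h3, h4, h5⟩ := main_model hU
  obtain ⟨I, hI⟩ := h1.exists_dual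
  exact ⟨W, h1.ctm, w, κ, I, h2, h3, h4, h1.isIdeal hI, h1.precipitous hI, fun h => h5 h.weak⟩

theorem genmeas_model (h : ∃ μ, IsMeasurableCardinal μ) :
    ∃ W, CTM W ∧ ∃ κ P R, RegUnc W κ ∧ ClosedForcing W omega P R ∧ GenMeasurable W κ P R ∧
      ¬ WinsWeak W κ omega := by
  obtain ⟨μ, hμ⟩ := h
  obtain ⟨U, hU⟩ := hμ.exists_nrm
  obtain ⟨W, κ, w, u, h1, h2, h3, h4, h5⟩ := main_model hU
  obtain ⟨P, R, h6, h7⟩ := h1.genMeasurable
  exact ⟨W, h1.ctm, κ, P, R, h1.regUnc, h6, h7, h5⟩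

end Pool.Agent.H3Z
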