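import Pool.Agent.H3Z.Game

/-! Coding of runs of length `ω`, and the strategy given by a measure. -/

set_option linter.unusedSectionVars false
set_option linter.unusedVariables false

namespace Pool.Agent.H3Z

open CohenE ZFSet Pool.Agent.H30Z.Forc Cardinal

/-- the sequence with the given terms -/
noncomputable def seqZ (M : ℕ → ZFSet.{0}) : ZFSet.{0} := ZFSet.range fun n => pair (nat n) (M n)

/-- its restriction to the terms up to `n` -/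
noncomputable def posZ (M : ℕ → ZFSet.{0}) (n : ℕ) : ZFSet.{0} :=
  ZFSet.range fun k : Fin (n + 1) => pair (nat k) (M k)

theorem mem_seqZ {M : ℕ → ZFSet.{0}} {z : ZFSet.{0}} : z ∈ seqZ M ↔ ∃ n, z = pair (nat n) (M n) := by
  simp only [seqZ, ZFSet.mem_range]
  exact exists_congr fun _ => eq_comm

theorem mem_posZ {M : ℕ → ZFSet.{0}} {n : ℕ} {z : ZFSet.{0}} :
    z ∈ posZ M n ↔ ∃ k ≤ n, z = pair (nat k) (M k) := by
  simp only [posZ, ZFSet.mem_range]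
  exact ⟨fun ⟨k, h⟩ => ⟨k, Nat.lt_succ_iff.1 k.2, h.symm⟩,
    fun ⟨k, hk, h⟩ => ⟨⟨k, Nat.lt_succ_iff.2 hk⟩, h.symm⟩⟩

theorem pair_mem_seqZ {M : ℕ → ZFSet.{0}} {n : ℕ} {y : ZFSet.{0}} :
    pair (nat n) y ∈ seqZ M ↔ y = M n := by
  rw [mem_seqZ]
  constructor
  · rintro ⟨k, h⟩
    rw [pair_inj] at h
    rw [h.2, nat_inj h.1]
  · rintro rfl
    exact ⟨n, rfl⟩

theorem posZ_congr {M M' : ℕ → ZFSet.{0}} {n : ℕ} (h : ∀ k ≤ n, M k = M' k) :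
    posZ M n = posZ M' n := by
  ext z
  simp only [mem_posZ]
  exact exists_congr fun k => and_congr_right fun hk => by rw [h k hk]

theorem posZ_inj {M : ℕ → ZFSet.{0}} {n m : ℕ} (h : posZ M n = posZ M m) : n = m := by
  have key : ∀ n m, posZ M n = posZ M m → n ≤ m := by
    intro n m h
    obtain ⟨k, hk, e⟩ := mem_posZ.1 (h ▸ (mem_posZ.2 ⟨n, le_rfl, rfl⟩ : _ ∈ posZ M n))
    rw [pair_inj] at e
    rw [nat_inj e.1]; exact hk
  exact le_antisymm (key _ _ h) (key _ _ h.symm)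

theorem restr_eq_posZ {a : ZFSet.{0}} {M : ℕ → ZFSet.{0}}
    (h : ∀ n y, pair (nat n) y ∈ a ↔ y = M n) (n : ℕ) : Restr a (nat n) = posZ M n := by
  ext z
  rw [mem_Restr, mem_posZ]
  constructor
  · rintro ⟨h1, ⟨A, rfl⟩ | ⟨ζ, hζ, A, rfl⟩⟩
    · exact ⟨n, le_rfl, by rw [(h _ _).1 h1]⟩
    · obtain ⟨k, hk, rfl⟩ := mem_nat.1 hζ
      exact ⟨k, hk.le, by rw [(h _ _).1 h1]⟩
  · rintro ⟨k, hk, rfl⟩
    refine ⟨(h _ _).2 rfl, ?_⟩
    rcases hk.lt_or_eq with hk | rfl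
    · exact Or.inr ⟨_, nat_mem_nat.2 hk, _, rfl⟩
    · exact Or.inl ⟨_, rfl⟩

theorem isFunc_seqZ {M : ℕ → ZFSet.{0}} {c : ZFSet.{0}} (h : ∀ n, M n ∈ c) :
    IsFunc omega c (seqZ M) := by
  refine ⟨fun z hz => ?_, fun x hx => ?_⟩
  · obtain ⟨n, rfl⟩ := mem_seqZ.1 hz
    exact pair_mem_prod.2 ⟨nat_mem_omega n, h n⟩
  · obtain ⟨n, rfl⟩ := mem_omega.1 hx
    exact ⟨M n, pair_mem_seqZ.2 rfl, fun y hy => pair_mem_seqZ.1 hy⟩

theorem exists_terms {c a : ZFSet.{0}} (h : IsFunc omega c a) :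
    ∃ M : ℕ → ZFSet.{0}, (∀ n, M n ∈ c) ∧ ∀ n y, pair (nat n) y ∈ a ↔ y = M n := by
  choose M h1 h2 using fun n => h.2 _ (nat_mem_omega n)
  exact ⟨M, fun n => (pair_mem_prod.1 (h.1 (h1 n))).2,
    fun n y => ⟨h2 n y, fun e => e ▸ h1 n⟩⟩

theorem mem_Cur_nat {κ S a : ZFSet.{0}} {M : ℕ → ZFSet.{0}}
    (h : ∀ n y, pair (nat n) y ∈ a ↔ y = M n) {n : ℕ} {x : ZFSet.{0}} :
    x ∈ Cur κ S a (nat n) ↔ x ∈ κ ∧ ∀ k < n, (x ∈ M k ↔ posZ M k ∈ S) := by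
  rw [mem_Cur]
  refine and_congr Iff.rfl ⟨fun h1 k hk => ?_, fun h1 η hη => ?_⟩
  · rw [← restr_eq_posZ h, ← h1 _ (nat_mem_nat.2 hk)]
    simp [h]
  · obtain ⟨k, hk, rfl⟩ := mem_nat.1 hη
    rw [restr_eq_posZ h, ← h1 k hk]
    simp [h]

theorem mem_Cur_omega {κ S a : ZFSet.{0}} {M : ℕ → ZFSet.{0}}
    (h : ∀ n y, pair (nat n) y ∈ a ↔ y = M n) {x : ZFSet.{0}} :
    x ∈ Cur κ S a omega ↔ x ∈ κ ∧ ∀ k, (x ∈ M k ↔ posZ M k ∈ S) := by
  rw [mem_Cur]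
  refine and_congr Iff.rfl ⟨fun h1 k => ?_, fun h1 η hη => ?_⟩
  · rw [← restr_eq_posZ h, ← h1 _ (nat_mem_omega k)]
    simp [h]
  · obtain ⟨k, rfl⟩ := mem_omega.1 hη
    rw [restr_eq_posZ h, ← h1 k]
    simp [h]

theorem isRun_of {κ S a : ZFSet.{0}} {M : ℕ → ZFSet.{0}} (hf : IsFunc omega (powerset κ) a)
    (h : ∀ n y, pair (nat n) y ∈ a ↔ y = M n)
    (hM : ∀ n, ∀ x ∈ M n, ∀ k < n, (x ∈ M k ↔ posZ M k ∈ S)) : IsRun κ omega S a := by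
  refine ⟨hf, fun η hη A hA x hx => ?_⟩
  obtain ⟨n, rfl⟩ := mem_omega.1 hη
  have h1 := mem_powerset.1 (pair_mem_prod.1 (hf.1 hA)).2 hx
  rw [(h _ _).1 hA] at hx
  exact (mem_Cur_nat h).2 ⟨h1, hM n x hx⟩

variable {X : Type} [LinearOrder X] [WellFoundedLT X] {U : Ultrafilter X}

theorem exists_run (A : ℕ → Set X) (b : ℕ → Prop)
    (hA : ∀ n, ∀ ξ ∈ A n, ∀ k < n, (ξ ∈ A k ↔ b k)) :
    ∃ a S, IsRun (KZ X) omega S a ∧ (∀ n, Restr a (nat n) = posZ (fun k => enc (A k)) n) ∧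
      (∀ n, Restr a (nat n) ∈ S ↔ b n) ∧
      dec X (Cur (KZ X) S a omega) = {ξ | ∀ k, ξ ∈ A k ↔ b k} := by
  let M : ℕ → ZFSet.{0} := fun k => enc (A k)
  let S : ZFSet.{0} := ZFSet.range fun n : {n // b n} => posZ M n.1
  have hS : ∀ n, posZ M n ∈ S ↔ b n := by
    intro n
    simp only [S, ZFSet.mem_range]
    exact ⟨fun ⟨k, hk⟩ => posZ_inj hk ▸ k.2, fun h => ⟨⟨n, h⟩, rfl⟩⟩
  have h1 : ∀ n y, pair (nat n) y ∈ seqZ M ↔ y = M n := fun n y => pair_mem_seqZ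
  refine ⟨seqZ M, S, isRun_of (isFunc_seqZ fun n => mem_powerset.2 (enc_subset _)) h1 ?_,
    restr_eq_posZ h1, fun n => by rw [restr_eq_posZ h1, hS], ?_⟩
  · intro n x hx k hk
    obtain ⟨ξ, hξ, rfl⟩ := mem_enc.1 hx
    rw [hS, oz_mem_enc]
    exact hA n ξ hξ k hk
  · ext ξ
    change oz ξ ∈ Cur (KZ X) S (seqZ M) omega ↔ _
    rw [mem_Cur_omega h1]
    simp only [hS, M, oz_mem_enc, oz_mem, true_and, Set.mem_ofPred_eq]

/-- the ideal dual to the measure -/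
noncomputable def dualZ (U : Ultrafilter X) : ZFSet.{0} :=
  ZFSet.sep (fun B => dec X B ∉ U) (powerset (KZ X))

theorem mem_dualZ {B : ZFSet.{0}} : B ∈ dualZ U ↔ B ⊆ KZ X ∧ dec X B ∉ U := by
  rw [dualZ, ZFSet.mem_sep, mem_powerset]

theorem oz_eq_enc (b : X) : oz b = enc (Set.Iio b) := by
  rw [← dec_oz, enc_dec (KZ_ord.subset_of_mem (oz_mem b))]

theorem dec_KZ : dec X (KZ X) = Set.univ := Set.eq_univ_of_forall fun x => oz_mem x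

theorem isIdeal_dualZ (h : Cpl X U) : IsIdeal Set.univ (KZ X) (dualZ U) := by
  refine ⟨trivial, fun A hA => (mem_dualZ.1 hA).1, fun hK => (mem_dualZ.1 hK).2 ?_,
    fun A hA B _ hBA => mem_dualZ.2 ⟨hBA.trans (mem_dualZ.1 hA).1, fun hB => (mem_dualZ.1 hA).2
      (Filter.mem_of_superset hB fun x (hx : oz x ∈ B) => (hBA hx : oz x ∈ A))⟩, fun β hβ => ?_, ?_⟩
  · rw [dec_KZ]; exact Filter.univ_mem
  · obtain ⟨b, rfl⟩ := mem_KZ.1 hβ
    exact mem_dualZ.2 ⟨KZ_ord.subset_of_mem hβ, by rw [dec_oz]; exact h.small_notMem (h.iio b)⟩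
  · intro α hα f _ hf B _ hB
    obtain ⟨a, rfl⟩ := mem_KZ.1 hα
    refine mem_dualZ.2 ⟨fun x hx => ?_, fun hU => ?_⟩
    · obtain ⟨ξ, -, A, hA, hx'⟩ := hB x hx
      exact (mem_dualZ.1 (pair_mem_prod.1 (hf.1 hA)).2).1 hx'
    · have h1 := h.bcomp (h.iio a) (fun y => {x | ∀ A, pair (oz y) A ∈ f → oz x ∉ A}) (by
        intro y hy
        obtain ⟨A, hA, hA'⟩ := hf.2 _ (oz_mem_iff.2 hy)
        have := Ultrafilter.compl_mem_iff_notMem.2 (mem_dualZ.1 (pair_mem_prod.1 (hf.1 hA)).2).2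
        refine Filter.mem_of_superset this fun x hx A' h2 => ?_
        rw [hA' A' h2]; exact hx)
      obtain ⟨x, hx1, hx2⟩ := Ultrafilter.nonempty_of_mem (Filter.inter_mem hU h1)
      obtain ⟨ξ, hξ, A, hA, hx'⟩ := hB (oz x) hx1
      obtain ⟨y, hy, rfl⟩ := mem_oz.1 hξ
      exact hx2 y hy A hA hx'

theorem winsIdeal_dualZ (h : Cpl X U) : WinsIdeal Set.univ (KZ X) (dualZ U) omega := by
  refine ⟨ZFSet.sep (fun r => ∃ n A, pair (nat n) A ∈ r ∧ (∀ k A', pair (nat k) A' ∈ r → k ≤ n) ∧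
    dec X A ∈ U) (powerset (prod omega (powerset (KZ X)))), trivial, fun a _ hr hI => ?_⟩
  obtain ⟨M, hM, h1⟩ := exists_terms hr.1
  refine (mem_dualZ.1 hI).2 (Filter.mem_of_superset
    (h.nat (fun k => {x | x ∈ dec X (M k) ↔ dec X (M k) ∈ U}) fun k => ?_) fun x hx => ?_)
  · by_cases hk : dec X (M k) ∈ U
    · exact Filter.mem_of_superset hk fun x hx => by simp [hk, hx]
    · exact Filter.mem_of_superset (Ultrafilter.compl_mem_iff_notMem.2 hk) fun x hx => by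
        simpa [hk] using hx
  · refine (mem_Cur_omega h1).2 ⟨oz_mem x, fun k => (Set.mem_iInter.1 hx k).trans ?_⟩
    rw [ZFSet.mem_sep]
    constructor
    · intro hk
      refine ⟨mem_powerset.2 fun z hz => ?_, k, M k, mem_posZ.2 ⟨k, le_rfl, rfl⟩, ?_, hk⟩
      · obtain ⟨j, -, rfl⟩ := mem_posZ.1 hz
        exact pair_mem_prod.2 ⟨nat_mem_omega j, hM j⟩
      · intro j A' hj
        obtain ⟨i, hi, e⟩ := mem_posZ.1 hj
        rw [pair_inj] at e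
        rw [nat_inj e.1]; exact hi
    · rintro ⟨-, n, A, h2, h3, h4⟩
      obtain ⟨i, hi, e⟩ := mem_posZ.1 h2
      rw [pair_inj] at e
      have e1 := nat_inj e.1
      have := h3 k (M k) (mem_posZ.2 ⟨k, le_rfl, rfl⟩)
      have e2 : i = k := by omega
      rw [← e2, ← e.2]; exact h4

theorem Cpl.union_small (h : Cpl X U) {ι Y : Type} (hι : #ι < #X) (S : ι → Set Y)
    (hS : ∀ i, #(S i) < #X) : #(⋃ i, S i) < #X := by
  have h1 : ∀ i, ∃ b : X, #(S i) ≤ #(Set.Iio b) := by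
    intro i
    obtain ⟨e⟩ := (Cardinal.le_def _ _).1 (hS i).le
    obtain ⟨b, hb⟩ := h.bdd (s := Set.range e) (mk_range_le.trans_lt (hS i))
    exact ⟨b, mk_le_of_injective (f := fun x => (⟨e x, hb _ ⟨x, rfl⟩⟩ : Set.Iio b))
      fun x y hxy => e.injective (Subtype.ext_iff.1 hxy)⟩
  choose b hb using h1
  obtain ⟨c, hc⟩ := h.bdd (s := Set.range b) (mk_range_le.trans_lt hι)
  refine (mk_iUnion_le _).trans_lt ?_
  refine Cardinal.mul_lt_of_lt h.unc.le hι ((ciSup_le' fun i => ?_).trans_lt (h.iio c))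
  exact (hb i).trans (mk_le_mk_of_subset (Set.Iio_subset_Iio (hc _ ⟨i, rfl⟩).le))

/-- a large independent family -/
theorem Cpl.exists_indep (h : Cpl X U) {L : Type} (hL : #L ≤ #(Set X)) :
    ∃ e : X → L → Prop, ∀ S : Set L, #S < #X → ∀ g : L → Prop, ∀ β, ∃ ξ, β ≤ ξ ∧
      ∀ δ ∈ S, (e ξ δ ↔ g δ) := by
  obtain ⟨ι⟩ := (Cardinal.le_def _ _).1 hL
  let T := Σ β : X, Set (Set (Set.Iio β))
  have hT : #(T × X) ≤ #X := by
    have h1 : #T ≤ #X := by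
      rw [mk_sigma]
      refine (sum_le_sum _ (fun _ => #X) fun β => (h.slim (h.slim (h.iio β))).le).trans ?_
      rw [sum_const', mul_eq_self h.unc.le]
    simp only [mk_prod, lift_id]
    exact (mul_le_mul_left h1 _).trans (mul_eq_self h.unc.le).le
  obtain ⟨i⟩ := (Cardinal.le_def _ _).1 hT
  refine ⟨fun ξ δ => ∃ τ x, i (τ, x) = ξ ∧ (Subtype.val ⁻¹' ι δ) ∈ τ.2, fun S hS g β => ?_⟩
  have h1 : ∀ x : S × S, ∃ y : X, x.1 ≠ x.2 → ¬ (y ∈ ι x.1 ↔ y ∈ ι x.2) := by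
    intro x
    by_cases hx : x.1 = x.2
    · exact ⟨β, fun h => absurd hx h⟩
    · by_contra hcon
      push Not at hcon
      exact hx (Subtype.ext (ι.injective (Set.ext fun y => (hcon y).2)))
  choose y hy using h1
  obtain ⟨b, hb⟩ := h.bdd (s := Set.range y) (mk_range_le.trans_lt (by
    simp only [mk_prod, lift_id]
    exact Cardinal.mul_lt_of_lt h.unc.le hS hS))
  let τ : T := ⟨b, {A | ∃ δ ∈ S, A = Subtype.val ⁻¹' ι δ ∧ g δ}⟩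
  obtain ⟨x, hx⟩ : ∃ x, β ≤ i (τ, x) := by
    by_contra hcon
    push Not at hcon
    refine absurd (mk_le_of_injective (f := fun x => (⟨i (τ, x), hcon x⟩ : Set.Iio β))
      fun x x' e => ?_) (not_le.2 (h.iio β))
    exact (Prod.mk.inj (i.injective (Subtype.ext_iff.1 e))).2
  refine ⟨_, hx, fun δ hδ => ⟨?_, fun hg => ⟨τ, x, rfl, δ, hδ, rfl, hg⟩⟩⟩
  rintro ⟨τ', x', e, h2⟩
  obtain rfl : τ' = τ := (Prod.mk.inj (i.injective e)).1
  obtain ⟨δ', hδ', h3, h4⟩ := h2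
  by_contra hcon
  have hne : (⟨δ, hδ⟩ : S) ≠ ⟨δ', hδ'⟩ := fun e => hcon ((Subtype.mk.inj e).symm ▸ h4)
  exact hy (⟨δ, hδ⟩, ⟨δ', hδ'⟩) hne (Set.ext_iff.1 h3 ⟨_, hb _ ⟨_, rfl⟩⟩)

end Pool.Agent.H3Z
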